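import Pool.Agent.V11319.FAD.Mean

/-! Analytic continuation forces vanishing of Fourier-Bohr coefficients on an arc. -/

set_option autoImplicit false

open Filter Topology

namespace Pool.Agent.V11319.FAD

lemma L_deriv {a : ℕ → ℂ} {ρ C : ℝ} (hρ : 0 < ρ) (hC : ∀ n, ‖a n‖ * ρ ^ n ≤ C) {z : ℂ}
    (hz : ‖z‖ < ρ) : ∃ L' : ℂ, HasDerivAt (fun z : ℂ => ∑' n : ℕ, a n / n * z ^ n) L' z ∧
      z * L' = (∑' n : ℕ, a n * z ^ n) - a 0 := by
  obtain ⟨ρ', h1, h2⟩ := exists_between hz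
  have hρ' : 0 < ρ' := (norm_nonneg z).trans_lt h1
  have hC0 : 0 ≤ C := le_trans (by positivity) (hC 0)
  have hq1 : ρ' / ρ < 1 := (div_lt_one hρ).2 h2
  have hq0 : 0 ≤ ρ' / ρ := by positivity
  have hbd : ∀ n, ‖a n‖ * ρ' ^ n ≤ C * (ρ' / ρ) ^ n := by
    intro n
    rw [div_pow, mul_div_assoc', le_div_iff₀ (by positivity)]
    have := mul_le_mul_of_nonneg_right (hC n) (pow_nonneg hρ'.le n)
    linarith
  have hsu : Summable (fun n : ℕ => ‖a n‖ * ρ' ^ (n - 1)) := by
    refine Summable.of_nonneg_of_le (fun n => by positivity) (fun n => ?_)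
      ((summable_geometric_of_lt_one hq0 hq1).mul_left (C * (1 + 1 / ρ')))
    rcases Nat.eq_zero_or_pos n with h | h
    · subst h
      have := hC 0
      simp only [pow_zero, mul_one] at this ⊢
      have h3 : 0 ≤ C * (1 / ρ') := by positivity
      nlinarith
    · obtain ⟨k, rfl⟩ : ∃ k, n = k + 1 := ⟨n - 1, by omega⟩
      have h4 := hbd (k + 1)
      rw [Nat.add_sub_cancel]
      have h5 : ‖a (k + 1)‖ * ρ' ^ k = (‖a (k + 1)‖ * ρ' ^ (k + 1)) / ρ' := by
        field_simp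
        ring
      rw [h5]
      have h6 : 0 ≤ C * (ρ' / ρ) ^ (k + 1) := by positivity
      calc ‖a (k + 1)‖ * ρ' ^ (k + 1) / ρ' ≤ C * (ρ' / ρ) ^ (k + 1) / ρ' :=
            div_le_div_of_nonneg_right h4 hρ'.le
        _ ≤ C * (1 + 1 / ρ') * (ρ' / ρ) ^ (k + 1) := by
            have : C * (1 + 1 / ρ') * (ρ' / ρ) ^ (k + 1)
              = C * (ρ' / ρ) ^ (k + 1) + C * (ρ' / ρ) ^ (k + 1) / ρ' := by
              field_simp
            rw [this]
            linarith
  have hder := hasDerivAt_tsum_of_isPreconnected (u := fun n : ℕ => ‖a n‖ * ρ' ^ (n - 1))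
    (g := fun (n : ℕ) (y : ℂ) => a n / n * y ^ n)
    (g' := fun (n : ℕ) (y : ℂ) => a n / n * (n * y ^ (n - 1)))
    (t := Metric.ball (0 : ℂ) ρ') (y₀ := 0) (y := z) hsu Metric.isOpen_ball
    (convex_ball _ _).isPreconnected
    (fun n y _ => (hasDerivAt_pow n y).const_mul _)
    (fun n y hy => by
      rw [mem_ball_zero_iff] at hy
      rcases Nat.eq_zero_or_pos n with h | h
      · subst h; simp
      · have hn0 : (n : ℂ) ≠ 0 := by exact_mod_cast h.ne'
        have : a n / n * (n * y ^ (n - 1)) = a n * y ^ (n - 1) := by field_simp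
        rw [this, norm_mul, norm_pow]
        exact mul_le_mul_of_nonneg_left (pow_le_pow_left₀ (norm_nonneg _) hy.le _)
          (norm_nonneg _))
    (by simpa using hρ')
    (by
      refine summable_of_ne_finset_zero (s := {0}) (fun n hn => ?_)
      have : n ≠ 0 := by simpa using hn
      simp [this])
    (by simpa using h1)
  refine ⟨_, hder, ?_⟩
  have hsF : Summable (fun n : ℕ => a n * z ^ n) := by
    refine Summable.of_norm_bounded (g := fun n => C * (ρ' / ρ) ^ n)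
      ((summable_geometric_of_lt_one hq0 hq1).mul_left C) (fun n => ?_)
    rw [norm_mul, norm_pow]
    exact (mul_le_mul_of_nonneg_left (pow_le_pow_left₀ (norm_nonneg _) h1.le _)
      (norm_nonneg _)).trans (hbd n)
  rw [← tsum_mul_left, hsF.tsum_eq_zero_add]
  have hs2 : Summable (fun n : ℕ => z * (a n / n * (n * z ^ (n - 1)))) := by
    have : Summable (fun n : ℕ => z * (a (n + 1) / ((n + 1 : ℕ) : ℂ)
        * (((n + 1 : ℕ) : ℂ) * z ^ (n + 1 - 1)))) := by
      refine ((summable_nat_add_iff 1).2 hsF).congr (fun n => ?_)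
      have hn0 : ((n + 1 : ℕ) : ℂ) ≠ 0 := by exact_mod_cast Nat.succ_ne_zero n
      rw [Nat.add_sub_cancel]
      field_simp
      ring
    exact (summable_nat_add_iff 1).1 this
  rw [hs2.tsum_eq_zero_add]
  simp only [pow_zero, mul_one, Nat.cast_zero, zero_mul, mul_zero, zero_add]
  rw [add_sub_cancel_left]
  refine tsum_congr (fun n => ?_)
  have hn0 : ((n + 1 : ℕ) : ℂ) ≠ 0 := by exact_mod_cast Nat.succ_ne_zero n
  rw [Nat.add_sub_cancel]
  field_simp
  ring

lemma cont_arc {a : ℕ → ℂ} {ρ C : ℝ} (hρ : 0 < ρ) (hC : ∀ n, ‖a n‖ * ρ ^ n ≤ C) {z0 : ℂ}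
    (hz0 : ‖z0‖ = ρ) {δ : ℝ} (hδ : 0 < δ) {g : ℂ → ℂ} (hg : AnalyticOnNhd ℂ g (Metric.ball z0 δ))
    (hgz : ∀ z ∈ Metric.ball z0 δ, ‖z‖ < ρ → g z = Complex.exp (∑' n : ℕ, a n / n * z ^ n)) :
    ∃ z1 : ℂ, ‖z1‖ = 1 ∧ ∃ ε > 0, ∀ η : ℂ, ‖η‖ = 1 → ‖η - z1‖ < ε →
      m (fun n => a n * (ρ : ℂ) ^ n * η ^ n) = 0 := by
  have hz00 : z0 ≠ 0 := by
    rintro rfl
    rw [norm_zero] at hz0
    exact hρ.ne hz0
  -- find z1
  obtain ⟨z1, hz1b, hz1n, hgz1⟩ : ∃ z1 ∈ Metric.ball z0 δ, ‖z1‖ = ρ ∧ g z1 ≠ 0 := by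
    have hga := hg z0 (Metric.mem_ball_self hδ)
    rcases hga.eventually_eq_zero_or_eventually_ne_zero with h | h
    · exfalso
      have ht : Tendsto (fun t : ℝ => ((1 - t : ℝ) : ℂ) * z0) (𝓝[>] 0) (𝓝 z0) := by
        have hc : Continuous (fun t : ℝ => ((1 - t : ℝ) : ℂ) * z0) := by fun_prop
        have := (hc.tendsto 0).mono_left (nhdsWithin_le_nhds (s := Set.Ioi (0 : ℝ)))
        simpa using this
      have e1 := ht.eventually h
      have e2 := ht.eventually (Metric.ball_mem_nhds z0 hδ)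
      have e3 : ∀ᶠ t : ℝ in 𝓝[>] 0, t ∈ Set.Ioo (0 : ℝ) 1 := Ioo_mem_nhdsGT (by norm_num)
      obtain ⟨t, h1, h2, h3⟩ := (e1.and (e2.and e3)).exists
      have hlt : ‖((1 - t : ℝ) : ℂ) * z0‖ < ρ := by
        rw [norm_mul, Complex.norm_real, Real.norm_of_nonneg (by linarith [h3.2]), hz0]
        nlinarith [h3.1]
      have := hgz _ h2 hlt
      rw [h1] at this
      exact Complex.exp_ne_zero _ this.symm
    · have ht : Tendsto (fun t : ℝ => z0 * Complex.exp (Complex.I * t)) (𝓝[>] 0) (𝓝[≠] z0) := by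
        rw [tendsto_nhdsWithin_iff]
        constructor
        · have hc : Continuous (fun t : ℝ => z0 * Complex.exp (Complex.I * t)) := by fun_prop
          have := (hc.tendsto 0).mono_left (nhdsWithin_le_nhds (s := Set.Ioi (0 : ℝ)))
          simpa using this
        · have e3 : ∀ᶠ t : ℝ in 𝓝[>] 0, t ∈ Set.Ioo (0 : ℝ) 1 := Ioo_mem_nhdsGT (by norm_num)
          filter_upwards [e3] with t ht
          simp only [Set.mem_compl_iff, Set.mem_singleton_iff]
          intro h'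
          have h1 : Complex.exp (Complex.I * t) = 1 := by
            have : z0 * Complex.exp (Complex.I * t) = z0 * 1 := by rw [h', mul_one]
            exact mul_left_cancel₀ hz00 this
          rw [Complex.exp_eq_one_iff] at h1
          obtain ⟨k, hk⟩ := h1
          have h2 : (t : ℂ) = k * (2 * Real.pi) := by
            have : Complex.I * t = Complex.I * (k * (2 * Real.pi)) := by rw [hk]; ring
            exact mul_left_cancel₀ Complex.I_ne_zero this
          have h3 : t = k * (2 * Real.pi) := by exact_mod_cast h2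
          have hpi := Real.pi_gt_three
          have hk0 : 0 < k := by
            by_contra hk'
            have : (k : ℝ) ≤ 0 := by exact_mod_cast not_lt.1 hk'
            nlinarith [ht.1]
          have : (1 : ℝ) ≤ k := by exact_mod_cast hk0
          nlinarith [ht.2]
      have e1 := ht.eventually h
      have e2 := (ht.mono_right nhdsWithin_le_nhds).eventually (Metric.ball_mem_nhds z0 hδ)
      obtain ⟨t, h1, h2⟩ := (e1.and e2).exists
      refine ⟨_, h2, ?_, h1⟩
      rw [norm_mul, mul_comm Complex.I, Complex.norm_exp_ofReal_mul_I, mul_one, hz0]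
  -- local bound of g'/g
  have hg1 := hg z1 hz1b
  have hcont : ContinuousAt (fun z => z * (deriv g z / g z)) z1 :=
    continuousAt_id.mul (hg1.deriv.continuousAt.div hg1.continuousAt hgz1)
  have hbdd : ∀ᶠ z in 𝓝 z1, ‖z * (deriv g z / g z)‖ < ‖z1 * (deriv g z1 / g z1)‖ + 1 :=
    hcont.norm.eventually (gt_mem_nhds (lt_add_one _))
  have hball : ∀ᶠ z in 𝓝 z1, z ∈ Metric.ball z0 δ := Metric.isOpen_ball.mem_nhds hz1b
  obtain ⟨ε1, hε1, hε⟩ := Metric.eventually_nhds_iff.1 (hbdd.and hball)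
  set K := ‖z1 * (deriv g z1 / g z1)‖ + 1 with hK
  have hF : ∀ z : ℂ, dist z z1 < ε1 → ‖z‖ < ρ → ‖∑' n : ℕ, a n * z ^ n‖ ≤ K + ‖a 0‖ := by
    intro z hz hzρ
    obtain ⟨hb1, hb2⟩ := hε hz
    obtain ⟨L', hL', hzL'⟩ := L_deriv hρ hC hzρ
    have hgne : g z ≠ 0 := by
      rw [hgz z hb2 hzρ]; exact Complex.exp_ne_zero _
    have hev : g =ᶠ[𝓝 z] fun z => Complex.exp (∑' n : ℕ, a n / n * z ^ n) := by
      have h1 : ∀ᶠ y in 𝓝 z, y ∈ Metric.ball z0 δ := Metric.isOpen_ball.mem_nhds hb2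
      have h2 : ∀ᶠ y : ℂ in 𝓝 z, ‖y‖ < ρ := continuous_norm.continuousAt.eventually
        (gt_mem_nhds hzρ)
      filter_upwards [h1, h2] with y hy1 hy2
      exact hgz y hy1 hy2
    have hd : deriv g z = L' * g z := by
      rw [hev.deriv_eq, hgz z hb2 hzρ]
      rw [(hL'.cexp).deriv]
      ring
    have hLq : L' = deriv g z / g z := by rw [hd, mul_div_assoc, div_self hgne, mul_one]
    have h3 : ∑' n : ℕ, a n * z ^ n = z * (deriv g z / g z) + a 0 := by
      rw [← hLq, hzL']; ring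
    rw [h3]
    exact (norm_add_le _ _).trans (add_le_add hb1.le le_rfl)
  refine ⟨z1 / ρ, ?_, ε1 / (2 * ρ), by positivity, fun η hη hηz => ?_⟩
  · rw [norm_div, hz1n, Complex.norm_real, Real.norm_of_nonneg hρ.le, div_self hρ.ne']
  · have hρc : (ρ : ℂ) ≠ 0 := by exact_mod_cast hρ.ne'
    have hB : Bdd (fun n => a n * (ρ : ℂ) ^ n * η ^ n) := by
      refine ⟨C, fun n => ?_⟩
      rw [norm_mul, norm_mul, norm_pow, norm_pow, hη, one_pow, mul_one, Complex.norm_real,
        Real.norm_of_nonneg hρ.le]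
      exact hC n
    refine m_eq hB ?_
    have hlim : Tendsto (fun r : ℝ => (1 - r) * (K + ‖a 0‖)) (U : Filter ℝ) (𝓝 0) := by
      have h : Tendsto (fun r : ℝ => r) (U : Filter ℝ) (𝓝 1) :=
        tendsto_id.mono_left (U_le.trans nhdsWithin_le_nhds)
      have := (h.const_sub 1).mul_const (K + ‖a 0‖)
      simpa using this
    refine squeeze_zero_norm' ?_ hlim
    have hU1 : ∀ᶠ r in (U : Filter ℝ), 1 - ε1 / (2 * ρ) < r := by
      have h : Tendsto (fun r : ℝ => r) (U : Filter ℝ) (𝓝 1) :=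
        tendsto_id.mono_left (U_le.trans nhdsWithin_le_nhds)
      refine h.eventually (lt_mem_nhds ?_)
      have : 0 < ε1 / (2 * ρ) := by positivity
      linarith
    filter_upwards [U_ev, hU1] with r hr hr1
    unfold abel
    have hz : ∑' n : ℕ, a n * (ρ : ℂ) ^ n * η ^ n * (r : ℂ) ^ n
        = ∑' n : ℕ, a n * ((r : ℂ) * ρ * η) ^ n := by
      refine tsum_congr (fun n => ?_)
      rw [mul_pow, mul_pow]; ring
    rw [hz, norm_mul]
    have h1r : ‖(1 : ℂ) - r‖ = 1 - r := by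
      rw [← Complex.ofReal_one, ← Complex.ofReal_sub, Complex.norm_real,
        Real.norm_of_nonneg (by linarith [hr.2])]
    rw [h1r]
    refine mul_le_mul_of_nonneg_left (hF _ ?_ ?_) (by linarith [hr.2])
    · rw [dist_eq_norm]
      have e : (r : ℂ) * ρ * η - z1 = ρ * (((r : ℂ) - 1) * η + (η - z1 / ρ)) := by
        field_simp
        ring
      rw [e, norm_mul, Complex.norm_real, Real.norm_of_nonneg hρ.le]
      have h2 : ‖((r : ℂ) - 1) * η‖ = 1 - r := by
        rw [norm_mul, hη, mul_one, norm_sub_rev, h1r]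
      calc ρ * ‖((r : ℂ) - 1) * η + (η - z1 / ρ)‖ ≤ ρ * ((1 - r) + ‖η - z1 / ρ‖) :=
            mul_le_mul_of_nonneg_left ((norm_add_le _ _).trans (by rw [h2])) hρ.le
        _ < ρ * (ε1 / (2 * ρ) + ε1 / (2 * ρ)) :=
            mul_lt_mul_of_pos_left (by linarith) hρ
        _ = ε1 := by field_simp; ring
    · rw [norm_mul, norm_mul, hη, mul_one, Complex.norm_real, Complex.norm_real,
        Real.norm_of_nonneg hr.1, Real.norm_of_nonneg hρ.le]
      nlinarith [hr.2]

end Pool.Agent.V11319.FAD
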