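import Pool.Agent.V11319.FAD.Trig

/-! The Fourier-Bohr argument. -/

set_option autoImplicit false

open Filter Topology

namespace Pool.Agent.V11319.FAD

noncomputable def ind (Q y n : ℕ) : ℂ := if Q ∣ n + y then 1 else 0

lemma ind_per (Q y n : ℕ) : ind Q y (n + Q) = ind Q y n := ind_periodic Q y n

lemma ind_norm (Q y n : ℕ) : ‖ind Q y n‖ ≤ 1 := by
  unfold ind; split_ifs <;> simp

lemma sum_dilate {h : ℕ → ℂ} {P : ℕ} (hP : 0 < P) (hh : ∀ n, h (n + P) = h n) {E : ℕ}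
    (hE : Nat.Coprime E P) :
    ∑ i ∈ Finset.range P, h (E * i) = ∑ i ∈ Finset.range P, h i := by
  have hper : Function.Periodic h P := hh
  have hinj : Set.InjOn (fun i => (E * i) % P) (Finset.range P : Set ℕ) := by
    intro i hi j hj hij
    have hi' : i < P := by simpa using hi
    have hj' : j < P := by simpa using hj
    have h1 : E * i ≡ E * j [MOD P] := hij
    have h2 : i ≡ j [MOD P] := Nat.ModEq.cancel_left_of_coprime (by
      rw [Nat.gcd_comm]; exact hE) h1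
    rwa [Nat.ModEq, Nat.mod_eq_of_lt hi', Nat.mod_eq_of_lt hj'] at h2
  have himg : (Finset.range P).image (fun i => (E * i) % P) = Finset.range P := by
    apply Finset.eq_of_subset_of_card_le
    · intro x hx
      obtain ⟨i, _, rfl⟩ := Finset.mem_image.1 hx
      exact Finset.mem_range.2 (Nat.mod_lt _ hP)
    · rw [Finset.card_image_of_injOn hinj]
  conv_rhs => rw [← himg, Finset.sum_image hinj]
  exact Finset.sum_congr rfl (fun i _ => (hper.map_mod_nat _).symm)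

structure Sys (N : ℕ) (T : Finset ℂ) (c : ℂ → ℂ) (D' w : ℕ → ℝ) : Prop where
  hN : 0 < N
  hT : ∀ μ ∈ T, ‖μ‖ = 1
  hrou : ∀ μ ∈ T, ∀ P, 0 < P → μ ^ P = 1 → μ ^ N = 1
  hD0 : ∀ n, 0 ≤ D' n
  hD : Tendsto (fun n => (D' n : ℂ) - tr T c n) atTop (𝓝 0)
  hw0 : ∀ n, 1 ≤ n → 0 < w n
  hwC : ∃ C, ∀ n, |w n| ≤ C
  hw : ∀ ε > 0, ∃ l0, ∀ l ≥ l0, ∀ n, 1 ≤ n → |w n - w (Nat.gcd n (N ^ l))| ≤ ε

variable {N : ℕ} {T : Finset ℂ} {c : ℂ → ℂ} {D' w : ℕ → ℝ}

lemma Sys.bddw (S : Sys N T c D' w) : Bdd (fun n => (w n : ℂ)) := by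
  obtain ⟨C, hC⟩ := S.hwC
  exact ⟨C, fun n => by simpa using hC n⟩

lemma Sys.bddD (S : Sys N T c D' w) : Bdd (fun n => (D' n : ℂ)) := by
  refine Eq.mp ?_ ((bdd_of_tendsto S.hD).add (bdd_tr (c := c) S.hT))
  congr 1; ext n; ring

lemma gcd_per (n k M : ℕ) : Nat.gcd (n + M * k) M = Nat.gcd n M := by
  rw [Nat.gcd_comm, Nat.gcd_comm n M]
  simp

lemma Sys.LP_w (S : Sys N T c D' w) {b : ℕ → ℂ} {P : ℕ} (hP : 0 < P) (hb : ∀ n, b (n + P) = b n) :
    LP (fun n => (w n : ℂ) * b n) := by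
  intro ε hε
  obtain ⟨C, hC⟩ := bdd_periodic hP hb
  have hC0 : 0 ≤ C := (norm_nonneg _).trans (hC 0)
  obtain ⟨l0, hl0⟩ := S.hw (ε / (C + 1)) (by positivity)
  have hper : Function.Periodic b P := hb
  refine ⟨N ^ l0 * P, fun n => (w (Nat.gcd n (N ^ l0)) : ℂ) * b n,
    Nat.mul_pos (pow_pos S.hN _) hP, fun n => ?_, fun n hn => ?_⟩
  · simp only
    rw [gcd_per]
    congr 1
    have := hper.nat_mul (N ^ l0) n
    simpa using this
  · rw [← sub_mul, norm_mul, ← Complex.ofReal_sub, Complex.norm_real, Real.norm_eq_abs]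
    calc |w n - w (Nat.gcd n (N ^ l0))| * ‖b n‖ ≤ (ε / (C + 1)) * C :=
          mul_le_mul (hl0 l0 le_rfl n hn) (hC n) (norm_nonneg _) (by positivity)
      _ ≤ ε := by
          rw [div_mul_eq_mul_div, div_le_iff₀ (by positivity)]
          nlinarith

/-- mean of `g b = D' w b` for periodic `b` -/
lemma Sys.m_g (S : Sys N T c D' w) {b : ℕ → ℂ} {P : ℕ} (hP : 0 < P) (hb : ∀ n, b (n + P) = b n) :
    m (fun n => (D' n : ℂ) * w n * b n) = m (fun n => rou N T c n * ((w n : ℂ) * b n)) := by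
  have hB := bdd_periodic hP hb
  have hu := bdd_tr (c := c) S.hT
  rw [← m_tr_LP (N := N) S.hT S.hrou (S.LP_w hP hb) (S.bddw.mul hB)]
  refine m_congr ((S.bddD.mul S.bddw).mul hB) (hu.mul (S.bddw.mul hB)) ?_
  obtain ⟨C, hC⟩ := S.bddw.mul hB
  refine squeeze_zero_norm (a := fun n => ‖(D' n : ℂ) - tr T c n‖ * C) (fun n => ?_) ?_
  · have : (D' n : ℂ) * w n * b n - tr T c n * ((w n : ℂ) * b n)
        = ((D' n : ℂ) - tr T c n) * ((w n : ℂ) * b n) := by ring
    rw [this, norm_mul]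
    exact mul_le_mul_of_nonneg_left (hC n) (norm_nonneg _)
  · have := (S.hD.norm).mul_const C
    simpa using this

lemma Sys.approx (S : Sys N T c D' w) {ν : ℂ} (hν : ‖ν‖ = 1) {ε : ℝ} (hε : 0 < ε) :
    ∃ l0, ∀ l ≥ l0, ‖m (fun n => rou N T c n * ((w n : ℂ) * ν ^ n))
      - m (fun n => rou N T c n * ((w (Nat.gcd n (N ^ l)) : ℂ) * ν ^ n))‖ ≤ ε := by
  obtain ⟨C, hC⟩ := bdd_rou (N := N) (c := c) S.hT
  obtain ⟨Cw, hCw⟩ := S.hwC
  have hC0 : 0 ≤ C := (norm_nonneg _).trans (hC 0)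
  obtain ⟨l0, hl0⟩ := S.hw (ε / (C + 1)) (by positivity)
  refine ⟨l0, fun l hl => ?_⟩
  have hr : Bdd (rou N T c) := ⟨C, hC⟩
  have hwl : Bdd (fun n => (w (Nat.gcd n (N ^ l)) : ℂ)) :=
    ⟨Cw, fun n => by simpa using hCw _⟩
  rw [← m_sub (hr.mul (S.bddw.mul (Bdd.pow hν))) (hr.mul (hwl.mul (Bdd.pow hν)))]
  refine m_norm_le 1 ((hr.mul (S.bddw.mul (Bdd.pow hν))).sub (hr.mul (hwl.mul (Bdd.pow hν))))
    (fun n hn => ?_)
  have : rou N T c n * ((w n : ℂ) * ν ^ n) - rou N T c n * ((w (Nat.gcd n (N ^ l)) : ℂ) * ν ^ n)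
      = rou N T c n * (((w n - w (Nat.gcd n (N ^ l)) : ℝ) : ℂ) * ν ^ n) := by
    push_cast; ring
  rw [this, norm_mul, norm_mul, norm_pow, hν, one_pow, mul_one, Complex.norm_real,
    Real.norm_eq_abs]
  calc ‖rou N T c n‖ * |w n - w (Nat.gcd n (N ^ l))| ≤ C * (ε / (C + 1)) :=
        mul_le_mul (hC n) (hl0 l hl n hn) (abs_nonneg _) hC0
    _ ≤ ε := by
        rw [mul_div_assoc', div_le_iff₀ (by positivity)]
        nlinarith

lemma Sys.c_inv (S : Sys N T c D' w) {ν : ℂ} {l' : ℕ} (hν : ν ^ (N ^ l') = 1) {E : ℕ}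
    (hE : E ≡ 1 [MOD N]) :
    m (fun n => (D' n : ℂ) * w n * ν ^ n) = m (fun n => (D' n : ℂ) * w n * (ν ^ E) ^ n) := by
  have hNl : 0 < N ^ l' := pow_pos S.hN _
  have hν1 : ‖ν‖ = 1 := by
    have h1 : ‖ν‖ ^ (N ^ l') = 1 := by rw [← norm_pow, hν, norm_one]
    exact (pow_eq_one_iff_of_nonneg (norm_nonneg _) hNl.ne').1 h1
  have hνE1 : ‖ν ^ E‖ = 1 := by rw [norm_pow, hν1, one_pow]
  have hper : ∀ n, ν ^ (n + N ^ l') = ν ^ n := fun n => by rw [pow_add, hν, mul_one]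
  have hperE : ∀ n, (ν ^ E) ^ (n + N ^ l') = (ν ^ E) ^ n := fun n => by
    rw [pow_add, ← pow_mul ν E (N ^ l'), mul_comm E, pow_mul, hν, one_pow, mul_one]
  rw [S.m_g hNl hper, S.m_g hNl hperE]
  rw [← sub_eq_zero, ← norm_le_zero_iff]
  refine le_of_forall_pos_le_add (fun ε hε => ?_)
  rw [zero_add]
  obtain ⟨l1, hl1⟩ := S.approx hν1 (half_pos hε)
  obtain ⟨l2, hl2⟩ := S.approx hνE1 (half_pos hε)
  set l := max (max l1 l2) (max l' 1) with hl
  have h1 := hl1 l (by simp [hl])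
  have h2 := hl2 l (by simp [hl])
  have hll' : l' ≤ l := by simp [hl]
  have hl1' : 1 ≤ l := by simp [hl]
  have hP : 0 < N ^ l := pow_pos S.hN _
  have hνl : ν ^ (N ^ l) = 1 := by
    obtain ⟨k, hk⟩ := pow_dvd_pow N hll'
    rw [hk, pow_mul, hν, one_pow]
  have hcop : Nat.Coprime E N := by
    have : Nat.gcd E N = Nat.gcd 1 N := hE.gcd_eq
    rw [Nat.Coprime, this, Nat.gcd_one_left]
  have hcopP : Nat.Coprime E (N ^ l) := Nat.Coprime.pow_right l hcop
  set b : ℕ → ℂ := fun n => rou N T c n * (w (Nat.gcd n (N ^ l)) : ℂ) with hb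
  have hNdvd : N ∣ N ^ l := dvd_pow_self N (by omega)
  have hbper : ∀ n, b (n + N ^ l) = b n := by
    intro n
    simp only [hb]
    obtain ⟨k, hk⟩ := hNdvd
    have e1 : rou N T c (n + N ^ l) = rou N T c n := by rw [hk, rou_mod]
    have e2 : Nat.gcd (n + N ^ l) (N ^ l) = Nat.gcd n (N ^ l) := by
      have := gcd_per n 1 (N ^ l)
      rwa [mul_one] at this
    rw [e1, e2]
  have hbE : ∀ n, b (E * n) = b n := by
    intro n
    simp only [hb]
    have e1 : rou N T c (E * n) = rou N T c n := rou_congr (by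
      have := hE.mul_right n
      rwa [one_mul] at this)
    have e2 : Nat.gcd (E * n) (N ^ l) = Nat.gcd n (N ^ l) :=
      Nat.Coprime.gcd_mul_left_cancel n hcopP
    rw [e1, e2]
  have hm : m (fun n => b n * ν ^ n) = m (fun n => b n * (ν ^ E) ^ n) := by
    rw [m_periodic hP (b := fun n => b n * ν ^ n) (fun n => by
        rw [hbper, pow_add, hνl, mul_one]),
      m_periodic hP (b := fun n => b n * (ν ^ E) ^ n) (fun n => by
        rw [hbper, pow_add, ← pow_mul ν E (N ^ l), mul_comm E, pow_mul, hνl, one_pow, mul_one])]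
    congr 1
    rw [← sum_dilate hP (h := fun n => b n * ν ^ n) (fun n => by
        rw [hbper, pow_add, hνl, mul_one]) hcopP]
    refine Finset.sum_congr rfl (fun i _ => ?_)
    rw [hbE, pow_mul]
  have hm' : m (fun n => rou N T c n * ((w (Nat.gcd n (N ^ l)) : ℂ) * ν ^ n))
      = m (fun n => rou N T c n * ((w (Nat.gcd n (N ^ l)) : ℂ) * (ν ^ E) ^ n)) := by
    simpa only [hb, mul_assoc] using hm
  rw [hm'] at h1
  calc _ ≤ ‖_ - _‖ + ‖_ - _‖ := norm_sub_le_norm_sub_add_norm_sub _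
        (m (fun n => rou N T c n * ((w (Nat.gcd n (N ^ l)) : ℂ) * (ν ^ E) ^ n))) _
    _ ≤ ε / 2 + ε / 2 := add_le_add h1 (by rw [norm_sub_rev]; exact h2)
    _ = ε := by ring

/-- powers of a root of unity come close to any unit number -/
lemma arc {M : ℕ} (hM : 0 < M) {z z1 : ℂ} (hz : ‖z‖ = 1) (hz1 : ‖z1‖ = 1) :
    ∃ t : ℕ, ‖z * Complex.exp (2 * Real.pi * Complex.I / M) ^ t - z1‖ ≤ 2 * Real.pi / M := by
  have hz0 : z ≠ 0 := by rintro rfl; simp at hz
  have hM' : (0 : ℝ) < M := by exact_mod_cast hM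
  have hpi := Real.pi_pos
  obtain ⟨θ, hθ0, hθ⟩ : ∃ θ : ℝ, 0 ≤ θ ∧ z1 / z = Complex.exp (Complex.I * θ) := by
    have hn : ‖z1 / z‖ = 1 := by rw [norm_div, hz, hz1, div_one]
    refine ⟨(z1 / z).arg + 2 * Real.pi, ?_, ?_⟩
    · have := Complex.neg_pi_lt_arg (z1 / z)
      linarith
    · have h := Complex.norm_mul_exp_arg_mul_I (z1 / z)
      rw [hn] at h
      push_cast
      rw [mul_add, Complex.exp_add]
      have h2 : Complex.exp (Complex.I * (2 * Real.pi)) = 1 := by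
        rw [mul_comm]; exact Complex.exp_two_pi_mul_I
      rw [h2, mul_one, mul_comm Complex.I]
      rw [Complex.ofReal_one, one_mul] at h
      exact h.symm
  set t : ℕ := ⌊θ * M / (2 * Real.pi)⌋₊ with ht
  refine ⟨t, ?_⟩
  have h1 : (t : ℝ) ≤ θ * M / (2 * Real.pi) := Nat.floor_le (by positivity)
  have h2 : θ * M / (2 * Real.pi) < t + 1 := Nat.lt_floor_add_one _
  have hz1' : z1 = z * Complex.exp (Complex.I * θ) := by
    rw [← hθ]; field_simp
  have hpow : Complex.exp (2 * Real.pi * Complex.I / M) ^ t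
      = Complex.exp (Complex.I * (2 * Real.pi * t / M : ℝ)) := by
    rw [← Complex.exp_nat_mul]
    congr 1
    push_cast
    ring
  have hsplit : Complex.exp (Complex.I * θ)
      = Complex.exp (Complex.I * (2 * Real.pi * t / M : ℝ))
        * Complex.exp (Complex.I * ((θ - 2 * Real.pi * t / M : ℝ))) := by
    rw [← Complex.exp_add]
    congr 1
    push_cast
    ring
  have hun : ‖Complex.exp (Complex.I * (2 * Real.pi * t / M : ℝ))‖ = 1 := by
    rw [mul_comm]; exact Complex.norm_exp_ofReal_mul_I _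
  rw [hpow, hz1', hsplit]
  have e : z * Complex.exp (Complex.I * (2 * Real.pi * t / M : ℝ))
      - z * (Complex.exp (Complex.I * (2 * Real.pi * t / M : ℝ))
        * Complex.exp (Complex.I * ((θ - 2 * Real.pi * t / M : ℝ))))
      = -(z * Complex.exp (Complex.I * (2 * Real.pi * t / M : ℝ))
        * (Complex.exp (Complex.I * ((θ - 2 * Real.pi * t / M : ℝ))) - 1)) := by ring
  rw [e, norm_neg, norm_mul, norm_mul, hz, hun, one_mul, one_mul]
  refine Real.norm_exp_I_mul_ofReal_sub_one_le.trans ?_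
  rw [Real.norm_eq_abs, abs_le]
  rw [le_div_iff₀ (by positivity)] at h1
  rw [div_lt_iff₀ (by positivity)] at h2
  constructor
  · have : 0 ≤ θ - 2 * Real.pi * t / M := by
      rw [sub_nonneg, div_le_iff₀ hM']
      linarith
    have : 0 ≤ 2 * Real.pi / M := by positivity
    linarith
  · rw [sub_le_iff_le_add, ← add_div, le_div_iff₀ hM']
    nlinarith

end Pool.Agent.V11319.FAD
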