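import Pool.Agent.V11319.FAD.Core

/-! The Fourier-Bohr argument, conclusion. -/

set_option autoImplicit false

open Filter Topology

namespace Pool.Agent.V11319.FAD

variable {N : ℕ} {T : Finset ℂ} {c : ℂ → ℂ} {D' w : ℕ → ℝ}

noncomputable def zt (Q : ℕ) : ℂ := Complex.exp (2 * Real.pi * Complex.I / Q)

lemma zt_prim {Q : ℕ} (hQ : 0 < Q) : IsPrimitiveRoot (zt Q) Q :=
  Complex.isPrimitiveRoot_exp Q hQ.ne'

lemma zt_pow {p Q : ℕ} (hp : 0 < p) (hQ : 0 < Q) : zt (p * Q) ^ p = zt Q := by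
  unfold zt
  rw [← Complex.exp_nat_mul]
  congr 1
  have h1 : (p : ℂ) ≠ 0 := by exact_mod_cast hp.ne'
  have h2 : (Q : ℂ) ≠ 0 := by exact_mod_cast hQ.ne'
  push_cast
  field_simp

lemma zt_norm {Q : ℕ} (hQ : 0 < Q) : ‖zt Q‖ = 1 := (zt_prim hQ).norm'_eq_one hQ.ne'

lemma exists_mul_modEq {j M : ℕ} (hM : 0 < M) (hj : Nat.Coprime j M) (t : ℕ) :
    ∃ k, j * k ≡ t [MOD M] := by
  have : NeZero M := ⟨hM.ne'⟩
  refine ⟨((((ZMod.unitOfCoprime j hj)⁻¹ : (ZMod M)ˣ) : ZMod M) * t).val, ?_⟩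
  rw [← ZMod.natCast_eq_natCast_iff]
  push_cast
  rw [ZMod.natCast_zmod_val, ← mul_assoc]
  have : (j : ZMod M) * (((ZMod.unitOfCoprime j hj)⁻¹ : (ZMod M)ˣ) : ZMod M) = 1 := by
    have := (ZMod.unitOfCoprime j hj).mul_inv
    rwa [ZMod.coe_unitOfCoprime] at this
  rw [this, one_mul]

lemma Sys.coef_zero (S : Sys N T c D' w) {z1 : ℂ} (hz1 : ‖z1‖ = 1) {ε : ℝ}
    (harc : ∀ η : ℂ, ‖η‖ = 1 → ‖η - z1‖ < ε → m (fun n => (D' n : ℂ) * w n * η ^ n) = 0)
    {p : ℕ} (hp : p.Prime) (hpN : p ∣ N) {b : ℕ} (hb : 2 * Real.pi / ((p ^ b : ℕ) : ℝ) < ε) {j : ℕ}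
    (hj : ¬ p ∣ j) : m (fun n => (D' n : ℂ) * w n * (zt (N * p ^ b) ^ j) ^ n) = 0 := by
  have hQ : 0 < N * p ^ b := Nat.mul_pos S.hN (pow_pos hp.pos _)
  have hpb : 0 < p ^ b := pow_pos hp.pos _
  have hnorm : ‖zt (N * p ^ b) ^ j‖ = 1 := by rw [norm_pow, zt_norm hQ, one_pow]
  obtain ⟨t, ht⟩ := arc hpb hnorm hz1
  have hcop : Nat.Coprime j (p ^ b) :=
    Nat.Coprime.pow_right _ ((Nat.Prime.coprime_iff_not_dvd hp).2 hj).symm
  obtain ⟨k, hk⟩ := exists_mul_modEq hpb hcop t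
  have hE : 1 + N * k ≡ 1 [MOD N] := by
    have : (1 + N * k) % N = 1 % N := Nat.add_mul_mod_self_left 1 N k
    exact this
  have hone : (zt (N * p ^ b) ^ j) ^ (N ^ (b + 1)) = 1 := by
    obtain ⟨q, hq⟩ := pow_dvd_pow_of_dvd hpN b
    rw [← pow_mul, (zt_prim hQ).pow_eq_one_iff_dvd]
    refine Dvd.dvd.mul_left ?_ _
    rw [pow_succ, mul_comm (N ^ b)]
    exact Nat.mul_dvd_mul_left N ⟨q, hq⟩
  rw [S.c_inv hone hE]
  apply harc
  · rw [norm_pow, hnorm, one_pow]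
  · have e : (zt (N * p ^ b) ^ j) ^ (1 + N * k) = zt (N * p ^ b) ^ j * zt (p ^ b) ^ t := by
      rw [pow_add, pow_one, ← pow_mul, ← zt_pow S.hN hpb, ← pow_mul]
      congr 1
      have h1 : (zt (N * p ^ b)) ^ (j * (N * k)) = (zt (N * p ^ b) ^ N) ^ (j * k) := by
        rw [← pow_mul]; congr 1; ring
      have h2 : (zt (N * p ^ b)) ^ (N * t) = (zt (N * p ^ b) ^ N) ^ t := by
        rw [← pow_mul]
      rw [h1, h2, zt_pow S.hN hpb]
      have h3 := (zt_prim hpb)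
      exact pow_eq_pow_of_modEq hk h3.pow_eq_one
    rw [e]
    exact lt_of_le_of_lt ht hb

lemma sum_zt {Q : ℕ} (hQ : 0 < Q) (s : ℕ) :
    ∑ j ∈ Finset.range Q, (zt Q ^ j) ^ s = if Q ∣ s then (Q : ℂ) else 0 := by
  have h := zt_prim hQ
  have e : ∀ j, (zt Q ^ j) ^ s = (zt Q ^ s) ^ j := fun j => by rw [← pow_mul, mul_comm, pow_mul]
  rw [Finset.sum_congr rfl (fun j _ => e j)]
  split_ifs with hs
  · rw [(h.pow_eq_one_iff_dvd s).2 hs]
    simp
  · have hne : zt Q ^ s ≠ 1 := fun h' => hs ((h.pow_eq_one_iff_dvd s).1 h')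
    rw [geom_sum_eq hne, ← pow_mul, mul_comm, pow_mul, h.pow_eq_one, one_pow, sub_self, zero_div]

lemma sum_zt_not {p Q' : ℕ} (hp : 0 < p) (hQ' : 0 < Q') (s : ℕ) :
    ∑ j ∈ (Finset.range (p * Q')).filter (fun j => ¬ p ∣ j), (zt (p * Q') ^ j) ^ s
      = (if p * Q' ∣ s then ((p * Q' : ℕ) : ℂ) else 0) - (if Q' ∣ s then (Q' : ℂ) else 0) := by
  have hQ : 0 < p * Q' := Nat.mul_pos hp hQ'
  have h1 := Finset.sum_filter_add_sum_filter_not (Finset.range (p * Q')) (fun j => p ∣ j)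
    (fun j => (zt (p * Q') ^ j) ^ s)
  rw [sum_zt hQ s] at h1
  have h2 : ∑ j ∈ (Finset.range (p * Q')).filter (fun j => p ∣ j), (zt (p * Q') ^ j) ^ s
      = if Q' ∣ s then (Q' : ℂ) else 0 := by
    rw [← sum_zt hQ' s]
    symm
    have himg : (Finset.range (p * Q')).filter (fun j => p ∣ j)
        = (Finset.range Q').image (fun i => p * i) := by
      ext j
      simp only [Finset.mem_filter, Finset.mem_range, Finset.mem_image]
      constructor
      · rintro ⟨hj, i, rfl⟩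
        exact ⟨i, Nat.lt_of_mul_lt_mul_left hj, rfl⟩
      · rintro ⟨i, hi, rfl⟩
        exact ⟨Nat.mul_lt_mul_of_pos_left hi hp, dvd_mul_right _ _⟩
    rw [himg, Finset.sum_image (fun i _ j _ hij => Nat.eq_of_mul_eq_mul_left hp hij)]
    refine Finset.sum_congr rfl (fun i _ => ?_)
    rw [pow_mul, zt_pow hp hQ']
  rw [h2] at h1
  rw [← h1]
  ring

lemma Sys.class_eq (S : Sys N T c D' w) {z1 : ℂ} (hz1 : ‖z1‖ = 1) {ε : ℝ}
    (harc : ∀ η : ℂ, ‖η‖ = 1 → ‖η - z1‖ < ε → m (fun n => (D' n : ℂ) * w n * η ^ n) = 0)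
    {p : ℕ} (hp : p.Prime) (hpN : p ∣ N) {b : ℕ}
    (hb : 2 * Real.pi / ((p ^ (b + 1) : ℕ) : ℝ) < ε) (y : ℕ) :
    (p : ℂ) * m (fun n => (D' n : ℂ) * w n * ind (N * p ^ (b + 1)) y n)
      = m (fun n => (D' n : ℂ) * w n * ind (N * p ^ b) y n) := by
  set Q' := N * p ^ b with hQ'
  have hQ'0 : 0 < Q' := Nat.mul_pos S.hN (pow_pos hp.pos _)
  have hQ : N * p ^ (b + 1) = p * Q' := by rw [hQ']; ring
  have hg : Bdd (fun n => (D' n : ℂ) * w n) := S.bddD.mul S.bddw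
  have hpQ : 0 < p * Q' := Nat.mul_pos hp.pos hQ'0
  have hz : ∀ j ∈ (Finset.range (p * Q')).filter (fun j => ¬ p ∣ j),
      m (fun n => (D' n : ℂ) * w n * (zt (p * Q') ^ j) ^ n) = 0 := by
    intro j hj
    have := S.coef_zero hz1 harc hp hpN hb (Finset.mem_filter.1 hj).2
    rwa [hQ] at this
  have hnz : ∀ j, ‖zt (p * Q') ^ j‖ = 1 := fun j => by rw [norm_pow, zt_norm hpQ, one_pow]
  have e1 : m (fun n => ∑ j ∈ (Finset.range (p * Q')).filter (fun j => ¬ p ∣ j),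
      ((zt (p * Q') ^ j) ^ y) * ((D' n : ℂ) * w n * (zt (p * Q') ^ j) ^ n)) = 0 := by
    rw [m_sum _ (a := fun j n => ((zt (p * Q') ^ j) ^ y) *
      ((D' n : ℂ) * w n * (zt (p * Q') ^ j) ^ n))
      (fun j _ => (hg.mul (Bdd.pow (hnz j))).cmul _)]
    refine Finset.sum_eq_zero (fun j hj => ?_)
    rw [m_cmul _ (hg.mul (Bdd.pow (hnz j))), hz j hj, mul_zero]
  have e2 : (fun n => ∑ j ∈ (Finset.range (p * Q')).filter (fun j => ¬ p ∣ j),
      ((zt (p * Q') ^ j) ^ y) * ((D' n : ℂ) * w n * (zt (p * Q') ^ j) ^ n))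
      = fun n => ((p * Q' : ℕ) : ℂ) * ((D' n : ℂ) * w n * ind (p * Q') y n)
        - (Q' : ℂ) * ((D' n : ℂ) * w n * ind Q' y n) := by
    ext n
    have := sum_zt_not hp.pos hQ'0 (n + y)
    have e3 : ∑ j ∈ (Finset.range (p * Q')).filter (fun j => ¬ p ∣ j),
      ((zt (p * Q') ^ j) ^ y) * ((D' n : ℂ) * w n * (zt (p * Q') ^ j) ^ n)
        = (D' n : ℂ) * w n * ∑ j ∈ (Finset.range (p * Q')).filter (fun j => ¬ p ∣ j),
          (zt (p * Q') ^ j) ^ (n + y) := by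
      rw [Finset.mul_sum]
      refine Finset.sum_congr rfl (fun j _ => ?_)
      rw [pow_add]; ring
    rw [e3, this]
    unfold ind
    split_ifs <;> ring
  have hi1 : Bdd (ind (p * Q') y) := ⟨1, ind_norm _ _⟩
  have hi2 : Bdd (ind Q' y) := ⟨1, ind_norm _ _⟩
  rw [e2, m_sub ((hg.mul hi1).cmul _) ((hg.mul hi2).cmul _), m_cmul _ (hg.mul hi1),
    m_cmul _ (hg.mul hi2)] at e1
  rw [hQ]
  have hQc : (Q' : ℂ) ≠ 0 := by exact_mod_cast hQ'0.ne'
  apply mul_left_cancel₀ hQc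
  push_cast at e1
  linear_combination e1

lemma Sys.m_w_ind_ne (S : Sys N T c D' w) {P : ℕ} (hP : 0 < P) (y : ℕ) :
    m (fun n => (w n : ℂ) * ind P y n) ≠ 0 := by
  -- pick n2 ≥ 1 in the class
  obtain ⟨n2, hn21, hn2⟩ : ∃ n2, 1 ≤ n2 ∧ P ∣ n2 + y := by
    have hle : y ≤ P * (y + 1) := by nlinarith
    refine ⟨P * (y + 1) - y, ?_, ?_⟩
    · have : y < P * (y + 1) := by nlinarith
      omega
    · rw [Nat.sub_add_cancel hle]
      exact dvd_mul_right _ _
  have hδ := S.hw0 n2 hn21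
  obtain ⟨l0, hl0⟩ := S.hw (w n2 / 4) (by linarith)
  set P2 := N ^ l0 * P with hP2
  have hP20 : 0 < P2 := Nat.mul_pos (pow_pos S.hN _) hP
  -- y2 with class n ≡ n2 mod P2
  obtain ⟨y2, hy2⟩ : ∃ y2, P2 ∣ n2 + y2 := by
    refine ⟨P2 * n2 - n2, ?_⟩
    have : n2 ≤ P2 * n2 := Nat.le_mul_of_pos_left n2 hP20
    rw [Nat.add_sub_cancel' this]
    exact dvd_mul_right _ _
  have hlow : ∀ n, 1 ≤ n → ‖((w n2 / 2 : ℝ) : ℂ) * ind P2 y2 n‖
      ≤ (w n * (if P ∣ n + y then (1 : ℝ) else 0)) := by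
    intro n hn
    unfold ind
    by_cases h : P2 ∣ n + y2
    · have hmod : n ≡ n2 [MOD P2] := by
        have h3 : n + y2 ≡ n2 + y2 [MOD P2] :=
          (Nat.modEq_zero_iff_dvd.2 h).trans (Nat.modEq_zero_iff_dvd.2 hy2).symm
        exact Nat.ModEq.add_right_cancel' y2 h3
      have hmodP : n ≡ n2 [MOD P] := hmod.of_mul_left _
      have hmodN : n ≡ n2 [MOD N ^ l0] := hmod.of_mul_right _
      have hPn : P ∣ n + y := by
        have := (hmodP.add_right y).trans (Nat.modEq_zero_iff_dvd.2 hn2)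
        exact Nat.modEq_zero_iff_dvd.1 this
      rw [if_pos h, if_pos hPn, mul_one, mul_one, Complex.norm_real, Real.norm_of_nonneg
        (by linarith)]
      have hg : Nat.gcd n (N ^ l0) = Nat.gcd n2 (N ^ l0) := hmodN.gcd_eq
      have h1 := hl0 l0 le_rfl n hn
      have h2 := hl0 l0 le_rfl n2 hn21
      rw [hg] at h1
      rw [abs_le] at h1 h2
      linarith [h1.1, h2.2]
    · rw [if_neg h, mul_zero, norm_zero]
      have := S.hw0 n hn
      split_ifs <;> linarith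
  have hb : Bdd (fun n => ((w n * (if P ∣ n + y then (1 : ℝ) else 0) : ℝ) : ℂ)) := by
    refine Eq.mp ?_ (S.bddw.mul (⟨1, ind_norm P y⟩ : Bdd (ind P y)))
    congr 1
    ext n
    unfold ind
    split_ifs <;> simp
  have hi2 : Bdd (ind P2 y2) := ⟨1, ind_norm _ _⟩
  have h := m_norm_mono hlow (hi2.cmul _) hb
  have e : (fun n => ((w n * (if P ∣ n + y then (1 : ℝ) else 0) : ℝ) : ℂ))
      = fun n => (w n : ℂ) * ind P y n := by
    ext n
    unfold ind
    split_ifs <;> simp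
  rw [e] at h
  intro h0
  rw [h0, norm_zero, m_cmul _ hi2, m_periodic hP20 (fun n => ind_per P2 y2 n)] at h
  have hsum : ∑ i ∈ Finset.range P2, ind P2 y2 i ≠ 0 := by
    obtain ⟨i0, hi0, hi0y⟩ : ∃ i0, i0 < P2 ∧ P2 ∣ i0 + y2 := by
      refine ⟨n2 % P2, Nat.mod_lt _ hP20, ?_⟩
      have h2 : n2 % P2 + y2 ≡ n2 + y2 [MOD P2] := (Nat.mod_modEq _ _).add_right y2
      exact (Nat.modEq_zero_iff_dvd.1 (h2.trans (Nat.modEq_zero_iff_dvd.2 hy2)))
    have hR : ∑ i ∈ Finset.range P2, ind P2 y2 i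
        = ((∑ i ∈ Finset.range P2, if P2 ∣ i + y2 then (1 : ℝ) else 0 : ℝ) : ℂ) := by
      push_cast
      refine Finset.sum_congr rfl (fun i _ => ?_)
      unfold ind
      split_ifs <;> simp
    rw [hR]
    have hpos : 0 < ∑ i ∈ Finset.range P2, if P2 ∣ i + y2 then (1 : ℝ) else 0 := by
      refine Finset.sum_pos' (fun i _ => by split_ifs <;> norm_num)
        ⟨i0, Finset.mem_range.2 hi0, by rw [if_pos hi0y]; norm_num⟩
    exact_mod_cast hpos.ne'
  have hne : ((w n2 / 2 : ℝ) : ℂ) * ((∑ i ∈ Finset.range P2, ind P2 y2 i) / (P2 : ℂ)) ≠ 0 := by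
    refine mul_ne_zero ?_ (div_ne_zero hsum ?_)
    · exact Complex.ofReal_ne_zero.2 (by positivity)
    · exact_mod_cast hP20.ne'
  exact hne (norm_le_zero_iff.1 h)

/-- Main conclusion of the Fourier-Bohr argument. -/
theorem Sys.core (S : Sys N T c D' w) {z1 : ℂ} (hz1 : ‖z1‖ = 1) {ε : ℝ} (hε : 0 < ε)
    (harc : ∀ η : ℂ, ‖η‖ = 1 → ‖η - z1‖ < ε → m (fun n => (D' n : ℂ) * w n * η ^ n) = 0)
    {p : ℕ} (hp : p.Prime) (hpN : p ∣ N) (y : ℕ → ℕ)
    (hy : ∀ b, y (b + 1) ≡ y b [MOD N * p ^ b])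
    (hsmall : ∀ η > 0, ∃ B, ∀ b ≥ B, ∀ n, 1 ≤ n → N * p ^ b ∣ n + y b → w n ≤ η)
    {n1 : ℕ} (hn1 : N ∣ n1 + y 0) : tr T c n1 = 0 := by
  have hg : Bdd (fun n => (D' n : ℂ) * w n) := S.bddD.mul S.bddw
  have hp1 : (1 : ℝ) < p := by exact_mod_cast hp.one_lt
  have hpi := Real.pi_pos
  -- b0
  obtain ⟨b0, hb0⟩ : ∃ b0 : ℕ, 2 * Real.pi / ε < (p : ℝ) ^ b0 := pow_unbounded_of_one_lt _ hp1
  have hbig : ∀ b ≥ b0, 2 * Real.pi / ((p ^ b : ℕ) : ℝ) < ε := by
    intro b hb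
    have h1 : (p : ℝ) ^ b0 ≤ (p : ℝ) ^ b := pow_le_pow_right₀ hp1.le hb
    have h2 : 0 < (p : ℝ) ^ b := by positivity
    push_cast
    rw [div_lt_iff₀ h2]
    rw [div_lt_iff₀ hε] at hb0
    nlinarith
  have hind : ∀ b n, ind (N * p ^ b) (y (b + 1)) n = ind (N * p ^ b) (y b) n := by
    intro b n
    unfold ind
    have : N * p ^ b ∣ n + y (b + 1) ↔ N * p ^ b ∣ n + y b := by
      rw [← Nat.modEq_zero_iff_dvd, ← Nat.modEq_zero_iff_dvd]
      have h := (hy b).add_left n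
      exact ⟨fun h' => h.symm.trans h', fun h' => h.trans h'⟩
    simp only [this]
  set A : ℕ → ℂ := fun b => (p : ℂ) ^ b * m (fun n => (D' n : ℂ) * w n * ind (N * p ^ b) (y b) n)
    with hA
  have hstep : ∀ b ≥ b0, A (b + 1) = A b := by
    intro b hb
    have h := S.class_eq hz1 harc hp hpN (hbig (b + 1) (by omega)) (y (b + 1))
    have e : (fun n => (D' n : ℂ) * w n * ind (N * p ^ b) (y (b + 1)) n)
        = fun n => (D' n : ℂ) * w n * ind (N * p ^ b) (y b) n := by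
      ext n; rw [hind]
    rw [e] at h
    simp only [hA]
    rw [← h]
    ring
  have hconst : ∀ k, A (b0 + k) = A b0 := by
    intro k
    induction k with
    | zero => rfl
    | succ k ih => rw [← ih, ← add_assoc, hstep _ (by omega)]
  obtain ⟨C, hC⟩ := S.bddD
  have hC0 : 0 ≤ C := (norm_nonneg _).trans (hC 0)
  have hA0 : A b0 = 0 := by
    rw [← norm_le_zero_iff]
    refine le_of_forall_pos_le_add (fun δ hδ => ?_)
    rw [zero_add]
    obtain ⟨B, hB⟩ := hsmall (δ / (C + 1)) (by positivity)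
    have h1 := hconst B
    rw [← h1]
    simp only [hA]
    set b := b0 + B
    have hQ : 0 < N * p ^ b := Nat.mul_pos S.hN (pow_pos hp.pos _)
    have hbd : ∀ n, 1 ≤ n → ‖(D' n : ℂ) * w n * ind (N * p ^ b) (y b) n‖
        ≤ δ * (if N * p ^ b ∣ n + y b then (1 : ℝ) else 0) := by
      intro n hn
      unfold ind
      split_ifs with h
      · rw [mul_one, mul_one, norm_mul, Complex.norm_real, Complex.norm_real]
        have h2 := hB b (by omega) n hn h
        have h3 := S.hw0 n hn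
        rw [Real.norm_of_nonneg h3.le]
        have h4 : ‖D' n‖ ≤ C := by simpa using hC n
        calc ‖D' n‖ * w n ≤ C * (δ / (C + 1)) := mul_le_mul h4 h2 h3.le hC0
          _ ≤ δ := by
              rw [mul_div_assoc', div_le_iff₀ (by positivity)]
              nlinarith
      · simp
    have hib : Bdd (ind (N * p ^ b) (y b)) := ⟨1, ind_norm _ _⟩
    have e : (fun n => ((δ * (if N * p ^ b ∣ n + y b then (1 : ℝ) else 0) : ℝ) : ℂ))
        = fun n => (δ : ℂ) * ind (N * p ^ b) (y b) n := by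
      ext n
      unfold ind
      split_ifs <;> simp
    have h2 := m_norm_mono hbd (hg.mul hib) (by rw [e]; exact hib.cmul _)
    rw [e, m_cmul _ hib, m_periodic hQ (fun n => ind_per _ _ n)] at h2
    -- the sum is at most 1
    have hsum : ‖∑ i ∈ Finset.range (N * p ^ b), ind (N * p ^ b) (y b) i‖ ≤ 1 := by
      have hle1 : ((Finset.range (N * p ^ b)).filter (fun i => N * p ^ b ∣ i + y b)).card ≤ 1 := by
        rw [Finset.card_le_one]
        intro i hi j hj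
        rw [Finset.mem_filter, Finset.mem_range] at hi hj
        have h3 : i + y b ≡ j + y b [MOD N * p ^ b] :=
          (Nat.modEq_zero_iff_dvd.2 hi.2).trans (Nat.modEq_zero_iff_dvd.2 hj.2).symm
        have h4 : i ≡ j [MOD N * p ^ b] := Nat.ModEq.add_right_cancel' (y b) h3
        rwa [Nat.ModEq, Nat.mod_eq_of_lt hi.1, Nat.mod_eq_of_lt hj.1] at h4
      have : ∑ i ∈ Finset.range (N * p ^ b), ind (N * p ^ b) (y b) i
          = (((Finset.range (N * p ^ b)).filter (fun i => N * p ^ b ∣ i + y b)).card : ℂ) := by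
        unfold ind
        rw [Finset.sum_ite, Finset.sum_const_zero, add_zero]
        simp
      rw [this, Complex.norm_natCast]
      exact_mod_cast hle1
    have hpb : 0 < ((p : ℝ) ^ b) := by positivity
    have hN1 : (1 : ℝ) ≤ N := by exact_mod_cast S.hN
    rw [norm_mul, norm_pow, Complex.norm_natCast]
    have h3 : ‖(δ : ℂ) * ((∑ i ∈ Finset.range (N * p ^ b), ind (N * p ^ b) (y b) i)
        / ((N * p ^ b : ℕ) : ℂ))‖ ≤ δ / (N * (p : ℝ) ^ b) := by
      rw [norm_mul, norm_div, Complex.norm_real, Real.norm_of_nonneg hδ.le, Complex.norm_natCast]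
      push_cast
      rw [mul_div_assoc']
      exact div_le_div_of_nonneg_right (mul_le_of_le_one_right hδ.le hsum) (by positivity)
    calc (p : ℝ) ^ b * _ ≤ (p : ℝ) ^ b * (δ / (N * (p : ℝ) ^ b)) :=
          mul_le_mul_of_nonneg_left (h2.trans h3) hpb.le
      _ = δ / N := by field_simp
      _ ≤ δ := div_le_self hδ.le hN1
  -- m(g ind) = 0 at b0
  have hm0 : m (fun n => (D' n : ℂ) * w n * ind (N * p ^ b0) (y b0) n) = 0 := by
    have : (p : ℂ) ^ b0 ≠ 0 := pow_ne_zero _ (by exact_mod_cast hp.ne_zero)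
    exact (mul_eq_zero.1 hA0).resolve_left this
  have hP : 0 < N * p ^ b0 := Nat.mul_pos S.hN (pow_pos hp.pos _)
  rw [S.m_g hP (fun n => ind_per _ _ n)] at hm0
  -- y b ≡ y 0 mod N
  have hyN : ∀ b, y b ≡ y 0 [MOD N] := by
    intro b
    induction b with
    | zero => rfl
    | succ b ih => exact ((hy b).of_mul_right _).trans ih
  -- rou is constant on the class
  have hrouc : ∀ n, N ∣ n + y 0 → rou N T c n = rou N T c n1 := by
    intro n hn
    apply rou_congr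
    have h3 : n + y 0 ≡ n1 + y 0 [MOD N] :=
      (Nat.modEq_zero_iff_dvd.2 hn).trans (Nat.modEq_zero_iff_dvd.2 hn1).symm
    exact Nat.ModEq.add_right_cancel' _ h3
  have e1 : (fun n => rou N T c n * ((w n : ℂ) * ind (N * p ^ b0) (y b0) n))
      = fun n => rou N T c n1 * ((w n : ℂ) * ind (N * p ^ b0) (y b0) n) := by
    ext n
    unfold ind
    split_ifs with h
    · have h1 : N ∣ n + y b0 := (dvd_mul_right _ _).trans h
      have h2 : N ∣ n + y 0 := by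
        rw [← Nat.modEq_zero_iff_dvd] at h1 ⊢
        exact ((hyN b0).symm.add_left n).trans h1
      rw [hrouc n h2]
    · simp
  have hib0 : Bdd (ind (N * p ^ b0) (y b0)) := ⟨1, ind_norm _ _⟩
  rw [e1, m_cmul _ (S.bddw.mul hib0)] at hm0
  have hrou0 : rou N T c n1 = 0 := (mul_eq_zero.1 hm0).resolve_right (S.m_w_ind_ne hP _)
  -- claim A
  refine tr_zero_of_m S.hN S.hT S.hD0 S.hD (y := y 0) ?_ hn1
  have hiN : ∀ n, ind N (y 0) (n + N) = ind N (y 0) n := fun n => ind_per _ _ n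
  have hiNb : Bdd (ind N (y 0)) := ⟨1, ind_norm _ _⟩
  have hu := bdd_tr (c := c) S.hT
  have e2 : m (fun n => (D' n : ℂ) * (if N ∣ n + y 0 then (1 : ℂ) else 0))
      = m (fun n => tr T c n * ind N (y 0) n) := by
    refine m_congr (S.bddD.mul hiNb) (hu.mul hiNb) ?_
    refine squeeze_zero_norm (a := fun n => ‖(D' n : ℂ) - tr T c n‖) (fun n => ?_) ?_
    · have : (D' n : ℂ) * (if N ∣ n + y 0 then (1 : ℂ) else 0) - tr T c n * ind N (y 0) n
          = ((D' n : ℂ) - tr T c n) * ind N (y 0) n := by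
        unfold ind; ring
      rw [this, norm_mul]
      exact mul_le_of_le_one_right (norm_nonneg _) (ind_norm _ _ _)
    · simpa using S.hD.norm
  rw [e2, m_tr_periodic (N := N) S.hT S.hrou S.hN hiN]
  have e3 : (fun n => rou N T c n * ind N (y 0) n) = fun _ => 0 := by
    ext n
    unfold ind
    split_ifs with h
    · rw [hrouc n h, hrou0, zero_mul]
    · simp
  rw [e3, m_const]

end Pool.Agent.V11319.FAD
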