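import Pool.Agent.V11319.FAD.Fac

/-! Growth rate and packaging of the Fourier-Bohr argument. -/

set_option autoImplicit false

open Filter Topology

namespace Pool.Agent.V11319.FAD

variable {N : ℕ} {T : Finset ℂ} {c : ℂ → ℂ} {D' w : ℕ → ℝ}

lemma Sys.tr_zero_of_class (S : Sys N T c D' w) {y : ℕ}
    (hm : m (fun n => (D' n : ℂ) * w n * ind N y n) = 0) {n1 : ℕ} (hn1 : N ∣ n1 + y) :
    tr T c n1 = 0 := by
  rw [S.m_g S.hN (fun n => ind_per _ _ n)] at hm
  have hrouc : ∀ n, N ∣ n + y → rou N T c n = rou N T c n1 := by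
    intro n hn
    apply rou_congr
    have h3 : n + y ≡ n1 + y [MOD N] :=
      (Nat.modEq_zero_iff_dvd.2 hn).trans (Nat.modEq_zero_iff_dvd.2 hn1).symm
    exact Nat.ModEq.add_right_cancel' _ h3
  have e1 : (fun n => rou N T c n * ((w n : ℂ) * ind N y n))
      = fun n => rou N T c n1 * ((w n : ℂ) * ind N y n) := by
    ext n
    unfold ind
    split_ifs with h
    · rw [hrouc n h]
    · simp
  have hib0 : Bdd (ind N y) := ⟨1, ind_norm _ _⟩
  rw [e1, m_cmul _ (S.bddw.mul hib0)] at hm
  have hrou0 : rou N T c n1 = 0 := (mul_eq_zero.1 hm).resolve_right (S.m_w_ind_ne S.hN _)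
  refine tr_zero_of_m S.hN S.hT S.hD0 S.hD (y := y) ?_ hn1
  have hiN : ∀ n, ind N y (n + N) = ind N y n := fun n => ind_per _ _ n
  have hiNb : Bdd (ind N y) := ⟨1, ind_norm _ _⟩
  have hu := bdd_tr (c := c) S.hT
  have e2 : m (fun n => (D' n : ℂ) * (if N ∣ n + y then (1 : ℂ) else 0))
      = m (fun n => tr T c n * ind N y n) := by
    refine m_congr (S.bddD.mul hiNb) (hu.mul hiNb) ?_
    refine squeeze_zero_norm (a := fun n => ‖(D' n : ℂ) - tr T c n‖) (fun n => ?_) ?_
    · have : (D' n : ℂ) * (if N ∣ n + y then (1 : ℂ) else 0) - tr T c n * ind N y n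
          = ((D' n : ℂ) - tr T c n) * ind N y n := by
        unfold ind; ring
      rw [this, norm_mul]
      exact mul_le_of_le_one_right (norm_nonneg _) (ind_norm _ _ _)
    · simpa using S.hD.norm
  rw [e2, m_tr_periodic (N := N) S.hT S.hrou S.hN hiN]
  have e3 : (fun n => rou N T c n * ind N y n) = fun _ => 0 := by
    ext n
    unfold ind
    split_ifs with h
    · rw [hrouc n h, hrou0, zero_mul]
    · simp
  rw [e3, m_const]

lemma Sys.freq (S : Sys N T c D' w) {n1 : ℕ} (h1 : tr T c n1 ≠ 0) :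
    ∃ δ > 0, ∃ᶠ n in atTop, δ ≤ D' n * w n := by
  by_contra hcon
  push Not at hcon
  apply h1
  have hle : n1 ≤ N * n1 := Nat.le_mul_of_pos_left n1 S.hN
  refine S.tr_zero_of_class (y := N * n1 - n1) ?_ (by
    rw [Nat.add_sub_cancel' hle]; exact dvd_mul_right _ _)
  apply m_null
  rw [Metric.tendsto_atTop]
  intro ε hε
  have h2 := hcon ε hε
  have h3 : ∀ᶠ n in atTop, 1 ≤ n := eventually_ge_atTop 1
  obtain ⟨n0, hn0⟩ := Filter.eventually_atTop.1 (h2.and h3)
  refine ⟨n0, fun n hn => ?_⟩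
  obtain ⟨h4, h5⟩ := hn0 n hn
  rw [dist_zero_right, norm_mul, norm_mul, Complex.norm_real, Complex.norm_real,
    Real.norm_of_nonneg (S.hD0 n), Real.norm_of_nonneg (S.hw0 n h5).le]
  have h6 := mul_nonneg (S.hD0 n) (S.hw0 n h5).le
  calc D' n * w n * ‖ind N (N * n1 - n1) n‖ ≤ D' n * w n * 1 :=
        mul_le_mul_of_nonneg_left (ind_norm _ _ _) h6
    _ = D' n * w n := mul_one _
    _ < ε := h4

/-- the growth rate -/
lemma growth {a : ℕ → ℕ} {G C δ : ℝ} (hG : 0 < G) (hC : ∀ n, 1 ≤ n → (a n : ℝ) ≤ C * G ^ n)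
    (hδ : 0 < δ) (hfreq : ∃ᶠ n in atTop, δ * G ^ n ≤ (a n : ℝ)) :
    Real.exp (limsup (fun n : ℕ => Real.log (a n) / n) atTop) = G := by
  have hC0 : 0 < C := by
    obtain ⟨n, hn1, hn⟩ := (Filter.frequently_atTop.1 hfreq) 1
    have h1 := hC n hn1
    have h2 : 0 < δ * G ^ n := by positivity
    have h3 : 0 < C * G ^ n := by linarith
    exact pos_of_mul_pos_left h3 (by positivity)
  have hG1 : 1 ≤ G := by
    by_contra hlt
    push Not at hlt
    have ht := (tendsto_pow_atTop_nhds_zero_of_lt_one hG.le hlt).const_mul C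
    rw [mul_zero] at ht
    have hev := ht.eventually (gt_mem_nhds one_pos)
    obtain ⟨n, hn, hn1, hn2⟩ := (hfreq.and_eventually ((eventually_ge_atTop 1).and hev)).exists
    have h1 := hC n hn1
    have h2 : (a n : ℝ) < 1 := lt_of_le_of_lt h1 hn2
    have h3 : a n = 0 := by
      have : a n < 1 := by exact_mod_cast h2
      omega
    rw [h3, Nat.cast_zero] at hn
    have : 0 < δ * G ^ n := by positivity
    linarith
  have hlogG : 0 ≤ Real.log G := Real.log_nonneg hG1
  have hup : ∀ ε > 0, ∀ᶠ n : ℕ in atTop, Real.log (a n) / n ≤ Real.log G + ε := by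
    intro ε hε
    have h1 : Tendsto (fun n : ℕ => |Real.log C| / n) atTop (𝓝 0) :=
      tendsto_const_div_atTop_nhds_zero_nat _
    filter_upwards [h1.eventually (gt_mem_nhds hε), eventually_ge_atTop 1] with n hn hn1
    have hn0 : (0 : ℝ) < n := by exact_mod_cast hn1
    rcases Nat.eq_zero_or_pos (a n) with h | h
    · rw [h]
      simp only [Nat.cast_zero, Real.log_zero, zero_div]
      linarith
    · have h2 : Real.log (a n) ≤ Real.log C + n * Real.log G := by
        have h3 : (0 : ℝ) < a n := by exact_mod_cast h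
        have h4 := Real.log_le_log h3 (hC n hn1)
        rwa [Real.log_mul hC0.ne' (by positivity), Real.log_pow] at h4
      rw [div_le_iff₀ hn0]
      rw [div_lt_iff₀ hn0] at hn
      have := le_abs_self (Real.log C)
      nlinarith
  have hlow : ∀ ε > 0, ∃ᶠ n : ℕ in atTop, Real.log G - ε ≤ Real.log (a n) / n := by
    intro ε hε
    have h1 : Tendsto (fun n : ℕ => |Real.log δ| / n) atTop (𝓝 0) :=
      tendsto_const_div_atTop_nhds_zero_nat _
    refine (hfreq.and_eventually ((h1.eventually (gt_mem_nhds hε)).and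
      (eventually_ge_atTop 1))).mono ?_
    rintro n ⟨hn, hn2, hn1⟩
    have hn0 : (0 : ℝ) < n := by exact_mod_cast hn1
    have h4 := Real.log_le_log (by positivity) hn
    rw [Real.log_mul hδ.ne' (by positivity), Real.log_pow] at h4
    rw [le_div_iff₀ hn0]
    rw [div_lt_iff₀ hn0] at hn2
    have := neg_abs_le (Real.log δ)
    nlinarith
  have hbdd : IsBoundedUnder (· ≤ ·) atTop (fun n : ℕ => Real.log (a n) / n) :=
    ⟨Real.log G + 1, by
      rw [Filter.eventually_map]
      exact hup 1 one_pos⟩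
  have hcob : IsCoboundedUnder (· ≤ ·) atTop (fun n : ℕ => Real.log (a n) / n) :=
    IsCoboundedUnder.of_frequently_ge (hlow 1 one_pos)
  have hlim : limsup (fun n : ℕ => Real.log (a n) / n) atTop = Real.log G := by
    apply le_antisymm
    · refine le_of_forall_pos_le_add (fun ε hε => ?_)
      exact limsup_le_of_le hcob (hup ε hε)
    · refine le_of_forall_pos_le_add (fun ε hε => ?_)
      have := le_limsup_of_frequently_le (hlow ε hε) hbdd
      linarith
  rw [hlim, Real.exp_log hG]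

end Pool.Agent.V11319.FAD
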