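import Mathlib

/-! FAD-systems: definitions. -/

set_option autoImplicit false

open Filter Topology

namespace Pool.Agent.V11319.FAD

/-- the number `f_n` of fixed points of `f^n` -/
noncomputable def fixCount {X : Type*} (f : X → X) (n : ℕ) : ℕ := Set.ncard {x | f^[n] x = x}

/-- a gcd sequence of period `N` -/
def IsGcdSeq (a : ℕ → ℝ) (N : ℕ) : Prop := 1 ≤ N ∧ ∀ n, 1 ≤ n → a n = a (Nat.gcd n N)

/-- the normalised `p`-adic absolute value of `n`, as a real number -/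
noncomputable def pabs (p n : ℕ) : ℝ := (padicNorm p n : ℚ)

/-- the data of a FAD-system -/
structure FADData where
  d : ℕ
  A : Matrix (Fin d) (Fin d) ℤ
  S : Finset ℕ
  c : ℝ
  r : ℕ → ℝ
  s : ℕ → ℕ → ℝ
  t : ℕ → ℕ → ℝ
  prime : ∀ p ∈ S, p.Prime
  c_pos : 0 < c
  r_pos : ∀ n, 1 ≤ n → 0 < r n
  r_gcd : ∃ N, IsGcdSeq r N
  s_nonneg : ∀ p ∈ S, ∀ n, 1 ≤ n → 0 ≤ s p n
  t_nonneg : ∀ p ∈ S, ∀ n, 1 ≤ n → 0 ≤ t p n
  s_gcd : ∀ p ∈ S, ∃ N, IsGcdSeq (s p) N ∧ Nat.Coprime N p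
  t_gcd : ∀ p ∈ S, ∃ N, IsGcdSeq (t p) N ∧ Nat.Coprime N p

/-- `|det(A^n-1)| c^n r_n ∏_{p ∈ S} |n|_p^{s_{p,n}} p^{-t_{p,n} |n|_p^{-1}}` -/
noncomputable def FADData.val (F : FADData) (n : ℕ) : ℝ :=
  |((F.A ^ n - 1).det : ℝ)| * F.c ^ n * F.r n *
    ∏ p ∈ F.S, (pabs p n ^ (F.s p n) * (p : ℝ) ^ (-(F.t p n) * (pabs p n)⁻¹))

/-- `(X,f)` is a FAD-system -/
def IsFAD {X : Type*} (f : X → X) : Prop :=
  (∀ n, 1 ≤ n → {x | f^[n] x = x}.Finite) ∧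
    ∃ F : FADData, ∀ n, 1 ≤ n → (fixCount f n : ℝ) = F.val n

/-- the Artin-Mazur zeta function `exp (∑_{n ≥ 1} f_n z^n / n)` (the term `n = 0` vanishes since
`x / 0 = 0` in Lean). -/
noncomputable def zeta {X : Type*} (f : X → X) (z : ℂ) : ℂ :=
  Complex.exp (∑' n : ℕ, (fixCount f n : ℂ) / n * z ^ n)

/-- some power `ζ_f^k`, `k ≥ 1`, is a rational function -/
def RootRational {X : Type*} (f : X → X) : Prop :=
  ∃ k : ℕ, 1 ≤ k ∧ ∃ P Q : Polynomial ℂ, Q ≠ 0 ∧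
    ∀ᶠ z in 𝓝 (0 : ℂ), zeta f z ^ k * Q.eval z = P.eval z

/-- `Λ = exp (limsup (log f_n) / n)` -/
noncomputable def Lam {X : Type*} (f : X → X) : ℝ :=
  Real.exp (limsup (fun n : ℕ => Real.log (fixCount f n) / n) atTop)

/-- natural boundary along `|z| = 1/Λ`: no analytic function `g` on an open set `V` meeting the
circle agrees with `ζ_f` on the part of a disc around a point of `V` on the circle that lies in
the disc `|z| < 1/Λ`. -/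
def NaturalBoundary {X : Type*} (f : X → X) : Prop :=
  ∀ z0 : ℂ, ‖z0‖ = 1 / Lam f → ∀ δ > 0, ¬ ∃ g : ℂ → ℂ,
    AnalyticOnNhd ℂ g (Metric.ball z0 δ) ∧
      ∀ z ∈ Metric.ball z0 δ, ‖z‖ < 1 / Lam f → g z = zeta f z

end Pool.Agent.V11319.FAD
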