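import Pool.Agent.V11319.FAD.Trig
import Pool.Agent.W715.VC.TrPow

/-! `det (A ^ n - 1)` for an integer matrix. -/

set_option autoImplicit false

open Filter Topology Polynomial

namespace Pool.Agent.V11319.FAD

variable {d : ℕ} (A : Matrix (Fin d) (Fin d) ℤ)

def DD (n : ℕ) : ℤ := (A ^ n - 1).det

noncomputable def BC : Matrix (Fin d) (Fin d) ℂ := (Int.castRingHom ℂ).mapMatrix A

noncomputable def GG (p : ℂ[X]) : ℂ := (aeval (BC A) p).det

noncomputable def GH : ℂ[X] →* ℂ :=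
  Matrix.detMonoidHom.comp (aeval (BC A) : ℂ[X] →ₐ[ℂ] Matrix (Fin d) (Fin d) ℂ).toMonoidHom

lemma GH_apply (p : ℂ[X]) : GH A p = (aeval (BC A) p).det := rfl

lemma DD_cast (n : ℕ) : ((DD A n : ℤ) : ℂ) = GH A (X ^ n - 1) := by
  rw [GH_apply, DD]
  have h := RingHom.map_det (Int.castRingHom ℂ) (A ^ n - 1)
  rw [eq_intCast] at h
  rw [h, map_sub, map_pow, map_one]
  simp [BC]

noncomputable def RT : Multiset ℂ := (BC A).charpoly.roots

lemma DD_prod {n : ℕ} (hn : 1 ≤ n) : ((DD A n : ℤ) : ℂ) = ((RT A).map fun a => a ^ n - 1).prod := by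
  rw [DD_cast, GH_apply]
  have hm : (X ^ n - 1 : ℂ[X]).Monic := by
    have := monic_X_pow_sub_C (1 : ℂ) (by omega : n ≠ 0)
    rwa [C_1] at this
  rw [W715.VC.det_aeval _ hm]
  congr 1
  refine Multiset.map_congr rfl (fun a _ => ?_)
  simp

lemma DD_eq_zero_iff {n : ℕ} (hn : 1 ≤ n) : DD A n = 0 ↔ ∃ a ∈ RT A, a ^ n = 1 := by
  have h : DD A n = 0 ↔ ((DD A n : ℤ) : ℂ) = 0 := by norm_cast
  rw [h, DD_prod A hn, Multiset.prod_eq_zero_iff, Multiset.mem_map]
  constructor
  · rintro ⟨a, ha, h0⟩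
    exact ⟨a, ha, sub_eq_zero.1 h0⟩
  · rintro ⟨a, ha, h0⟩
    exact ⟨a, ha, by rw [h0, sub_self]⟩

lemma GH_conj (z : ℂ) : GH A (X - C ((starRingEnd ℂ) z)) = (starRingEnd ℂ) (GH A (X - C z)) := by
  rw [GH_apply, GH_apply, RingHom.map_det]
  congr 1
  ext i j
  simp only [map_sub, aeval_X, aeval_C, BC, RingHom.mapMatrix_apply, Matrix.map_apply,
    Matrix.sub_apply, Matrix.algebraMap_matrix_apply]
  simp only [eq_intCast, map_intCast]
  congr 1
  split_ifs <;> simp

lemma X_pow_prod {n : ℕ} (hn : 1 ≤ n) :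
    (X ^ n - 1 : ℂ[X]) = ∏ z ∈ nthRootsFinset n (1 : ℂ), (X - C z) :=
  X_pow_sub_one_eq_prod hn (Complex.isPrimitiveRoot_exp n (by omega))

lemma GH_split {n : ℕ} (hn : 1 ≤ n) : ∃ s : ℝ, 0 ≤ s ∧ GH A (X ^ n - 1)
    = (∏ z ∈ (nthRootsFinset n (1 : ℂ)).filter (fun z => z.im = 0), GH A (X - C z)) * (s : ℂ) := by
  classical
  set R := nthRootsFinset n (1 : ℂ) with hR
  refine ⟨Complex.normSq (∏ z ∈ R.filter (fun z => 0 < z.im), GH A (X - C z)),
    Complex.normSq_nonneg _, ?_⟩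
  rw [X_pow_prod hn, map_prod, ← Finset.prod_filter_mul_prod_filter_not R (fun z => z.im = 0)]
  congr 1
  rw [← Finset.prod_filter_mul_prod_filter_not (R.filter (fun z => ¬ z.im = 0))
    (fun z => 0 < z.im)]
  have h1 : (R.filter (fun z => ¬ z.im = 0)).filter (fun z => 0 < z.im)
      = R.filter (fun z => 0 < z.im) := by
    ext z
    simp only [Finset.mem_filter]
    constructor
    · rintro ⟨⟨a, _⟩, b⟩; exact ⟨a, b⟩
    · rintro ⟨a, b⟩; exact ⟨⟨a, b.ne'⟩, b⟩
  have h2 : ∏ z ∈ (R.filter (fun z => ¬ z.im = 0)).filter (fun z => ¬ 0 < z.im), GH A (X - C z)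
      = ∏ z ∈ R.filter (fun z => 0 < z.im), (starRingEnd ℂ) (GH A (X - C z)) := by
    have hmemR : ∀ z : ℂ, z ∈ R ↔ z ^ n = 1 := fun z => by
      rw [hR, mem_nthRootsFinset (by omega)]
    refine Finset.prod_nbij' (fun z => (starRingEnd ℂ) z) (fun z => (starRingEnd ℂ) z)
      ?_ ?_ ?_ ?_ ?_
    · intro z hz
      simp only [Finset.mem_filter, hmemR] at hz ⊢
      refine ⟨by rw [← map_pow, hz.1.1, map_one], ?_⟩
      rw [Complex.conj_im]
      have := lt_of_le_of_ne (not_lt.1 hz.2) hz.1.2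
      linarith
    · intro z hz
      simp only [Finset.mem_filter, hmemR] at hz ⊢
      refine ⟨⟨by rw [← map_pow, hz.1, map_one], ?_⟩, ?_⟩
      · rw [Complex.conj_im]; linarith [hz.2]
      · rw [Complex.conj_im]; linarith [hz.2]
    · intro z _; exact Complex.conj_conj z
    · intro z _; exact Complex.conj_conj z
    · intro z _
      rw [GH_conj, Complex.conj_conj]
  rw [h1, h2, ← map_prod (starRingEnd ℂ), Complex.mul_conj]

lemma im_zero_roots {n : ℕ} (hn : 1 ≤ n) {z : ℂ} (hz : z ^ n = 1) (him : z.im = 0) :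
    z = 1 ∨ z = -1 := by
  have h1 : ‖z‖ = 1 := by
    have : ‖z‖ ^ n = 1 := by rw [← norm_pow, hz, norm_one]
    exact (pow_eq_one_iff_of_nonneg (norm_nonneg _) (by omega)).1 this
  have hzr : z = (z.re : ℂ) := Complex.ext rfl (by simpa using him)
  rw [hzr, Complex.norm_real, Real.norm_eq_abs, abs_eq (by norm_num)] at h1
  rcases h1 with h | h
  · left; rw [hzr, h]; simp
  · right; rw [hzr, h]; simp

lemma sign_odd {n : ℕ} (hn : Odd n) : ∃ s : ℝ, 0 ≤ s ∧ (DD A n : ℝ) = DD A 1 * s := by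
  classical
  have hn1 : 1 ≤ n := hn.pos
  obtain ⟨s, hs, h⟩ := GH_split A hn1
  refine ⟨s, hs, ?_⟩
  have hf : (nthRootsFinset n (1 : ℂ)).filter (fun z => z.im = 0) = {1} := by
    ext z
    simp only [Finset.mem_filter, mem_nthRootsFinset (show 0 < n by omega), Finset.mem_singleton]
    constructor
    · rintro ⟨hz, him⟩
      rcases im_zero_roots hn1 hz him with h | h
      · exact h
      · rw [h, hn.neg_one_pow] at hz
        norm_num at hz
    · rintro rfl
      simp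
  rw [hf, Finset.prod_singleton] at h
  have h1 := DD_cast A n
  have h2 := DD_cast A 1
  rw [pow_one] at h2
  rw [h, C_1, ← h2] at h1
  exact_mod_cast h1

lemma sign_even {n : ℕ} (hn1 : 1 ≤ n) (hn : Even n) :
    ∃ s : ℝ, 0 ≤ s ∧ (DD A n : ℝ) = DD A 2 * s := by
  classical
  obtain ⟨s, hs, h⟩ := GH_split A hn1
  refine ⟨s, hs, ?_⟩
  have hf : (nthRootsFinset n (1 : ℂ)).filter (fun z => z.im = 0) = {1, -1} := by
    ext z
    simp only [Finset.mem_filter, mem_nthRootsFinset (show 0 < n by omega), Finset.mem_insert,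
      Finset.mem_singleton]
    constructor
    · rintro ⟨hz, him⟩
      exact im_zero_roots hn1 hz him
    · rintro (rfl | rfl)
      · simp
      · simp [hn.neg_one_pow]
  rw [hf, Finset.prod_pair (by norm_num : (1 : ℂ) ≠ -1), ← map_mul] at h
  have e : (X - C (1 : ℂ)) * (X - C (-1 : ℂ)) = X ^ 2 - 1 := by
    simp only [map_neg, C_1]; ring
  have h1 := DD_cast A n
  have h2 := DD_cast A 2
  rw [h, e, ← h2] at h1
  exact_mod_cast h1

/-- the sign pattern of `det (A^n - 1)` -/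
lemma abs_DD : ∃ e1 e2 : ℤ, (e1 = 1 ∨ e1 = -1) ∧ (e2 = 1 ∨ e2 = -1) ∧
    (∀ n, Odd n → |DD A n| = e1 * DD A n) ∧ (∀ n, 1 ≤ n → Even n → |DD A n| = e2 * DD A n) := by
  have aux : ∀ x : ℤ, ∃ e : ℤ, (e = 1 ∨ e = -1) ∧ ∀ y : ℤ, (∃ s : ℝ, 0 ≤ s ∧ (y : ℝ) = x * s) →
      |y| = e * y := by
    intro x
    rcases le_total 0 x with hx | hx
    · refine ⟨1, Or.inl rfl, fun y ⟨s, hs, hy⟩ => ?_⟩
      have hx' : (0 : ℝ) ≤ x := by exact_mod_cast hx
      have : (0 : ℝ) ≤ y := by rw [hy]; exact mul_nonneg hx' hs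
      have hy0 : 0 ≤ y := by exact_mod_cast this
      rw [abs_of_nonneg hy0, one_mul]
    · refine ⟨-1, Or.inr rfl, fun y ⟨s, hs, hy⟩ => ?_⟩
      have hx' : (x : ℝ) ≤ 0 := by exact_mod_cast hx
      have : (y : ℝ) ≤ 0 := by rw [hy]; exact mul_nonpos_of_nonpos_of_nonneg hx' hs
      have hy0 : y ≤ 0 := by exact_mod_cast this
      rw [abs_of_nonpos hy0]; ring
  obtain ⟨e1, h1, h1'⟩ := aux (DD A 1)
  obtain ⟨e2, h2, h2'⟩ := aux (DD A 2)
  exact ⟨e1, e2, h1, h2, fun n hn => h1' _ (sign_odd A hn),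
    fun n hn1 hn => h2' _ (sign_even A hn1 hn)⟩

noncomputable def LL : ℝ := ((RT A).map fun a => max 1 ‖a‖).prod

lemma one_le_LL : 1 ≤ LL A := by
  unfold LL
  induction RT A using Multiset.induction_on with
  | empty => simp
  | cons a s ih =>
    rw [Multiset.map_cons, Multiset.prod_cons]
    exact one_le_mul_of_one_le_of_one_le (le_max_left _ _) ih

lemma bdd_TA {u : ℕ → ℂ} (hu : u ∈ TA) : Bdd u := by
  obtain ⟨T, c, hT, h⟩ := TA_rep hu
  have := bdd_tr (c := c) hT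
  refine Eq.mp ?_ this
  congr 1
  ext n
  exact (h n).symm

lemma trig_single (a : ℂ) : ∃ u ∈ TA,
    Tendsto (fun n => (a ^ n - 1) / ((max 1 ‖a‖ : ℝ) : ℂ) ^ n - u n) atTop (𝓝 0) ∧
    ∀ n, 1 ≤ n → a ^ n ≠ 1 → u n ≠ 0 := by
  rcases lt_trichotomy ‖a‖ 1 with h | h | h
  · refine ⟨fun _ => -1, ?_, ?_, fun n _ _ => by norm_num⟩
    · have := (TA.neg_mem (TA.one_mem))
      exact this
    · rw [max_eq_left h.le]
      have := tendsto_pow_atTop_nhds_zero_of_norm_lt_one h
      refine this.congr (fun n => ?_)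
      simp
  · refine ⟨fun n => a ^ n - 1, TA.sub_mem (TA_char h) TA.one_mem, ?_, fun n _ hn =>
      sub_ne_zero.2 hn⟩
    rw [h, max_self]
    refine tendsto_const_nhds.congr (fun n => ?_)
    simp
  · have ha0 : (‖a‖ : ℂ) ≠ 0 := by
      have : ‖a‖ ≠ 0 := by linarith
      exact_mod_cast this
    have hn1 : ‖a / (‖a‖ : ℂ)‖ = 1 := by
      rw [norm_div, Complex.norm_real, norm_norm]
      exact div_self (by linarith)
    refine ⟨fun n => (a / (‖a‖ : ℂ)) ^ n, TA_char hn1, ?_, fun n _ _ => ?_⟩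
    · rw [max_eq_right h.le]
      have hlt : ‖((‖a‖ : ℂ))⁻¹‖ < 1 := by
        rw [norm_inv, Complex.norm_real, norm_norm]
        exact inv_lt_one_of_one_lt₀ h
      have := (tendsto_pow_atTop_nhds_zero_of_norm_lt_one hlt).neg
      rw [neg_zero] at this
      refine this.congr (fun n => ?_)
      simp only
      rw [div_pow, inv_pow, sub_div]
      simp
    · refine pow_ne_zero _ ?_
      intro h0
      rw [h0, norm_zero] at hn1
      norm_num at hn1

lemma trig_rep (s : Multiset ℂ) : ∃ u ∈ TA,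
    Tendsto (fun n => (s.map fun a => a ^ n - 1).prod
      / (((s.map fun a => max 1 ‖a‖).prod : ℝ) : ℂ) ^ n - u n) atTop (𝓝 0) ∧
    ∀ n, 1 ≤ n → (∀ a ∈ s, a ^ n ≠ 1) → u n ≠ 0 := by
  induction s using Multiset.induction_on with
  | empty =>
    refine ⟨1, TA.one_mem, ?_, fun n _ _ => by simp⟩
    refine tendsto_const_nhds.congr (fun n => ?_)
    simp
  | cons a s ih =>
    obtain ⟨u, hu, h1, h2⟩ := ih
    obtain ⟨v, hv, h3, h4⟩ := trig_single a
    refine ⟨v * u, TA.mul_mem hv hu, ?_, fun n hn h => ?_⟩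
    · set q : ℕ → ℂ := fun n => (a ^ n - 1) / ((max 1 ‖a‖ : ℝ) : ℂ) ^ n with hq
      set q' : ℕ → ℂ := fun n => (s.map fun a => a ^ n - 1).prod
        / (((s.map fun a => max 1 ‖a‖).prod : ℝ) : ℂ) ^ n with hq'
      have e : (fun n => ((a ::ₘ s).map fun a => a ^ n - 1).prod
          / ((((a ::ₘ s).map fun a => max 1 ‖a‖).prod : ℝ) : ℂ) ^ n - (v * u) n)
          = fun n => (q n - v n) * (q' n - u n) + (q n - v n) * u n + v n * (q' n - u n) := by
        ext n
        simp only [Multiset.map_cons, Multiset.prod_cons, Pi.mul_apply, hq, hq']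
        push_cast
        rw [mul_pow]
        rw [mul_div_mul_comm]
        ring
      rw [e]
      have t1 : Tendsto (fun n => (q n - v n) * (q' n - u n)) atTop (𝓝 0) := by
        simpa using h3.mul h1
      have hz : ∀ (x y : ℕ → ℂ), Tendsto x atTop (𝓝 0) → Bdd y →
          Tendsto (fun n => x n * y n) atTop (𝓝 0) := by
        intro x y hx ⟨C, hC⟩
        refine squeeze_zero_norm (a := fun n => ‖x n‖ * C) (fun n => ?_) ?_
        · rw [norm_mul]
          exact mul_le_mul_of_nonneg_left (hC n) (norm_nonneg _)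
        · simpa using hx.norm.mul_const C
      have t2 := hz _ _ h3 (bdd_TA hu)
      have t3 := hz _ _ h1 (bdd_TA hv)
      have t3' : Tendsto (fun n => v n * (q' n - u n)) atTop (𝓝 0) := by
        refine t3.congr (fun n => by ring)
      simpa using (t1.add t2).add t3'
    · rw [Pi.mul_apply]
      exact mul_ne_zero (h4 n hn (h a (Multiset.mem_cons_self _ _)))
        (h2 n hn (fun b hb => h b (Multiset.mem_cons_of_mem hb)))

/-- the normalised absolute value of `det (A^n-1)` is a trigonometric polynomial up to `o(1)` -/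
lemma DD_trig : ∃ u ∈ TA,
    Tendsto (fun n => ((|(DD A n : ℝ)| / LL A ^ n : ℝ) : ℂ) - u n) atTop (𝓝 0) ∧
    ∀ n, 1 ≤ n → DD A n ≠ 0 → u n ≠ 0 := by
  obtain ⟨u, hu, h1, h2⟩ := trig_rep (RT A)
  obtain ⟨e1, e2, he1, he2, ho, he⟩ := abs_DD A
  set e : ℕ → ℂ := fun n => ((e1 : ℂ) + e2) / 2 + ((e2 : ℂ) - e1) / 2 * (-1) ^ n with hee
  have heTA : e ∈ TA := by
    refine TA.add_mem ?_ ?_
    · have := TA.algebraMap_mem (((e1 : ℂ) + e2) / 2)
      exact this
    · have h := TA.smul_mem (TA_char (μ := -1) (by simp)) (((e2 : ℂ) - e1) / 2)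
      exact h
  have hodd : ∀ n, Odd n → e n = e1 := by
    intro n hn
    simp only [hee, hn.neg_one_pow]
    ring
  have heven : ∀ n, Even n → e n = e2 := by
    intro n hn
    simp only [hee, hn.neg_one_pow]
    ring
  have hne : ∀ n, e n ≠ 0 := by
    intro n
    rcases Nat.even_or_odd n with h | h
    · rw [heven n h]
      rcases he2 with h | h <;> rw [h] <;> norm_num
    · rw [hodd n h]
      rcases he1 with h | h <;> rw [h] <;> norm_num
  have habs : ∀ n, 1 ≤ n → ((|DD A n| : ℤ) : ℂ) = e n * (DD A n : ℂ) := by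
    intro n hn
    rcases Nat.even_or_odd n with h | h
    · rw [heven n h, he n hn h]; push_cast; ring
    · rw [hodd n h, ho n h]; push_cast; ring
  refine ⟨e * u, TA.mul_mem heTA hu, ?_, fun n hn h => ?_⟩
  · obtain ⟨C, hC⟩ := bdd_TA heTA
    have h3 : Tendsto (fun n => e n * (((RT A).map fun a => a ^ n - 1).prod
      / ((LL A : ℝ) : ℂ) ^ n - u n)) atTop (𝓝 0) := by
      refine squeeze_zero_norm (a := fun n => C * ‖(((RT A).map fun a => a ^ n - 1).prod
        / ((LL A : ℝ) : ℂ) ^ n - u n)‖) (fun n => ?_) ?_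
      · rw [norm_mul]
        exact mul_le_mul_of_nonneg_right (hC n) (norm_nonneg _)
      · have := (h1.norm).const_mul C
        simpa [LL] using this
    refine h3.congr' ?_
    filter_upwards [eventually_ge_atTop 1] with n hn
    rw [← DD_prod A hn, Pi.mul_apply, mul_sub]
    congr 1
    have h4 := habs n hn
    rw [← mul_div_assoc, ← h4, Complex.ofReal_div, Complex.ofReal_pow]
    congr 1
    rw [← Int.cast_abs, Complex.ofReal_intCast]
  · rw [Pi.mul_apply]
    refine mul_ne_zero (hne n) (h2 n hn (fun a ha h' => h ?_))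
    exact (DD_eq_zero_iff A hn).2 ⟨a, ha, h'⟩

end Pool.Agent.V11319.FAD
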