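import Pool.Agent.V11319.FAD.Defs
import Pool.Agent.V11319.FAD.Core2
import Pool.Agent.V11319.FAD.DetPow

/-! The `p`-adic factors. -/

set_option autoImplicit false

open Filter Topology

namespace Pool.Agent.V11319.FAD

noncomputable def psi (p : ℕ) (s t : ℝ) (v : ℕ) : ℝ :=
  (((p : ℝ) ^ v)⁻¹) ^ s * (p : ℝ) ^ (-t * (p : ℝ) ^ v)

noncomputable def fac (s t : ℕ → ℕ → ℝ) (p n : ℕ) : ℝ :=
  pabs p n ^ (s p n) * (p : ℝ) ^ (-(t p n) * (pabs p n)⁻¹)

lemma pabs_eq {p n : ℕ} (hp : p.Prime) (hn : 1 ≤ n) :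
    pabs p n = ((p : ℝ) ^ (n.factorization p))⁻¹ := by
  have : Fact p.Prime := ⟨hp⟩
  unfold pabs
  rw [padicNorm.eq_zpow_of_nonzero (by exact_mod_cast (by omega : n ≠ 0)),
    padicValRat.of_nat, Nat.factorization_def n hp, zpow_neg, zpow_natCast]
  push_cast
  rfl

lemma fac_eq {s t : ℕ → ℕ → ℝ} {p n : ℕ} (hp : p.Prime) (hn : 1 ≤ n) :
    fac s t p n = psi p (s p n) (t p n) (n.factorization p) := by
  unfold fac psi
  rw [pabs_eq hp hn, inv_inv]

lemma psi_zero (p v : ℕ) : psi p 0 0 v = 1 := by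
  unfold psi
  simp

lemma psi_pos {p : ℕ} (hp : p.Prime) (s t : ℝ) (v : ℕ) : 0 < psi p s t v := by
  have : (0 : ℝ) < p := by exact_mod_cast hp.pos
  unfold psi
  positivity

lemma psi_le {p : ℕ} (hp : p.Prime) {s t : ℝ} (hs : 0 ≤ s) (ht : 0 ≤ t) (v : ℕ) :
    psi p s t v ≤ 1 := by
  have hp1 : (1 : ℝ) ≤ p := by exact_mod_cast hp.one_le
  have hp0 : (0 : ℝ) < p := by exact_mod_cast hp.pos
  unfold psi
  refine mul_le_one₀ (Real.rpow_le_one (by positivity) ?_ hs) (by positivity)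
    (Real.rpow_le_one_of_one_le_of_nonpos hp1 ?_)
  · exact inv_le_one_of_one_le₀ (one_le_pow₀ hp1)
  · have : 0 ≤ t * (p : ℝ) ^ v := by positivity
    linarith

lemma psi_tendsto {p : ℕ} (hp : p.Prime) {s t : ℝ} (hs : 0 ≤ s) (ht : 0 ≤ t)
    (h : ¬ (s = 0 ∧ t = 0)) : Tendsto (psi p s t) atTop (𝓝 0) := by
  have hp1 : (1 : ℝ) < p := by exact_mod_cast hp.one_lt
  have hp0 : (0 : ℝ) < p := by linarith
  have hpow : Tendsto (fun v : ℕ => (p : ℝ) ^ v) atTop atTop :=
    tendsto_pow_atTop_atTop_of_one_lt hp1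
  by_cases hs0 : s = 0
  · have ht0 : 0 < t := lt_of_le_of_ne ht (fun h' => h ⟨hs0, h'.symm⟩)
    subst hs0
    have : Tendsto (fun v : ℕ => (p : ℝ) ^ (-t * (p : ℝ) ^ v)) atTop (𝓝 0) := by
      have h1 : Tendsto (fun x : ℝ => (p : ℝ) ^ (-x)) atTop (𝓝 0) := by
        have := tendsto_rpow_atBot_of_base_gt_one (p : ℝ) hp1
        exact this.comp tendsto_neg_atTop_atBot
      have h2 := h1.comp (hpow.const_mul_atTop ht0)
      refine h2.congr (fun v => ?_)
      simp only [Function.comp]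
      congr 1
      ring
    refine this.congr (fun v => ?_)
    unfold psi
    rw [Real.rpow_zero, one_mul]
  · have hs0 : 0 < s := lt_of_le_of_ne hs (fun h' => hs0 h'.symm)
    have h1 : Tendsto (fun v : ℕ => (((p : ℝ) ^ v)⁻¹) ^ s) atTop (𝓝 0) := by
      have h2 := (tendsto_rpow_neg_atTop hs0).comp hpow
      refine h2.congr (fun v => ?_)
      simp only [Function.comp]
      rw [Real.rpow_neg (by positivity), Real.inv_rpow (by positivity)]
    refine squeeze_zero (fun v => (psi_pos hp s t v).le) (fun v => ?_) h1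
    unfold psi
    refine mul_le_of_le_one_right (by positivity)
      (Real.rpow_le_one_of_one_le_of_nonpos hp1.le ?_)
    have : 0 ≤ t * (p : ℝ) ^ v := by positivity
    linarith

lemma gcdseq_gcd {a : ℕ → ℝ} {M K n : ℕ} (h : IsGcdSeq a M) (hMK : M ∣ K) (hn : 1 ≤ n) :
    a (Nat.gcd n K) = a n := by
  have h1 : 1 ≤ Nat.gcd n K := Nat.gcd_pos_of_pos_left _ hn
  rw [h.2 _ h1, h.2 n hn, Nat.gcd_assoc, Nat.gcd_eq_right hMK]

/-- good sequences -/
def Good (N : ℕ) (w : ℕ → ℝ) : Prop := (∃ C, 0 ≤ C ∧ ∀ n, 1 ≤ n → |w n| ≤ C) ∧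
  ∀ ε > 0, ∃ l0, ∀ l ≥ l0, ∀ n, 1 ≤ n → |w n - w (Nat.gcd n (N ^ l))| ≤ ε

lemma good_mul {N : ℕ} {w w' : ℕ → ℝ} (h : Good N w) (h' : Good N w') :
    Good N (fun n => w n * w' n) := by
  obtain ⟨⟨C, hC0, hC⟩, h1⟩ := h
  obtain ⟨⟨C', hC0', hC'⟩, h1'⟩ := h'
  refine ⟨⟨C * C', by positivity, fun n hn => ?_⟩, fun ε hε => ?_⟩
  · rw [abs_mul]
    exact mul_le_mul (hC n hn) (hC' n hn) (abs_nonneg _) hC0
  · obtain ⟨l0, hl0⟩ := h1 (ε / (2 * (C' + 1))) (by positivity)
    obtain ⟨l0', hl0'⟩ := h1' (ε / (2 * (C + 1))) (by positivity)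
    refine ⟨max l0 l0', fun l hl n hn => ?_⟩
    have e1 := hl0 l (le_trans (le_max_left _ _) hl) n hn
    have e2 := hl0' l (le_trans (le_max_right _ _) hl) n hn
    set g := Nat.gcd n (N ^ l)
    have hg : 1 ≤ g := Nat.gcd_pos_of_pos_left _ hn
    have e3 : w n * w' n - w g * w' g = (w n - w g) * w' n + w g * (w' n - w' g) := by ring
    rw [e3]
    calc |(w n - w g) * w' n + w g * (w' n - w' g)|
        ≤ |w n - w g| * |w' n| + |w g| * |w' n - w' g| := by
          rw [← abs_mul, ← abs_mul]; exact abs_add_le _ _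
      _ ≤ (ε / (2 * (C' + 1))) * C' + C * (ε / (2 * (C + 1))) :=
          add_le_add (mul_le_mul e1 (hC' n hn) (abs_nonneg _) (by positivity))
            (mul_le_mul (hC g hg) e2 (abs_nonneg _) hC0)
      _ ≤ ε / 2 + ε / 2 := by
          refine add_le_add ?_ ?_
          · rw [div_mul_eq_mul_div, div_le_div_iff₀ (by positivity) (by norm_num)]
            nlinarith
          · rw [mul_div_assoc', div_le_div_iff₀ (by positivity) (by norm_num)]
            nlinarith
      _ = ε := by ring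

lemma good_gcdseq {a : ℕ → ℝ} {M N : ℕ} (h : IsGcdSeq a M) (hMN : M ∣ N) (hN : 0 < N) :
    Good N a := by
  refine ⟨⟨∑ e ∈ M.divisors, |a e|, Finset.sum_nonneg (fun _ _ => abs_nonneg _), fun n hn => ?_⟩,
    fun ε hε => ⟨1, fun l hl n hn => ?_⟩⟩
  · rw [h.2 n hn]
    exact Finset.single_le_sum (f := fun e => |a e|) (fun _ _ => abs_nonneg _)
      (Nat.mem_divisors.2 ⟨Nat.gcd_dvd_right _ _, by have := h.1; omega⟩)
  · rw [gcdseq_gcd h (hMN.trans (dvd_pow_self N (by omega))) hn, sub_self, abs_zero]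
    exact hε.le

lemma good_prod {N : ℕ} {S : Finset ℕ} {w : ℕ → ℕ → ℝ} (h : ∀ p ∈ S, Good N (w p)) :
    Good N (fun n => ∏ p ∈ S, w p n) := by
  classical
  induction S using Finset.induction_on with
  | empty =>
    refine ⟨⟨1, by norm_num, fun n _ => by simp⟩, fun ε hε => ⟨0, fun l _ n _ => ?_⟩⟩
    simp [hε.le]
  | insert p S hp ih =>
    have := good_mul (h p (Finset.mem_insert_self _ _))
      (ih (fun q hq => h q (Finset.mem_insert_of_mem hq)))
    refine Eq.mp ?_ this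
    congr 1
    ext n
    rw [Finset.prod_insert hp]

lemma fact_gcd {n M p : ℕ} (hn : 1 ≤ n) (hM : 0 < M) :
    (Nat.gcd n M).factorization p = min (n.factorization p) (M.factorization p) := by
  rw [Nat.factorization_gcd (by omega) (by omega)]
  rfl

lemma good_fac {s t : ℕ → ℕ → ℝ} {p N Ms Mt : ℕ} (hp : p.Prime) (hN : 0 < N) (hpN : p ∣ N)
    (hs : IsGcdSeq (s p) Ms) (ht : IsGcdSeq (t p) Mt) (hMs : Ms ∣ N) (hMt : Mt ∣ N)
    (hs0 : ∀ n, 1 ≤ n → 0 ≤ s p n) (ht0 : ∀ n, 1 ≤ n → 0 ≤ t p n) : Good N (fac s t p) := by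
  refine ⟨⟨1, by norm_num, fun n hn => ?_⟩, fun ε hε => ?_⟩
  · rw [fac_eq hp hn, abs_of_pos (psi_pos hp _ _ _)]
    exact psi_le hp (hs0 n hn) (ht0 n hn) _
  · have hev : ∀ e ∈ N.divisors, ∀ᶠ v in atTop, (s p e = 0 ∧ t p e = 0) ∨
        psi p (s p e) (t p e) v ≤ ε := by
      intro e he
      have he1 : 1 ≤ e := Nat.pos_of_mem_divisors he
      by_cases h : s p e = 0 ∧ t p e = 0
      · exact Filter.Eventually.of_forall (fun v => Or.inl h)
      · have := psi_tendsto hp (hs0 e he1) (ht0 e he1) h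
        filter_upwards [this.eventually (gt_mem_nhds hε)] with v hv
        exact Or.inr hv.le
    have hev' : ∀ᶠ v in atTop, ∀ e ∈ N.divisors, (s p e = 0 ∧ t p e = 0) ∨
        psi p (s p e) (t p e) v ≤ ε := (Filter.eventually_all_finset _).2 hev
    obtain ⟨l0, hl0⟩ := Filter.eventually_atTop.1 hev'
    refine ⟨l0 + 1, fun l hl n hn => ?_⟩
    have hNl : 0 < N ^ l := pow_pos hN _
    have hg : 1 ≤ Nat.gcd n (N ^ l) := Nat.gcd_pos_of_pos_left _ hn
    have hNdvd : N ∣ N ^ l := dvd_pow_self N (by omega)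
    rw [fac_eq hp hn, fac_eq hp hg, gcdseq_gcd hs (hMs.trans hNdvd) hn,
      gcdseq_gcd ht (hMt.trans hNdvd) hn, fact_gcd hn hNl, Nat.factorization_pow]
    have ha : 1 ≤ N.factorization p := (hp.dvd_iff_one_le_factorization hN.ne').1 hpN
    simp only [Finsupp.smul_apply, smul_eq_mul]
    rcases le_total (n.factorization p) (l * N.factorization p) with h | h
    · rw [min_eq_left h, sub_self, abs_zero]
      exact hε.le
    · rw [min_eq_right h]
      have hv : l0 ≤ l * N.factorization p := by nlinarith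
      have he : Nat.gcd n N ∈ N.divisors :=
        Nat.mem_divisors.2 ⟨Nat.gcd_dvd_right _ _, hN.ne'⟩
      have h1 := hl0 _ hv _ he
      have h2 := hl0 _ (hv.trans h) _ he
      rw [gcdseq_gcd hs hMs hn, gcdseq_gcd ht hMt hn] at h1 h2
      rcases h1 with h1 | h1
      · rw [h1.1, h1.2, psi_zero, psi_zero, sub_self, abs_zero]
        exact hε.le
      · rcases h2 with h2 | h2
        · rw [h2.1, h2.2, psi_zero, psi_zero, sub_self, abs_zero]
          exact hε.le
        · rw [abs_le]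
          have p1 := psi_pos hp (s p n) (t p n) (l * N.factorization p)
          have p2 := psi_pos hp (s p n) (t p n) (n.factorization p)
          constructor <;> linarith

/-- the sequence of classes -/
lemma exists_y {p N x0 : ℕ} (hp : p.Prime) (hN : 0 < N)
    (hx : N.factorization p ≤ x0.factorization p) :
    ∃ y : ℕ → ℕ, N ∣ x0 + y 0 ∧ (∀ b, y (b + 1) ≡ y b [MOD N * p ^ b]) ∧ ∀ b, p ^ b ∣ y b := by
  set a := N.factorization p with ha
  set N' := N / p ^ a with hN'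
  have hdvd : p ^ a ∣ N := Nat.ordProj_dvd N p
  have hNN : N = p ^ a * N' := (Nat.mul_div_cancel' hdvd).symm
  have hcop : Nat.Coprime p N' := Nat.coprime_ordCompl hp hN.ne'
  have hxd : p ^ a ∣ x0 := (pow_dvd_pow p hx).trans (Nat.ordProj_dvd x0 p)
  obtain ⟨x1, hx1⟩ := hxd
  have hN'0 : 0 < N' := Nat.pos_of_mul_pos_left (hNN ▸ hN) |> fun h => by
    rcases Nat.eq_zero_or_pos N' with h0 | h0
    · rw [h0, mul_zero] at hNN; omega
    · exact h0
  have hφ : 1 ≤ Nat.totient N' := Nat.totient_pos.2 hN'0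
  refine ⟨fun b => (N - 1) * x0 * p ^ (Nat.totient N' * b), ?_, ?_, ?_⟩
  · simp only [mul_zero, pow_zero, mul_one]
    refine ⟨x0, ?_⟩
    have : N = (N - 1) + 1 := by omega
    conv_rhs => rw [this]
    ring
  · intro b
    obtain ⟨q, hq⟩ : ∃ q, Nat.totient N' = q + 1 := ⟨Nat.totient N' - 1, by omega⟩
    have e1 : (N - 1) * x0 * p ^ (Nat.totient N' * b)
        = (p ^ a * p ^ b) * ((N - 1) * x1 * p ^ (q * b)) := by
      rw [hx1, hq, add_mul, pow_add, one_mul]; ring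
    have e2 : (N - 1) * x0 * p ^ (Nat.totient N' * (b + 1))
        = (p ^ a * p ^ b) * ((N - 1) * x1 * p ^ (q * b) * p ^ Nat.totient N') := by
      rw [mul_add, mul_one, pow_add, ← mul_assoc ((N - 1) * x0), e1]; ring
    simp only
    rw [e1, e2]
    have h1 : p ^ Nat.totient N' ≡ 1 [MOD N'] := Nat.ModEq.pow_totient hcop
    have h2 := (h1.mul_left ((N - 1) * x1 * p ^ (q * b))).mul_left' (p ^ a * p ^ b)
    rw [mul_one] at h2
    have h3 : p ^ a * p ^ b * N' = N * p ^ b := by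
      conv_rhs => rw [hNN]
      ring
    rwa [h3] at h2
  · intro b
    refine Dvd.dvd.mul_left ?_ _
    exact pow_dvd_pow p (by nlinarith)

end Pool.Agent.V11319.FAD
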