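import Pool.Agent.V11319.FAD.Defs
import Pool.Agent.V11319.FAD.DetPow
import Pool.Agent.H374R2.V.ZD

/-! The quadratic residue argument: the constant `c` is rational. -/

set_option autoImplicit false

namespace Pool.Agent.V11319.FAD

lemma fix_modEq {X : Type*} (f : X → X) {l : ℕ} (hl : l.Prime)
    (hfin : {x | f^[l] x = x}.Finite) : fixCount f l ≡ fixCount f 1 [MOD l] := by
  classical
  have : Fact l.Prime := ⟨hl⟩
  have : Fintype {x | f^[l] x = x} := hfin.fintype
  let g : Function.End {x | f^[l] x = x} := fun x => ⟨f x.1, by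
    have hx : f^[l] x.1 = x.1 := x.2
    show f^[l] (f x.1) = f x.1
    rw [← Function.iterate_succ_apply, Function.iterate_succ_apply', hx]⟩
  have hgk : ∀ (k : ℕ) (x : {x | f^[l] x = x}), (((g ^ k : Function.End _) x) : X) = f^[k] x.1 := by
    intro k
    induction k with
    | zero => intro x; rfl
    | succ k ih =>
      intro x
      rw [pow_succ']
      show f (((g ^ k : Function.End _) x) : X) = _
      rw [ih x, Function.iterate_succ_apply']
  have hg : g ^ l ^ 1 = 1 := by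
    rw [pow_one]
    funext x
    apply Subtype.ext
    rw [hgk l x]
    exact x.2
  have h := Equiv.Perm.card_fixedPoints_modEq (f := g) hg
  have e1 : Fintype.card {x | f^[l] x = x} = fixCount f l := by
    unfold fixCount
    rw [Set.ncard_eq_toFinset_card', Set.toFinset_card]
  have e2 : Fintype.card (Function.fixedPoints g) = fixCount f 1 := by
    unfold fixCount
    have himg : {x | f^[1] x = x} = Subtype.val '' (Function.fixedPoints g) := by
      ext x
      simp only [Function.iterate_one, Set.mem_ofPred_eq, Set.mem_image]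
      constructor
      · intro hx
        refine ⟨⟨x, ?_⟩, ?_, rfl⟩
        · exact Function.IsFixedPt.iterate hx l
        · show g _ = _
          apply Subtype.ext
          exact hx
      · rintro ⟨y, hy, rfl⟩
        have : g y = y := hy
        exact congrArg Subtype.val this
    rw [himg, Set.ncard_image_of_injective _ Subtype.val_injective, Set.ncard_eq_toFinset_card',
      Set.toFinset_card]
  rw [e1, e2] at h
  exact h

lemma DD_modEq {d : ℕ} (A : Matrix (Fin d) (Fin d) ℤ) {l : ℕ} (hl : l.Prime) :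
    ((DD A l : ℤ) : ZMod l) = ((DD A 1 : ℤ) : ZMod l) := by
  have : Fact l.Prime := ⟨hl⟩
  rcases Nat.eq_zero_or_pos d with h | h
  · subst h
    unfold DD
    rw [Matrix.det_isEmpty, Matrix.det_isEmpty]
  · have : Nonempty (Fin d) := ⟨⟨0, h⟩⟩
    set B := (Int.castRingHom (ZMod l)).mapMatrix A with hB
    have key : ∀ n, ((DD A n : ℤ) : ZMod l) = (B ^ n - 1).det := by
      intro n
      have h1 := RingHom.map_det (Int.castRingHom (ZMod l)) (A ^ n - 1)
      rw [eq_intCast] at h1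
      rw [DD, h1, map_sub, map_pow, map_one]
    rw [key, key, pow_one]
    have : CharP (Matrix (Fin d) (Fin d) (ZMod l)) l := inferInstance
    have h2 : (B - 1) ^ l = B ^ l - 1 := by
      rw [sub_pow_char_of_commute _ (Commute.one_right B), one_pow]
    rw [← h2, Matrix.det_pow, ZMod.pow_card]

theorem c_rational {X : Type*} (f : X → X) (hfin : ∀ n, 1 ≤ n → {x | f^[n] x = x}.Finite)
    {d : ℕ} (A : Matrix (Fin d) (Fin d) ℤ) {c : ℝ} (hc : 0 < c) {R : ℕ → ℝ} {N : ℕ}
    (hR : 0 < R 1)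
    (hf : ∀ n, 1 ≤ n → (fixCount f n : ℝ) = |(DD A n : ℝ)| * c ^ n * R (Nat.gcd n N))
    (hN0 : ∀ n, 1 ≤ n → DD A n = 0 → DD A (Nat.gcd n N) = 0) (h1 : DD A 1 ≠ 0) (hN3 : 3 ≤ N) :
    ∃ q : ℚ, (q : ℝ) = c := by
  set F := fixCount f with hF
  set a : ℕ → ℕ := fun n => (DD A n).natAbs with ha
  have habs : ∀ n, |(DD A n : ℝ)| = (a n : ℝ) := by
    intro n
    simp only [ha]
    rw [Nat.cast_natAbs, Int.cast_abs]
  have hcop : ∀ n, 1 ≤ n → Nat.gcd n N = 1 → (F n : ℝ) = a n * c ^ n * R 1 ∧ a n ≠ 0 := by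
    intro n hn hg
    refine ⟨by rw [hf n hn, hg, habs], ?_⟩
    intro h0
    have : DD A n = 0 := Int.natAbs_eq_zero.1 h0
    have := hN0 n hn this
    rw [hg] at this
    exact h1 this
  have hg1 : Nat.gcd (N + 1) N = 1 := by simp
  have hg2 : Nat.gcd (N - 1) N = 1 := by
    obtain ⟨k, rfl⟩ : ∃ k, N = k + 1 := ⟨N - 1, by omega⟩
    simp
  obtain ⟨f1, a1⟩ := hcop 1 le_rfl (Nat.gcd_one_left _)
  obtain ⟨f2, a2⟩ := hcop (N + 1) (by omega) hg1
  obtain ⟨f3, a3⟩ := hcop (N - 1) (by omega) hg2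
  have a1' : (a 1 : ℝ) ≠ 0 := by exact_mod_cast a1
  have a2' : (a (N + 1) : ℝ) ≠ 0 := by exact_mod_cast a2
  have a3' : (a (N - 1) : ℝ) ≠ 0 := by exact_mod_cast a3
  have hF1 : (F 1 : ℝ) ≠ 0 := by
    rw [f1]
    have := hc.ne'
    have := hR.ne'
    positivity
  have hF1n : F 1 ≠ 0 := by exact_mod_cast hF1
  -- c^2 rational
  obtain ⟨q0, hq0⟩ : ∃ q0 : ℚ, (q0 : ℝ) = c ^ 2 := by
    refine ⟨((F (N + 1) : ℚ) * a 1 / (F 1 * a (N + 1))) / ((F (N - 1) : ℚ) * a 1
      / (F 1 * a (N - 1))), ?_⟩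
    have hcN : c ^ (N + 1) = c ^ (N - 1) * c ^ 2 := by
      rw [← pow_add]; congr 1; omega
    push_cast
    rw [f2, f3, hcN]
    have hR' := hR.ne'
    have hc' := hc.ne'
    field_simp
  have hq0pos : 0 < q0 := by
    have : (0 : ℝ) < q0 := by rw [hq0]; positivity
    exact_mod_cast this
  set u : ℕ := q0.num.natAbs with hu
  set v : ℕ := q0.den with hv
  have hv0 : 0 < v := q0.den_pos
  have hu0 : 0 < u := Int.natAbs_pos.2 (Rat.num_pos.2 hq0pos).ne'
  have huv : (u : ℝ) = c ^ 2 * v := by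
    rw [← hq0]
    have h2 : q0 * q0.den = q0.num := Rat.mul_den_eq_num _
    have h3 : ((q0.num : ℤ) : ℝ) = (u : ℝ) := by
      rw [hu, Nat.cast_natAbs, Int.cast_abs, abs_of_pos]
      exact_mod_cast Rat.num_pos.2 hq0pos
    rw [← h3, ← Rat.cast_intCast, ← h2]
    push_cast
    rfl
  -- u v is a square
  have hsq : IsSquare ((u * v : ℕ) : ℤ) := by
    by_contra hns
    obtain ⟨M, c0, hM, hcM, hnr⟩ := H374R2.V.ZD.nonres_class _ hns
    obtain ⟨l, hlgt, hl, hlmod⟩ := Nat.forall_exists_prime_gt_and_modEq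
      (N + F 1 + a 1 + u + v + 2) hM.ne' hcM
    have : Fact l.Prime := ⟨hl⟩
    have hnsq := hnr l hl hlmod
    apply hnsq
    have hodd : Odd l := hl.odd_of_ne_two (by omega)
    obtain ⟨h, hh⟩ := hodd
    have hgl : Nat.gcd l N = 1 := by
      rw [← Nat.coprime_iff_gcd_eq_one]
      rw [Nat.Prime.coprime_iff_not_dvd hl]
      intro hd
      have := Nat.le_of_dvd (by omega) hd
      omega
    obtain ⟨fl, al⟩ := hcop l hl.one_le hgl
    -- natural number identity
    have hid : F l * a 1 * v ^ h = a l * u ^ h * F 1 := by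
      have : (F l : ℝ) * a 1 * (v : ℝ) ^ h = a l * (u : ℝ) ^ h * F 1 := by
        rw [fl, f1, huv, hh]
        rw [mul_pow, pow_add, pow_mul, pow_one]
        ring
      exact_mod_cast this
    have hmod1 : ((F l : ℕ) : ZMod l) = ((F 1 : ℕ) : ZMod l) :=
      (ZMod.natCast_eq_natCast_iff _ _ _).2 (fix_modEq f hl (hfin l hl.one_le))
    have hmod2 : ((a l : ℕ) : ZMod l) = ((a 1 : ℕ) : ZMod l) := by
      obtain ⟨e1, e2, _, _, ho, _⟩ := abs_DD A
      have h3 := ho l ⟨h, hh⟩
      have h4 := ho 1 ⟨0, rfl⟩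
      have h5 : ((a l : ℕ) : ℤ) = e1 * DD A l := by
        rw [← h3]; simp [ha]
      have h6 : ((a 1 : ℕ) : ℤ) = e1 * DD A 1 := by
        rw [← h4]; simp [ha]
      have h7 := congrArg (fun z : ℤ => (z : ZMod l)) h5
      have h8 := congrArg (fun z : ℤ => (z : ZMod l)) h6
      simp only [Int.cast_natCast, Int.cast_mul] at h7 h8
      rw [h7, h8, DD_modEq A hl]
    have hne : ∀ k : ℕ, 0 < k → k < l → ((k : ℕ) : ZMod l) ≠ 0 := by
      intro k hk hkl h0
      rw [ZMod.natCast_eq_zero_iff] at h0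
      exact absurd (Nat.le_of_dvd hk h0) (by omega)
    have z1 := hne (F 1) (Nat.pos_of_ne_zero hF1n) (by omega)
    have z2 := hne (a 1) (Nat.pos_of_ne_zero a1) (by omega)
    have z3 := hne u hu0 (by omega)
    have z4 := hne v hv0 (by omega)
    have hidZ := congrArg (fun k : ℕ => (k : ZMod l)) hid
    simp only [Nat.cast_mul, Nat.cast_pow] at hidZ
    rw [hmod1, hmod2] at hidZ
    have huvh : ((v : ℕ) : ZMod l) ^ h = ((u : ℕ) : ZMod l) ^ h := by
      apply mul_left_cancel₀ (mul_ne_zero z1 z2)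
      linear_combination hidZ
    have hne0 : ((((u * v : ℕ) : ℤ)) : ZMod l) ≠ 0 := by
      push_cast
      exact mul_ne_zero z3 z4
    rw [ZMod.euler_criterion l hne0]
    have hl2 : l / 2 = h := by omega
    rw [hl2]
    push_cast
    rw [mul_pow, ← huvh, ← pow_add, show h + h = l - 1 by omega]
    exact ZMod.pow_card_sub_one_eq_one z4
  obtain ⟨k, hk⟩ := hsq
  refine ⟨|(k : ℚ)| / v, ?_⟩
  have hk' : ((u : ℝ)) * v = (k : ℝ) * k := by exact_mod_cast hk
  have hv' : (0 : ℝ) < v := by exact_mod_cast hv0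
  have h5 : (c * v) ^ 2 = |(k : ℝ)| ^ 2 := by
    rw [sq_abs, mul_pow]
    rw [huv] at hk'
    linear_combination hk'
  have h6 : c * v = |(k : ℝ)| := by
    exact (pow_left_inj₀ (by positivity) (abs_nonneg _) (by norm_num)).1 h5
  push_cast
  rw [← h6]
  field_simp

end Pool.Agent.V11319.FAD
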