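import Pool.Agent.V11319.FAD.Defs

/-! Rational combinations of geometric sequences give root-rational zeta functions. -/

set_option autoImplicit false

open Filter Topology

namespace Pool.Agent.V11319.FAD

noncomputable def geo : ℂ →* (ℕ → ℂ) where
  toFun μ n := μ ^ n
  map_one' := by ext; simp
  map_mul' := by intros; ext; simp [mul_pow]

/-- the algebra of rational combinations of geometric sequences -/
noncomputable def RA : Subalgebra ℚ (ℕ → ℂ) := (MonoidAlgebra.lift ℚ (ℕ → ℂ) ℂ geo).range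

lemma RA_geo (μ : ℂ) : (fun n => μ ^ n) ∈ RA := by
  refine (AlgHom.mem_range _).2 ⟨MonoidAlgebra.of ℚ ℂ μ, ?_⟩
  rw [MonoidAlgebra.lift_of]
  rfl

lemma RA_rep {u : ℕ → ℂ} (hu : u ∈ RA) : ∃ (T : Finset ℂ) (q : ℂ → ℚ),
    ∀ n, u n = ∑ μ ∈ T, (q μ : ℂ) * μ ^ n := by
  obtain ⟨x, hx⟩ := (AlgHom.mem_range _).1 hu
  refine ⟨x.coeff.support, fun μ => x.coeff μ, fun n => ?_⟩
  rw [← hx, MonoidAlgebra.lift_apply', Finsupp.sum, Finset.sum_apply]
  refine Finset.sum_congr rfl (fun z _ => ?_)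
  show algebraMap ℚ (ℕ → ℂ) (x.coeff z) n * z ^ n = _
  rw [Pi.algebraMap_apply]
  rfl

lemma RA_ind {d : ℕ} (hd : 0 < d) : (fun n => if d ∣ n then (1 : ℂ) else 0) ∈ RA := by
  have h1 : (fun n => ∑ j ∈ Finset.range d, (Complex.exp (2 * Real.pi * Complex.I / d) ^ j) ^ n)
      ∈ RA := by
    have := RA.sum_mem (t := Finset.range d)
      (f := fun j => fun n => (Complex.exp (2 * Real.pi * Complex.I / d) ^ j) ^ n)
      (fun j _ => RA_geo _)
    refine Eq.mp ?_ this
    congr 1
    ext n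
    rw [Finset.sum_apply]
  have h2 := RA.smul_mem h1 ((1 : ℚ) / d)
  refine Eq.mp ?_ h2
  congr 1
  ext n
  have hζ := Complex.isPrimitiveRoot_exp d hd.ne'
  set ζ := Complex.exp (2 * Real.pi * Complex.I / d) with hζd
  have hd0 : (d : ℂ) ≠ 0 := by exact_mod_cast hd.ne'
  show ((1 : ℚ) / d) • (∑ j ∈ Finset.range d, (ζ ^ j) ^ n) = _
  have e : ∀ j, (ζ ^ j) ^ n = (ζ ^ n) ^ j := fun j => by rw [← pow_mul, mul_comm, pow_mul]
  rw [Finset.sum_congr rfl (fun j _ => e j), Rat.smul_def]
  split_ifs with hs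
  · rw [(hζ.pow_eq_one_iff_dvd n).2 hs]
    simp only [one_pow, Finset.sum_const, Finset.card_range, nsmul_eq_mul, mul_one]
    push_cast
    field_simp
  · have hne : ζ ^ n ≠ 1 := fun h' => hs ((hζ.pow_eq_one_iff_dvd n).1 h')
    rw [geom_sum_eq hne, ← pow_mul, mul_comm n, pow_mul, hζ.pow_eq_one, one_pow, sub_self,
      zero_div, mul_zero]

/-- a rational valued function of `gcd(n,N)` -/
lemma RA_gcd {N : ℕ} (hN : 0 < N) (R : ℕ → ℚ) : (fun n => ((R (Nat.gcd n N) : ℚ) : ℂ)) ∈ RA := by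
  -- indicator of gcd(n,N) = e, by downward induction via divisors
  have key : ∀ k : ℕ, ∀ e, e ∣ N → N / e ≤ k →
      (fun n => if Nat.gcd n N = e then (1 : ℂ) else 0) ∈ RA := by
    intro k
    induction k using Nat.strong_induction_on with
    | _ k ih =>
      intro e he hk
      have he0 : 0 < e := Nat.pos_of_dvd_of_pos he hN
      have h1 := RA_ind he0
      -- 1[e ∣ n] = Σ_{e' : e ∣ e' ∣ N} 1[gcd = e']
      have h2 : (fun n => ∑ e' ∈ (N.divisors.filter (fun e' => e ∣ e' ∧ e' ≠ e)),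
          (if Nat.gcd n N = e' then (1 : ℂ) else 0)) ∈ RA := by
        have := RA.sum_mem (t := N.divisors.filter (fun e' => e ∣ e' ∧ e' ≠ e))
          (f := fun e' => fun n => (if Nat.gcd n N = e' then (1 : ℂ) else 0)) (fun e' he' => by
            rw [Finset.mem_filter, Nat.mem_divisors] at he'
            have hlt : N / e' < N / e := by
              have hee : e < e' := lt_of_le_of_ne
                (Nat.le_of_dvd (Nat.pos_of_dvd_of_pos he'.1.1 hN) he'.2.1) he'.2.2.symm
              have h3 : N / e * e = N := Nat.div_mul_cancel he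
              have h4 : N / e' * e' = N := Nat.div_mul_cancel he'.1.1
              by_contra hcon
              push Not at hcon
              have h5 : 0 < N / e' := Nat.div_pos (Nat.le_of_dvd hN he'.1.1)
                (Nat.pos_of_dvd_of_pos he'.1.1 hN)
              nlinarith
            exact ih (N / e') (lt_of_lt_of_le hlt hk) e' he'.1.1 le_rfl)
        refine Eq.mp ?_ this
        congr 1
        ext n
        rw [Finset.sum_apply]
      have h3 := RA.sub_mem h1 h2
      refine Eq.mp ?_ h3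
      congr 1
      ext n
      rw [Pi.sub_apply]
      have hg : Nat.gcd n N ∈ N.divisors := Nat.mem_divisors.2 ⟨Nat.gcd_dvd_right _ _, hN.ne'⟩
      rw [Finset.sum_ite_eq]
      by_cases hen : e ∣ n
      · rw [if_pos hen]
        have heg : e ∣ Nat.gcd n N := Nat.dvd_gcd hen he
        by_cases hgc : Nat.gcd n N = e
        · rw [if_pos hgc, if_neg, sub_zero]
          rw [Finset.mem_filter]
          rintro ⟨_, _, h⟩
          exact h hgc
        · rw [if_neg hgc, if_pos, sub_self]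
          exact Finset.mem_filter.2 ⟨hg, heg, hgc⟩
      · rw [if_neg hen]
        have hng : ¬ e ∣ Nat.gcd n N := fun h => hen (h.trans (Nat.gcd_dvd_left _ _))
        rw [if_neg, if_neg, sub_zero]
        · intro h; exact hng (h ▸ dvd_rfl)
        · rw [Finset.mem_filter]
          rintro ⟨_, h, _⟩
          exact hng h
  have h4 : (fun n => ∑ e ∈ N.divisors, (R e : ℂ) * (if Nat.gcd n N = e then (1 : ℂ) else 0))
      ∈ RA := by
    have := RA.sum_mem (t := N.divisors)
      (f := fun e => (R e) • fun n => (if Nat.gcd n N = e then (1 : ℂ) else 0)) (fun e he =>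
        RA.smul_mem (key (N / e) e (Nat.dvd_of_mem_divisors he) le_rfl) (R e))
    refine Eq.mp ?_ this
    congr 1
    ext n
    rw [Finset.sum_apply]
    refine Finset.sum_congr rfl (fun e _ => ?_)
    rw [Pi.smul_apply, Rat.smul_def]
  refine Eq.mp ?_ h4
  congr 1
  ext n
  have hg : Nat.gcd n N ∈ N.divisors := Nat.mem_divisors.2 ⟨Nat.gcd_dvd_right _ _, hN.ne'⟩
  rw [Finset.sum_eq_single (Nat.gcd n N)]
  · rw [if_pos rfl, mul_one]
  · intro b _ hb
    rw [if_neg (Ne.symm hb), mul_zero]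
  · intro h; exact absurd hg h

/-- zeta functions with coefficients in `RA` are root-rational -/
lemma rootRational_of_RA {a : ℕ → ℂ} (ha : a ∈ RA) {b : ℕ → ℂ} (hab : ∀ n, 1 ≤ n → b n = a n) :
    ∃ k : ℕ, 1 ≤ k ∧ ∃ P Q : Polynomial ℂ, Q ≠ 0 ∧
    ∀ᶠ z in 𝓝 (0 : ℂ), Complex.exp (∑' n : ℕ, b n / n * z ^ n) ^ k * Q.eval z = P.eval z := by
  classical
  obtain ⟨T, q, hq⟩ := RA_rep ha
  set k : ℕ := ∏ μ ∈ T, (q μ).den with hk
  have hk1 : 1 ≤ k := Finset.prod_pos (fun μ _ => (q μ).den_pos)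
  -- integers m μ = k q μ
  have hm : ∀ μ ∈ T, ∃ e : ℤ, (e : ℚ) = k * q μ := by
    intro μ hμ
    obtain ⟨j, hj⟩ := Finset.dvd_prod_of_mem (fun μ => (q μ).den) hμ
    refine ⟨j * (q μ).num, ?_⟩
    rw [hk, hj]
    push_cast
    have h1 : q μ * (q μ).den = (q μ).num := Rat.mul_den_eq_num _
    rw [← h1]
    ring
  choose! e he using hm
  refine ⟨k, hk1, ∏ μ ∈ T, (1 - Polynomial.C μ * Polynomial.X) ^ (-(e μ)).toNat,
    ∏ μ ∈ T, (1 - Polynomial.C μ * Polynomial.X) ^ (e μ).toNat, ?_, ?_⟩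
  · rw [Finset.prod_ne_zero_iff]
    intro μ _
    refine pow_ne_zero _ ?_
    intro h
    have := congrArg (Polynomial.eval 0) h
    simp at this
  · -- small z
    have hsm : ∀ μ ∈ T, ∀ᶠ z in 𝓝 (0 : ℂ), ‖μ * z‖ < 1 := by
      intro μ _
      have hc : Continuous (fun z : ℂ => ‖μ * z‖) := by fun_prop
      have := hc.tendsto 0
      simp only [mul_zero, norm_zero] at this
      exact this.eventually (gt_mem_nhds one_pos)
    have hsm' : ∀ᶠ z in 𝓝 (0 : ℂ), ∀ μ ∈ T, ‖μ * z‖ < 1 := (Filter.eventually_all_finset _).2 hsm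
    filter_upwards [hsm'] with z hz
    have hs : ∀ μ ∈ T, HasSum (fun n : ℕ => (q μ : ℂ) * ((μ * z) ^ n / n))
        ((q μ : ℂ) * -Complex.log (1 - μ * z)) := fun μ hμ =>
      (Complex.hasSum_taylorSeries_neg_log (hz μ hμ)).mul_left _
    have hsum := hasSum_sum hs
    have hts : ∑' n : ℕ, b n / n * z ^ n = ∑ μ ∈ T, (q μ : ℂ) * -Complex.log (1 - μ * z) := by
      rw [← hsum.tsum_eq]
      refine tsum_congr (fun n => ?_)
      rcases Nat.eq_zero_or_pos n with h | h
      · subst h; simp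
      · rw [hab n h, hq n, Finset.sum_div, Finset.sum_mul]
        refine Finset.sum_congr rfl (fun μ _ => ?_)
        rw [mul_pow]; ring
    rw [hts, ← Complex.exp_nat_mul, Finset.mul_sum, Complex.exp_sum, Polynomial.eval_prod,
      Polynomial.eval_prod, ← Finset.prod_mul_distrib]
    refine Finset.prod_congr rfl (fun μ hμ => ?_)
    have hy : (1 - μ * z) ≠ 0 := by
      intro h
      have h1 : μ * z = 1 := (sub_eq_zero.1 h).symm
      have := hz μ hμ
      rw [h1, norm_one] at this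
      exact lt_irrefl _ this
    have hc : (k : ℂ) * ((q μ : ℂ) * -Complex.log (1 - μ * z))
        = ((-(e μ) : ℤ) : ℂ) * Complex.log (1 - μ * z) := by
      have := he μ hμ
      have h2 : ((e μ : ℤ) : ℂ) = (k : ℂ) * (q μ : ℂ) := by
        have := congrArg (fun x : ℚ => (x : ℂ)) this
        push_cast at this
        exact this
      push_cast
      rw [h2]; ring
    rw [hc, Complex.exp_int_mul, Complex.exp_log hy]
    simp only [Polynomial.eval_pow, Polynomial.eval_sub, Polynomial.eval_one, Polynomial.eval_mul,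
      Polynomial.eval_C, Polynomial.eval_X]
    rw [← zpow_natCast, ← zpow_natCast, ← zpow_add₀ hy]
    congr 1
    omega

end Pool.Agent.V11319.FAD
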