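import Pool.Agent.V11319.FAD.Core3
import Pool.Agent.V11319.FAD.Cont
import Pool.Agent.V11319.FAD.RR
import Pool.Agent.V11319.FAD.QR

/-! Natural boundaries of zeta functions of FAD-systems: assembly. -/

set_option autoImplicit false

open Filter Topology

namespace Pool.Agent.V11319.FAD

open Classical in
/-- order, or `1` for elements of infinite order -/
noncomputable def ord' (μ : ℂ) : ℕ := if IsOfFinOrder μ then orderOf μ else 1

lemma ord'_pos (μ : ℂ) : 0 < ord' μ := by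
  unfold ord'
  split_ifs with h
  · exact h.orderOf_pos
  · exact one_pos

lemma pow_eq_one_of_ord' {μ : ℂ} {N P : ℕ} (hN : ord' μ ∣ N) (hP : 0 < P) (h : μ ^ P = 1) :
    μ ^ N = 1 := by
  have hf : IsOfFinOrder μ := isOfFinOrder_iff_pow_eq_one.2 ⟨P, hP, h⟩
  unfold ord' at hN
  rw [if_pos hf] at hN
  exact orderOf_dvd_iff_pow_eq_one.1 hN

lemma RA_prod (s : Multiset ℂ) : (fun n => (s.map fun a => a ^ n - 1).prod) ∈ RA := by
  induction s using Multiset.induction_on with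
  | empty =>
    exact RA.one_mem
  | cons a s ih =>
    have := RA.mul_mem (RA.sub_mem (RA_geo a) RA.one_mem) ih
    refine Eq.mp ?_ this
    congr 1
    ext n
    simp

lemma RA_const (q : ℚ) : (fun _ : ℕ => (q : ℂ)) ∈ RA := by
  have := RA.algebraMap_mem q
  refine Eq.mp ?_ this
  congr 1

/-- the final rationality step -/
lemma rootRational_of_formula {X : Type*} (f : X → X) {d : ℕ} (A : Matrix (Fin d) (Fin d) ℤ)
    {N : ℕ} (hN : 0 < N) (q : ℚ) (R' : ℕ → ℚ)
    (hf : ∀ n, 1 ≤ n → (fixCount f n : ℚ) = |(DD A n : ℚ)| * q ^ n * R' (Nat.gcd n N)) :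
    RootRational f := by
  obtain ⟨e1, e2, he1, he2, ho, he⟩ := abs_DD A
  have h1 : (fun n : ℕ => ((((e1 : ℚ) + e2) / 2 : ℚ) : ℂ) + ((((e2 : ℚ) - e1) / 2 : ℚ) : ℂ)
      * (-1) ^ n) ∈ RA := by
    have := RA.add_mem (RA_const (((e1 : ℚ) + e2) / 2))
      (RA.mul_mem (RA_const (((e2 : ℚ) - e1) / 2)) (RA_geo (-1)))
    exact this
  have h2 := RA.mul_mem (RA.mul_mem (RA.mul_mem h1 (RA_prod (RT A))) (RA_geo (q : ℂ)))
    (RA_gcd hN R')
  refine rootRational_of_RA h2 (fun n hn => ?_)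
  simp only [Pi.mul_apply]
  rw [← DD_prod A hn]
  have h3 := hf n hn
  have h4 : ((fixCount f n : ℕ) : ℂ)
      = ((|(DD A n : ℚ)| * q ^ n * R' (Nat.gcd n N) : ℚ) : ℂ) := by
    rw [← h3]; push_cast; rfl
  rw [h4]
  have h5 : |(DD A n : ℚ)| = ((e1 : ℚ) + e2) / 2 * DD A n
      + ((e2 : ℚ) - e1) / 2 * (-1) ^ n * DD A n := by
    rw [← Int.cast_abs]
    rcases Nat.even_or_odd n with h | h
    · rw [he n hn h, h.neg_one_pow]; push_cast; ring
    · rw [ho n h, h.neg_one_pow]; push_cast; ring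
  rw [h5]
  push_cast
  ring

theorem main {X : Type*} (f : X → X) (hF : IsFAD f) (hnr : ¬ RootRational f) :
    NaturalBoundary f := by
  classical
  obtain ⟨hfin, F, hval⟩ := hF
  set A := F.A with hA
  have hDD : ∀ n, ((A ^ n - 1).det : ℤ) = DD A n := fun n => rfl
  -- the value
  have hv : ∀ n, F.val n = |(DD A n : ℝ)| * F.c ^ n * (F.r n * ∏ p ∈ F.S, fac F.s F.t p n) := by
    intro n
    unfold FADData.val fac
    rw [← hA, hDD, mul_assoc]
  intro z0 hz0 δ hδ hcont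
  obtain ⟨g, hg, hgz⟩ := hcont
  apply hnr
  by_cases hD1 : DD A 1 = 0
  · -- trivial case
    obtain ⟨a, ha, ha1⟩ := (DD_eq_zero_iff A le_rfl).1 hD1
    refine rootRational_of_formula f A one_pos 1 (fun _ => 0) (fun n hn => ?_)
    have h0 : DD A n = 0 := (DD_eq_zero_iff A hn).2 ⟨a, ha, by
      rw [pow_one] at ha1; rw [ha1, one_pow]⟩
    have h1 := hval n hn
    rw [hv, h0] at h1
    simp only [Int.cast_zero, abs_zero, zero_mul] at h1
    have : fixCount f n = 0 := by exact_mod_cast h1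
    rw [this]; simp
  -- data
  obtain ⟨Nr, hNr⟩ := F.r_gcd
  have hNs' := F.s_gcd
  have hNt' := F.t_gcd
  choose! Ns hNs using hNs'
  choose! Nt hNt using hNt'
  obtain ⟨u, huTA, hu1, hu2⟩ := DD_trig A
  obtain ⟨T, c, hT, hrep⟩ := TA_rep huTA
  set N : ℕ := 3 * Nr * (∏ p ∈ F.S, p) * (∏ p ∈ F.S, Ns p) * (∏ p ∈ F.S, Nt p) *
    (∏ μ ∈ T, ord' μ) * (∏ a ∈ (RT A).toFinset, ord' a) with hNdef
  have hP1 : 0 < ∏ p ∈ F.S, p := Finset.prod_pos (fun p hp => (F.prime p hp).pos)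
  have hP2 : 0 < ∏ p ∈ F.S, Ns p := Finset.prod_pos (fun p hp => (hNs p hp).1.1)
  have hP3 : 0 < ∏ p ∈ F.S, Nt p := Finset.prod_pos (fun p hp => (hNt p hp).1.1)
  have hP4 : 0 < ∏ μ ∈ T, ord' μ := Finset.prod_pos (fun μ _ => ord'_pos μ)
  have hP5 : 0 < ∏ a ∈ (RT A).toFinset, ord' a := Finset.prod_pos (fun μ _ => ord'_pos μ)
  have hNr0 : 0 < Nr := hNr.1
  have hN : 0 < N := by positivity
  have hNrN : Nr ∣ N := by
    rw [hNdef]
    exact Dvd.dvd.mul_right (Dvd.dvd.mul_right (Dvd.dvd.mul_right (Dvd.dvd.mul_right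
      (Dvd.dvd.mul_right (dvd_mul_left _ _) _) _) _) _) _
  have h3N : 3 ∣ N := by
    rw [hNdef]
    exact Dvd.dvd.mul_right (Dvd.dvd.mul_right (Dvd.dvd.mul_right (Dvd.dvd.mul_right
      (Dvd.dvd.mul_right (dvd_mul_right _ _) _) _) _) _) _
  have hN3 : 3 ≤ N := Nat.le_of_dvd hN h3N
  have hpN : ∀ p ∈ F.S, p ∣ N := by
    intro p hp
    refine (Finset.dvd_prod_of_mem (fun p => p) hp).trans ?_
    rw [hNdef]
    exact Dvd.dvd.mul_right (Dvd.dvd.mul_right (Dvd.dvd.mul_right (Dvd.dvd.mul_right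
      (dvd_mul_left _ _) _) _) _) _
  have hNsN : ∀ p ∈ F.S, Ns p ∣ N := by
    intro p hp
    refine (Finset.dvd_prod_of_mem Ns hp).trans ?_
    rw [hNdef]
    exact Dvd.dvd.mul_right (Dvd.dvd.mul_right (Dvd.dvd.mul_right
      (dvd_mul_left _ _) _) _) _
  have hNtN : ∀ p ∈ F.S, Nt p ∣ N := by
    intro p hp
    refine (Finset.dvd_prod_of_mem Nt hp).trans ?_
    rw [hNdef]
    exact Dvd.dvd.mul_right (Dvd.dvd.mul_right
      (dvd_mul_left _ _) _) _
  have hTN : ∀ μ ∈ T, ord' μ ∣ N := by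
    intro μ hμ
    refine (Finset.dvd_prod_of_mem ord' hμ).trans ?_
    rw [hNdef]
    exact Dvd.dvd.mul_right (dvd_mul_left _ _) _
  have hRN : ∀ a ∈ RT A, ord' a ∣ N := by
    intro a ha
    refine (Finset.dvd_prod_of_mem ord' (Multiset.mem_toFinset.2 ha)).trans ?_
    rw [hNdef]
    exact dvd_mul_left _ _
  have hN0 : ∀ n, 1 ≤ n → DD A n = 0 → DD A (Nat.gcd n N) = 0 := by
    intro n hn h0
    obtain ⟨a, ha, han⟩ := (DD_eq_zero_iff A hn).1 h0
    refine (DD_eq_zero_iff A (Nat.gcd_pos_of_pos_left _ hn)).2 ⟨a, ha, ?_⟩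
    have h1 := pow_eq_one_of_ord' (hRN a ha) hn han
    rw [← orderOf_dvd_iff_pow_eq_one] at han h1 ⊢
    exact Nat.dvd_gcd han h1
  have hN0' : ∀ n, 1 ≤ n → DD A (Nat.gcd n N) = 0 → DD A n = 0 := by
    intro n hn h0
    obtain ⟨a, ha, han⟩ := (DD_eq_zero_iff A (Nat.gcd_pos_of_pos_left _ hn)).1 h0
    refine (DD_eq_zero_iff A hn).2 ⟨a, ha, ?_⟩
    rw [← orderOf_dvd_iff_pow_eq_one] at han ⊢
    exact han.trans (Nat.gcd_dvd_left _ _)
  -- w
  set w : ℕ → ℝ := fun n => F.r n * ∏ p ∈ F.S, fac F.s F.t p n with hw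
  have hfacpos : ∀ p ∈ F.S, ∀ n, 1 ≤ n → 0 < fac F.s F.t p n := by
    intro p hp n hn
    rw [fac_eq (F.prime p hp) hn]
    exact psi_pos (F.prime p hp) _ _ _
  have hfacle : ∀ p ∈ F.S, ∀ n, 1 ≤ n → fac F.s F.t p n ≤ 1 := by
    intro p hp n hn
    rw [fac_eq (F.prime p hp) hn]
    exact psi_le (F.prime p hp) (F.s_nonneg p hp n hn) (F.t_nonneg p hp n hn) _
  have hwpos : ∀ n, 1 ≤ n → 0 < w n := fun n hn =>
    mul_pos (F.r_pos n hn) (Finset.prod_pos (fun p hp => hfacpos p hp n hn))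
  have hgood : Good N w := good_mul (good_gcdseq hNr hNrN hN)
    (good_prod (fun p hp => good_fac (F.prime p hp) hN (hpN p hp) (hNs p hp).1 (hNt p hp).1
      (hNsN p hp) (hNtN p hp) (F.s_nonneg p hp) (F.t_nonneg p hp)))
  obtain ⟨⟨Cw, hCw0, hCw⟩, hgood2⟩ := hgood
  obtain ⟨⟨Cr, hCr0, hCr⟩, -⟩ := good_gcdseq hNr hNrN hN
  have hLL := one_le_LL A
  set L := LL A with hL
  have hL0 : 0 < L := by linarith
  set D' : ℕ → ℝ := fun n => |(DD A n : ℝ)| / L ^ n with hD'
  have htr : ∀ n, tr T c n = u n := fun n => (hrep n).symm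
  have S : Sys N T c D' w := by
    refine ⟨hN, hT, fun μ hμ P hP h => pow_eq_one_of_ord' (hTN μ hμ) hP h,
      fun n => by simp only [hD']; positivity, ?_, hwpos, ⟨max Cw |w 0|, fun n => ?_⟩, hgood2⟩
    · refine hu1.congr (fun n => ?_)
      rw [htr]
    · rcases Nat.eq_zero_or_pos n with h | h
      · rw [h]; exact le_max_right _ _
      · exact (hCw n h).trans (le_max_left _ _)
  -- growth
  set G : ℝ := F.c * L with hG
  have hG0 : 0 < G := mul_pos F.c_pos hL0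
  have hfG : ∀ n, 1 ≤ n → (fixCount f n : ℝ) = D' n * w n * G ^ n := by
    intro n hn
    rw [hval n hn, hv, hG, mul_pow]
    simp only [hD', hw]
    have := pow_ne_zero n hL0.ne'
    field_simp
  obtain ⟨CD, hCD⟩ := S.bddD
  have hCD0 : 0 ≤ CD := (norm_nonneg _).trans (hCD 0)
  have hDle : ∀ n, D' n ≤ CD := by
    intro n
    have h1 := hCD n
    rw [Complex.norm_real, Real.norm_eq_abs] at h1
    exact (le_abs_self _).trans h1
  have hup : ∀ n, 1 ≤ n → (fixCount f n : ℝ) ≤ (CD * Cw) * G ^ n := by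
    intro n hn
    rw [hfG n hn]
    refine mul_le_mul_of_nonneg_right ?_ (by positivity)
    exact mul_le_mul (hDle n) ((le_abs_self _).trans (hCw n hn)) (hwpos n hn).le hCD0
  have hu11 : tr T c 1 ≠ 0 := by rw [htr]; exact hu2 1 le_rfl hD1
  obtain ⟨δ', hδ', hfreq⟩ := S.freq hu11
  have hfreq' : ∃ᶠ n in atTop, δ' * G ^ n ≤ (fixCount f n : ℝ) := by
    refine (hfreq.and_eventually (eventually_ge_atTop 1)).mono ?_
    rintro n ⟨h1, h2⟩
    rw [hfG n h2]
    exact mul_le_mul_of_nonneg_right h1 (by positivity)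
  have hLam : Lam f = G := growth hG0 hup hδ' hfreq'
  set ρ : ℝ := 1 / Lam f with hρ
  have hρ' : ρ = 1 / G := by rw [hρ, hLam]
  have hρ0 : 0 < ρ := by rw [hρ']; positivity
  have hGρ : G * ρ = 1 := by rw [hρ']; field_simp
  -- arc
  have hbound : ∀ n, ‖(fixCount f n : ℂ)‖ * ρ ^ n ≤ max (CD * Cw) (fixCount f 0) := by
    intro n
    rw [Complex.norm_natCast]
    rcases Nat.eq_zero_or_pos n with h | h
    · rw [h]; simp
    · refine le_trans ?_ (le_max_left _ _)
      calc (fixCount f n : ℝ) * ρ ^ n ≤ (CD * Cw) * G ^ n * ρ ^ n :=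
            mul_le_mul_of_nonneg_right (hup n h) (by positivity)
        _ = CD * Cw := by rw [mul_assoc, ← mul_pow, hGρ, one_pow, mul_one]
  obtain ⟨z1, hz1, ε, hε, harc0⟩ := cont_arc (a := fun n => (fixCount f n : ℂ)) hρ0 hbound hz0 hδ
    hg (fun z hz hzρ => hgz z hz hzρ)
  have harc : ∀ η : ℂ, ‖η‖ = 1 → ‖η - z1‖ < ε → m (fun n => (D' n : ℂ) * w n * η ^ n) = 0 := by
    intro η hη hηz
    rw [← harc0 η hη hηz]
    refine m_congr' ((S.bddD.mul S.bddw).mul (Bdd.pow hη)) ?_ (fun n hn => ?_)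
    · refine ⟨max (CD * Cw) (fixCount f 0), fun n => ?_⟩
      rw [norm_mul, norm_mul, norm_pow, norm_pow, hη, one_pow, mul_one, Complex.norm_real,
        Real.norm_of_nonneg hρ0.le]
      exact hbound n
    · have h1 : ((fixCount f n : ℕ) : ℂ) = ((D' n * w n * G ^ n : ℝ) : ℂ) := by
        rw [← hfG n hn]; push_cast; rfl
      have h2 : (G : ℂ) ^ n * (ρ : ℂ) ^ n = 1 := by
        rw [← mul_pow, ← Complex.ofReal_mul, hGρ]; simp
      rw [h1]
      push_cast
      linear_combination (-(D' n : ℂ) * w n * η ^ n) * h2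
  -- triviality of the p-adic exponents
  have htriv : ∀ p ∈ F.S, ∀ x0, 1 ≤ x0 → N.factorization p ≤ x0.factorization p → DD A x0 ≠ 0 →
      F.s p x0 = 0 ∧ F.t p x0 = 0 := by
    intro p hp x0 hx0 hfx hDx
    by_contra hst
    have hpp := F.prime p hp
    obtain ⟨y, hy0, hy, hyd⟩ := exists_y hpp hN hfx
    have hu0 := hu2 x0 hx0 hDx
    apply hu0
    rw [← htr]
    refine S.core hz1 hε harc hpp (hpN p hp) y hy ?_ hy0
    intro η hη
    have htend := psi_tendsto hpp (F.s_nonneg p hp x0 hx0) (F.t_nonneg p hp x0 hx0) hst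
    obtain ⟨B, hB⟩ := Filter.eventually_atTop.1
      (htend.eventually (gt_mem_nhds (show 0 < η / (Cr + 1) by positivity)))
    refine ⟨B, fun b hb n hn hdvd => ?_⟩
    have hyN : ∀ b, y b ≡ y 0 [MOD N] := by
      intro b
      induction b with
      | zero => rfl
      | succ b ih => exact ((hy b).of_mul_right _).trans ih
    have hNn : n ≡ x0 [MOD N] := by
      have h1 : N ∣ n + y b := (dvd_mul_right _ _).trans hdvd
      have h2 : n + y 0 ≡ 0 [MOD N] :=
        ((hyN b).symm.add_left n).trans (Nat.modEq_zero_iff_dvd.2 h1)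
      have h3 : n + y 0 ≡ x0 + y 0 [MOD N] := h2.trans (Nat.modEq_zero_iff_dvd.2 hy0).symm
      exact Nat.ModEq.add_right_cancel' _ h3
    have hs : F.s p n = F.s p x0 := by
      rw [(hNs p hp).1.2 n hn, (hNs p hp).1.2 x0 hx0]
      congr 1
      exact (hNn.of_dvd (hNsN p hp)).gcd_eq
    have ht : F.t p n = F.t p x0 := by
      rw [(hNt p hp).1.2 n hn, (hNt p hp).1.2 x0 hx0]
      congr 1
      exact (hNn.of_dvd (hNtN p hp)).gcd_eq
    have hpb : p ^ b ∣ n := by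
      have h1 : p ^ b ∣ n + y b := (dvd_mul_left _ _).trans hdvd
      exact (Nat.dvd_add_left (hyd b)).1 h1
    have hbn : b ≤ n.factorization p := (hpp.pow_dvd_iff_le_factorization (by omega)).1 hpb
    have hpsi := hB (n.factorization p) (hb.trans hbn)
    have hfac : fac F.s F.t p n ≤ η / (Cr + 1) := by
      rw [fac_eq hpp hn, hs, ht]
      exact hpsi.le
    have hprod : ∏ q ∈ F.S, fac F.s F.t q n ≤ fac F.s F.t p n := by
      rw [← Finset.mul_prod_erase F.S _ hp]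
      refine mul_le_of_le_one_right (hfacpos p hp n hn).le
        (Finset.prod_le_one (fun q hq => (hfacpos q (Finset.mem_of_mem_erase hq) n hn).le)
          (fun q hq => hfacle q (Finset.mem_of_mem_erase hq) n hn))
    have hprod0 : 0 ≤ ∏ q ∈ F.S, fac F.s F.t q n :=
      Finset.prod_nonneg (fun q hq => (hfacpos q hq n hn).le)
    calc w n ≤ Cr * (η / (Cr + 1)) :=
          mul_le_mul ((le_abs_self _).trans (hCr n hn)) (hprod.trans hfac) hprod0 hCr0
      _ ≤ η := by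
          rw [mul_div_assoc', div_le_iff₀ (by positivity)]
          nlinarith
  -- structure
  set R : ℕ → ℝ := fun e => F.r e *
    ∏ p ∈ F.S, (if N.factorization p ≤ e.factorization p then 1 else fac F.s F.t p e) with hR
  have hfR : ∀ n, 1 ≤ n →
      (fixCount f n : ℝ) = |(DD A n : ℝ)| * F.c ^ n * R (Nat.gcd n N) := by
    intro n hn
    rw [hval n hn, hv]
    by_cases h0 : DD A n = 0
    · rw [h0]; simp
    congr 1
    simp only [hR]
    have hg1 : 1 ≤ Nat.gcd n N := Nat.gcd_pos_of_pos_left _ hn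
    rw [gcdseq_gcd hNr hNrN hn]
    congr 1
    refine Finset.prod_congr rfl (fun p hp => ?_)
    have hpp := F.prime p hp
    rw [fact_gcd hn hN]
    by_cases hle : N.factorization p ≤ n.factorization p
    · rw [min_eq_right hle, if_pos le_rfl, fac_eq hpp hn]
      obtain ⟨h1, h2⟩ := htriv p hp n hn hle h0
      rw [h1, h2, psi_zero]
    · push Not at hle
      rw [min_eq_left hle.le, if_neg (by omega), fac_eq hpp hn, fac_eq hpp hg1,
        gcdseq_gcd (hNs p hp).1 (hNsN p hp) hn, gcdseq_gcd (hNt p hp).1 (hNtN p hp) hn,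
        fact_gcd hn hN, min_eq_left hle.le]
  have hR1 : 0 < R 1 := by
    simp only [hR]
    refine mul_pos (F.r_pos 1 le_rfl) (Finset.prod_pos (fun p hp => ?_))
    split_ifs
    · exact one_pos
    · exact hfacpos p hp 1 le_rfl
  obtain ⟨q, hq⟩ := c_rational f hfin A F.c_pos hR1 hfR hN0 hD1 hN3
  have hq0 : (q : ℝ) ≠ 0 := by rw [hq]; exact F.c_pos.ne'
  -- rational coefficients
  refine rootRational_of_formula f A hN q
    (fun e => (fixCount f e : ℚ) / (|(DD A e : ℚ)| * q ^ e)) (fun n hn => ?_)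
  have hg1 : 1 ≤ Nat.gcd n N := Nat.gcd_pos_of_pos_left _ hn
  have hgg : Nat.gcd (Nat.gcd n N) N = Nat.gcd n N :=
    Nat.gcd_eq_left (Nat.gcd_dvd_right _ _)
  have key : (fixCount f n : ℝ) = |(DD A n : ℝ)| * q ^ n *
      ((fixCount f (Nat.gcd n N) : ℝ) / (|(DD A (Nat.gcd n N) : ℝ)| * q ^ (Nat.gcd n N))) := by
    by_cases h0 : DD A n = 0
    · rw [hfR n hn, h0]; simp
    · have h0' : DD A (Nat.gcd n N) ≠ 0 := fun h => h0 (hN0' n hn h)
      rw [hfR n hn, hfR _ hg1, hgg, hq]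
      have h1 : |(DD A (Nat.gcd n N) : ℝ)| ≠ 0 := by
        rw [abs_ne_zero]; exact_mod_cast h0'
      have h2 := pow_ne_zero (Nat.gcd n N) F.c_pos.ne'
      field_simp
  have h5 : ((fixCount f n : ℚ) : ℝ) = ((|(DD A n : ℚ)| * q ^ n *
      ((fixCount f (Nat.gcd n N) : ℚ) / (|(DD A (Nat.gcd n N) : ℚ)| * q ^ (Nat.gcd n N))) : ℚ) : ℝ) := by
    push_cast
    exact key
  exact_mod_cast h5

end Pool.Agent.V11319.FAD
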