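import Mathlib

/-! Generalised Abel means of bounded sequences. -/

set_option autoImplicit false

open Filter Topology

namespace Pool.Agent.V11319.FAD

/-- Abel mean at `r`. -/
noncomputable def abel (a : ℕ → ℂ) (r : ℝ) : ℂ := (1 - r) * ∑' n, a n * (r : ℂ) ^ n

def Bdd (a : ℕ → ℂ) : Prop := ∃ C : ℝ, ∀ n, ‖a n‖ ≤ C

lemma Bdd.add {a b : ℕ → ℂ} (ha : Bdd a) (hb : Bdd b) : Bdd (fun n => a n + b n) := by
  obtain ⟨C, hC⟩ := ha
  obtain ⟨D, hD⟩ := hb
  exact ⟨C + D, fun n => (norm_add_le _ _).trans (add_le_add (hC n) (hD n))⟩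

lemma Bdd.mul {a b : ℕ → ℂ} (ha : Bdd a) (hb : Bdd b) : Bdd (fun n => a n * b n) := by
  obtain ⟨C, hC⟩ := ha
  obtain ⟨D, hD⟩ := hb
  refine ⟨C * D, fun n => ?_⟩
  rw [norm_mul]
  exact mul_le_mul (hC n) (hD n) (norm_nonneg _) ((norm_nonneg _).trans (hC n))

lemma Bdd.const (c : ℂ) : Bdd (fun _ => c) := ⟨‖c‖, fun _ => le_rfl⟩

lemma Bdd.cmul {a : ℕ → ℂ} (c : ℂ) (ha : Bdd a) : Bdd (fun n => c * a n) :=
  (Bdd.const c).mul ha

lemma Bdd.sub {a b : ℕ → ℂ} (ha : Bdd a) (hb : Bdd b) : Bdd (fun n => a n - b n) := by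
  obtain ⟨C, hC⟩ := ha
  obtain ⟨D, hD⟩ := hb
  exact ⟨C + D, fun n => (norm_sub_le _ _).trans (add_le_add (hC n) (hD n))⟩

lemma Bdd.sum {ι : Type*} (s : Finset ι) {a : ι → ℕ → ℂ} (h : ∀ i ∈ s, Bdd (a i)) :
    Bdd (fun n => ∑ i ∈ s, a i n) := by
  classical
  induction s using Finset.induction_on with
  | empty => simpa using Bdd.const 0
  | insert i s hi ih =>
    have := (h i (Finset.mem_insert_self _ _)).add
      (ih (fun j hj => h j (Finset.mem_insert_of_mem hj)))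
    refine Eq.mp ?_ this
    congr 1
    ext n
    rw [Finset.sum_insert hi]

lemma Bdd.pow {μ : ℂ} (h : ‖μ‖ = 1) : Bdd (fun n => μ ^ n) :=
  ⟨1, fun n => by simp [h]⟩

lemma bdd_shift {a : ℕ → ℂ} (ha : Bdd a) : Bdd (fun n => a (n + 1)) := by
  obtain ⟨C, hC⟩ := ha
  exact ⟨C, fun n => hC _⟩

lemma summable_abel {a : ℕ → ℂ} (ha : Bdd a) {r : ℝ} (h0 : 0 ≤ r) (h1 : r < 1) :
    Summable (fun n => a n * (r : ℂ) ^ n) := by
  obtain ⟨C, hC⟩ := ha
  refine Summable.of_norm_bounded (g := fun n => C * r ^ n)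
    ((summable_geometric_of_lt_one h0 h1).mul_left C) (fun n => ?_)
  rw [norm_mul, norm_pow, Complex.norm_real, Real.norm_of_nonneg h0]
  exact mul_le_mul_of_nonneg_right (hC n) (pow_nonneg h0 n)

lemma abel_add {a b : ℕ → ℂ} (ha : Bdd a) (hb : Bdd b) {r : ℝ} (h0 : 0 ≤ r) (h1 : r < 1) :
    abel (fun n => a n + b n) r = abel a r + abel b r := by
  unfold abel
  rw [← mul_add, ← (summable_abel ha h0 h1).tsum_add (summable_abel hb h0 h1)]
  congr 2
  ext n
  ring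

lemma abel_cmul {a : ℕ → ℂ} (c : ℂ) (r : ℝ) :
    abel (fun n => c * a n) r = c * abel a r := by
  unfold abel
  have : (fun n => c * a n * (r : ℂ) ^ n) = fun n => c * (a n * (r : ℂ) ^ n) := by
    ext n; ring
  rw [this, tsum_mul_left]
  ring

lemma abel_norm_le' {a : ℕ → ℂ} {b : ℕ → ℝ} (hab : ∀ n, ‖a n‖ ≤ b n)
    (hb : Bdd (fun n => (b n : ℂ))) {r : ℝ} (h0 : 0 ≤ r) (h1 : r < 1) :
    ‖abel a r‖ ≤ ‖abel (fun n => (b n : ℂ)) r‖ := by
  unfold abel
  rw [norm_mul, norm_mul]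
  refine mul_le_mul_of_nonneg_left ?_ (norm_nonneg _)
  have hs := summable_abel hb h0 h1
  have hsn : Summable (fun n => b n * r ^ n) := by
    have := hs.norm
    refine this.congr (fun n => ?_)
    rw [norm_mul, norm_pow, Complex.norm_real, Complex.norm_real, Real.norm_of_nonneg h0,
      Real.norm_of_nonneg ((norm_nonneg _).trans (hab n))]
  have e1 : (∑' n, (b n : ℂ) * (r : ℂ) ^ n) = ((∑' n, b n * r ^ n : ℝ) : ℂ) := by
    rw [Complex.ofReal_tsum]
    congr 1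
    ext n
    push_cast
    ring
  have hbn : ∀ n, 0 ≤ b n := fun n => (norm_nonneg _).trans (hab n)
  rw [e1, Complex.norm_real, Real.norm_of_nonneg
    (tsum_nonneg (fun n => mul_nonneg (hbn n) (pow_nonneg h0 n)))]
  refine tsum_of_norm_bounded hsn.hasSum (fun n => ?_)
  rw [norm_mul, norm_pow, Complex.norm_real, Real.norm_of_nonneg h0]
  exact mul_le_mul_of_nonneg_right (hab n) (pow_nonneg h0 n)

lemma abel_const (c : ℂ) {r : ℝ} (h0 : 0 ≤ r) (h1 : r < 1) : abel (fun _ => c) r = c := by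
  unfold abel
  have hr : ‖(r : ℂ)‖ < 1 := by
    rw [Complex.norm_real, Real.norm_of_nonneg h0]; exact h1
  rw [tsum_mul_left, tsum_geometric_of_norm_lt_one hr]
  have : (1 - (r : ℂ)) ≠ 0 := by
    intro h
    have : (1 - r : ℝ) = 0 := by exact_mod_cast h
    linarith
  field_simp

lemma abel_norm_le {a : ℕ → ℂ} {C : ℝ} (hC : ∀ n, ‖a n‖ ≤ C) {r : ℝ} (h0 : 0 ≤ r) (h1 : r < 1) :
    ‖abel a r‖ ≤ C := by
  have h := abel_norm_le' (b := fun _ => C) hC (Bdd.const _) h0 h1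
  rw [abel_const _ h0 h1, Complex.norm_real] at h
  rwa [Real.norm_of_nonneg ((norm_nonneg _).trans (hC 0))] at h

lemma abel_shift {a : ℕ → ℂ} (ha : Bdd a) {r : ℝ} (h0 : 0 ≤ r) (h1 : r < 1) :
    abel a r = (1 - r) * a 0 + r * abel (fun n => a (n + 1)) r := by
  unfold abel
  rw [(summable_abel ha h0 h1).tsum_eq_zero_add]
  have : (fun n => a (n + 1) * (r : ℂ) ^ (n + 1)) = fun n => r * (a (n + 1) * (r : ℂ) ^ n) := by
    ext n; ring
  rw [this, tsum_mul_left]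
  ring

/-- the ultrafilter -/
noncomputable def U : Ultrafilter ℝ := Ultrafilter.of (𝓝[<] (1 : ℝ))

lemma U_le : (U : Filter ℝ) ≤ 𝓝[<] (1 : ℝ) := Ultrafilter.of_le _

lemma U_ev : ∀ᶠ r in (U : Filter ℝ), 0 ≤ r ∧ r < 1 := by
  have : ∀ᶠ r in 𝓝[<] (1 : ℝ), 0 ≤ r ∧ r < 1 := by
    have h1 : Set.Ioo (0 : ℝ) 1 ∈ 𝓝[<] (1 : ℝ) := Ioo_mem_nhdsLT (by norm_num)
    filter_upwards [h1] with r hr
    exact ⟨hr.1.le, hr.2⟩
  exact U_le this

lemma U_tendsto : Tendsto (fun r : ℝ => (r : ℂ)) (U : Filter ℝ) (𝓝 1) := by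
  have h : Tendsto (fun r : ℝ => r) (U : Filter ℝ) (𝓝 1) :=
    tendsto_id.mono_left (U_le.trans nhdsWithin_le_nhds)
  have := (Complex.continuous_ofReal.tendsto (1 : ℝ)).comp h
  simpa [Function.comp_def] using this

/-- the mean -/
noncomputable def m (a : ℕ → ℂ) : ℂ := limUnder (U : Filter ℝ) (abel a)

lemma tendsto_m {a : ℕ → ℂ} (ha : Bdd a) : Tendsto (abel a) (U : Filter ℝ) (𝓝 (m a)) := by
  obtain ⟨C, hC⟩ := ha
  apply tendsto_nhds_limUnder
  have hc : IsCompact (Metric.closedBall (0 : ℂ) C) := isCompact_closedBall _ _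
  obtain ⟨x, _, hx⟩ := hc.ultrafilter_le_nhds (U.map (abel a)) (by
    rw [le_principal_iff]
    show (abel a) ⁻¹' _ ∈ (U : Filter ℝ)
    filter_upwards [U_ev] with r hr
    simp only [Set.mem_preimage, mem_closedBall_zero_iff]
    exact abel_norm_le hC hr.1 hr.2)
  exact ⟨x, hx⟩

lemma m_eq {a : ℕ → ℂ} (ha : Bdd a) {x : ℂ} (h : Tendsto (abel a) (U : Filter ℝ) (𝓝 x)) :
    m a = x := tendsto_nhds_unique (tendsto_m ha) h

lemma m_add {a b : ℕ → ℂ} (ha : Bdd a) (hb : Bdd b) : m (fun n => a n + b n) = m a + m b := by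
  refine m_eq (ha.add hb) (((tendsto_m ha).add (tendsto_m hb)).congr' ?_)
  filter_upwards [U_ev] with r hr
  exact (abel_add ha hb hr.1 hr.2).symm

lemma m_cmul {a : ℕ → ℂ} (c : ℂ) (ha : Bdd a) : m (fun n => c * a n) = c * m a := by
  refine m_eq (ha.cmul c) (((tendsto_m ha).const_mul c).congr' ?_)
  filter_upwards [U_ev] with r hr
  exact (abel_cmul c r).symm

lemma m_sub {a b : ℕ → ℂ} (ha : Bdd a) (hb : Bdd b) : m (fun n => a n - b n) = m a - m b := by
  have h := m_add ha (hb.cmul (-1))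
  rw [m_cmul (-1) hb] at h
  have e : (fun n => a n - b n) = fun n => a n + -1 * b n := by ext n; ring
  rw [e, h]; ring

lemma m_const (c : ℂ) : m (fun _ => c) = c := by
  refine m_eq (Bdd.const c) (tendsto_const_nhds.congr' ?_)
  filter_upwards [U_ev] with r hr
  exact (abel_const c hr.1 hr.2).symm

lemma m_sum {ι : Type*} (s : Finset ι) {a : ι → ℕ → ℂ} (h : ∀ i ∈ s, Bdd (a i)) :
    m (fun n => ∑ i ∈ s, a i n) = ∑ i ∈ s, m (a i) := by
  classical
  induction s using Finset.induction_on with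
  | empty => simpa using m_const 0
  | insert i s hi ih =>
    have h1 := h i (Finset.mem_insert_self _ _)
    have h2 : ∀ j ∈ s, Bdd (a j) := fun j hj => h j (Finset.mem_insert_of_mem hj)
    rw [Finset.sum_insert hi, ← ih h2, ← m_add h1 (Bdd.sum s h2)]
    congr 1
    ext n
    rw [Finset.sum_insert hi]

lemma m_norm_le' {a : ℕ → ℂ} {b : ℕ → ℝ} (hab : ∀ n, ‖a n‖ ≤ b n)
    (hb : Bdd (fun n => (b n : ℂ))) : ‖m a‖ ≤ ‖m (fun n => (b n : ℂ))‖ := by
  have ha : Bdd a := by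
    obtain ⟨C, hC⟩ := hb
    refine ⟨C, fun n => (hab n).trans ((le_abs_self _).trans ?_)⟩
    simpa using hC n
  refine le_of_tendsto_of_tendsto (tendsto_m ha).norm (tendsto_m hb).norm ?_
  filter_upwards [U_ev] with r hr
  exact abel_norm_le' hab hb hr.1 hr.2

lemma m_shift {a : ℕ → ℂ} (ha : Bdd a) : m (fun n => a (n + 1)) = m a := by
  symm
  have h1 : Tendsto (fun r : ℝ => (1 - (r : ℂ)) * a 0 + r * abel (fun n => a (n + 1)) r)
      (U : Filter ℝ) (𝓝 ((1 - 1) * a 0 + 1 * m (fun n => a (n + 1)))) :=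
    ((tendsto_const_nhds.sub U_tendsto).mul tendsto_const_nhds).add
      (U_tendsto.mul (tendsto_m (bdd_shift ha)))
  have h2 := m_eq ha (h1.congr' (by
    filter_upwards [U_ev] with r hr
    exact (abel_shift ha hr.1 hr.2).symm))
  rw [h2]; ring

lemma m_shift_iter {a : ℕ → ℂ} (ha : Bdd a) (k : ℕ) : m (fun n => a (n + k)) = m a := by
  induction k with
  | zero => rfl
  | succ k ih =>
    have hb : Bdd (fun n => a (n + k)) := by
      obtain ⟨C, hC⟩ := ha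
      exact ⟨C, fun n => hC _⟩
    rw [← ih, ← m_shift hb]
    congr 1
    ext n
    congr 1
    ring

lemma m_norm_le {a : ℕ → ℂ} {C : ℝ} (k : ℕ) (ha : Bdd a) (hC : ∀ n, k ≤ n → ‖a n‖ ≤ C) :
    ‖m a‖ ≤ C := by
  rw [← m_shift_iter ha k]
  have h := m_norm_le' (a := fun n => a (n + k)) (b := fun _ => C)
    (fun n => hC _ (Nat.le_add_left _ _)) (Bdd.const _)
  rw [m_const, Complex.norm_real] at h
  rwa [Real.norm_of_nonneg ((norm_nonneg _).trans (hC k le_rfl))] at h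

lemma bdd_of_tendsto {a : ℕ → ℂ} {x : ℂ} (h : Tendsto a atTop (𝓝 x)) : Bdd a := by
  obtain ⟨C, hC⟩ := (Metric.isBounded_range_of_tendsto a h).exists_norm_le
  exact ⟨C, fun n => hC _ ⟨n, rfl⟩⟩

lemma m_null {a : ℕ → ℂ} (h : Tendsto a atTop (𝓝 0)) : m a = 0 := by
  rw [← norm_le_zero_iff]
  refine le_of_forall_pos_le_add (fun ε hε => ?_)
  rw [zero_add]
  obtain ⟨k, hk⟩ := (Metric.tendsto_atTop.1 h) ε hε
  refine m_norm_le k (bdd_of_tendsto h) (fun n hn => ?_)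
  have := hk n hn
  rw [dist_zero_right] at this
  exact this.le

lemma m_congr {a b : ℕ → ℂ} (ha : Bdd a) (hb : Bdd b)
    (h : Tendsto (fun n => a n - b n) atTop (𝓝 0)) : m a = m b := by
  have h1 := m_null h
  rw [m_sub ha hb] at h1
  exact sub_eq_zero.1 h1

lemma m_congr' {a b : ℕ → ℂ} (ha : Bdd a) (hb : Bdd b)
    (h : ∀ n, 1 ≤ n → a n = b n) : m a = m b := by
  refine m_congr ha hb ?_
  refine tendsto_const_nhds.congr' ?_
  filter_upwards [eventually_ge_atTop 1] with n hn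
  rw [h n hn, sub_self]

lemma bdd_periodic {b : ℕ → ℂ} {P : ℕ} (hP : 0 < P) (hb : ∀ n, b (n + P) = b n) : Bdd b := by
  refine ⟨∑ i ∈ Finset.range P, ‖b i‖, fun n => ?_⟩
  have h1 : b n = b (n % P) := by
    have : Function.Periodic b P := hb
    exact (this.map_mod_nat n).symm
  rw [h1]
  exact Finset.single_le_sum (f := fun i => ‖b i‖) (fun i _ => norm_nonneg _)
    (Finset.mem_range.2 (Nat.mod_lt _ hP))

lemma sum_periodic {b : ℕ → ℂ} {P : ℕ} (hb : ∀ n, b (n + P) = b n) (n : ℕ) :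
    ∑ i ∈ Finset.range P, b (n + i) = ∑ i ∈ Finset.range P, b i := by
  induction n with
  | zero => simp
  | succ n ih =>
    rw [← ih]
    have h1 := Finset.sum_range_succ (fun i => b (n + i)) P
    have h2 := Finset.sum_range_succ' (fun i => b (n + i)) P
    rw [h1] at h2
    rw [hb n, add_zero] at h2
    have h3 := add_right_cancel h2
    rw [h3]
    refine Finset.sum_congr rfl (fun i _ => ?_)
    congr 1
    ring

lemma m_periodic {b : ℕ → ℂ} {P : ℕ} (hP : 0 < P) (hb : ∀ n, b (n + P) = b n) :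
    m b = (∑ i ∈ Finset.range P, b i) / P := by
  have hB := bdd_periodic hP hb
  have h1 : m (fun n => ∑ i ∈ Finset.range P, b (n + i)) = ∑ i ∈ Finset.range P, m b := by
    rw [m_sum (Finset.range P) (a := fun i n => b (n + i)) (fun i _ => by
      obtain ⟨C, hC⟩ := hB
      exact ⟨C, fun n => hC _⟩)]
    exact Finset.sum_congr rfl (fun i _ => m_shift_iter hB i)
  rw [show (fun n => ∑ i ∈ Finset.range P, b (n + i)) = fun _ => ∑ i ∈ Finset.range P, b i from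
    funext (sum_periodic hb), m_const, Finset.sum_const, Finset.card_range, nsmul_eq_mul] at h1
  rw [h1, mul_div_cancel_left₀]
  exact_mod_cast hP.ne'

lemma m_twist_zero {b : ℕ → ℂ} {P : ℕ} (hP : 0 < P) (hb : ∀ n, b (n + P) = b n) {μ : ℂ}
    (h1 : ‖μ‖ = 1) (hμ : μ ^ P ≠ 1) : m (fun n => μ ^ n * b n) = 0 := by
  have hB : Bdd (fun n => μ ^ n * b n) := (Bdd.pow h1).mul (bdd_periodic hP hb)
  have h2 := m_shift_iter hB P
  have h3 : (fun n => μ ^ (n + P) * b (n + P)) = fun n => μ ^ P * (μ ^ n * b n) := by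
    ext n
    rw [hb]
    ring
  rw [h3, m_cmul _ hB] at h2
  by_contra h0
  apply hμ
  have : μ ^ P * m (fun n => μ ^ n * b n) = 1 * m (fun n => μ ^ n * b n) := by rw [h2, one_mul]
  exact mul_right_cancel₀ h0 this

lemma m_norm_mono {a : ℕ → ℂ} {b : ℕ → ℝ} (hab : ∀ n, 1 ≤ n → ‖a n‖ ≤ b n) (ha : Bdd a)
    (hb : Bdd (fun n => (b n : ℂ))) : ‖m a‖ ≤ ‖m (fun n => (b n : ℂ))‖ := by
  rw [← m_shift ha, ← m_shift hb]
  exact m_norm_le' (a := fun n => a (n + 1)) (b := fun n => b (n + 1))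
    (fun n => hab _ (Nat.le_add_left _ _)) (bdd_shift hb)

end Pool.Agent.V11319.FAD
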