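import Pool.Agent.V11319.FAD.Mean

/-! Trigonometric polynomials and their means against limit periodic sequences. -/

set_option autoImplicit false

open Filter Topology

namespace Pool.Agent.V11319.FAD

noncomputable def chr : Circle →* (ℕ → ℂ) where
  toFun μ n := (μ : ℂ) ^ n
  map_one' := by ext; simp
  map_mul' := by intros; ext; simp [mul_pow]

/-- the algebra of trigonometric polynomials -/
noncomputable def TA : Subalgebra ℂ (ℕ → ℂ) := (MonoidAlgebra.lift ℂ (ℕ → ℂ) Circle chr).range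

lemma exists_circle {μ : ℂ} (h : ‖μ‖ = 1) : ∃ z : Circle, (z : ℂ) = μ :=
  ⟨⟨μ, mem_sphere_zero_iff_norm.2 h⟩, rfl⟩

lemma TA_char {μ : ℂ} (h : ‖μ‖ = 1) : (fun n => μ ^ n) ∈ TA := by
  obtain ⟨z, rfl⟩ := exists_circle h
  refine (AlgHom.mem_range _).2 ⟨MonoidAlgebra.of ℂ Circle z, ?_⟩
  rw [MonoidAlgebra.lift_of]
  rfl

lemma TA_rep {u : ℕ → ℂ} (hu : u ∈ TA) : ∃ (T : Finset ℂ) (c : ℂ → ℂ), (∀ μ ∈ T, ‖μ‖ = 1) ∧
    ∀ n, u n = ∑ μ ∈ T, c μ * μ ^ n := by
  classical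
  obtain ⟨x, hx⟩ := (AlgHom.mem_range _).1 hu
  refine ⟨x.coeff.support.map ⟨fun z : Circle => (z : ℂ), Circle.coe_injective⟩,
    fun μ => if h : ∃ z : Circle, (z : ℂ) = μ then x.coeff h.choose else 0, ?_, ?_⟩
  · intro μ hμ
    rw [Finset.mem_map] at hμ
    obtain ⟨z, _, rfl⟩ := hμ
    exact Circle.norm_coe z
  · intro n
    rw [← hx, MonoidAlgebra.lift_apply', Finsupp.sum, Finset.sum_map, Finset.sum_apply]
    refine Finset.sum_congr rfl (fun z _ => ?_)
    have hz : ∃ z' : Circle, (z' : ℂ) = (z : ℂ) := ⟨z, rfl⟩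
    have hz2 : hz.choose = z := Circle.coe_injective hz.choose_spec
    show algebraMap ℂ (ℕ → ℂ) (x.coeff z) n * (z : ℂ) ^ n
      = (if h : ∃ z' : Circle, (z' : ℂ) = (z : ℂ) then x.coeff h.choose else 0) * (z : ℂ) ^ n
    rw [dif_pos hz, hz2, Pi.algebraMap_apply]
    rfl

lemma ind_periodic (Q y n : ℕ) :
    (if Q ∣ (n + Q) + y then (1 : ℂ) else 0) = if Q ∣ n + y then 1 else 0 := by
  have : Q ∣ (n + Q) + y ↔ Q ∣ n + y := by
    rw [show n + Q + y = n + y + Q by ring]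
    exact Nat.dvd_add_left (dvd_refl Q)
  simp only [this]

/-- `b` is a uniform limit of periodic sequences (on `n ≥ 1`). -/
def LP (b : ℕ → ℂ) : Prop := ∀ ε > 0, ∃ (P : ℕ) (b' : ℕ → ℂ), 0 < P ∧ (∀ n, b' (n + P) = b' n) ∧
  ∀ n, 1 ≤ n → ‖b n - b' n‖ ≤ ε

variable {N : ℕ} {T : Finset ℂ} {c : ℂ → ℂ}

noncomputable def tr (T : Finset ℂ) (c : ℂ → ℂ) (n : ℕ) : ℂ := ∑ μ ∈ T, c μ * μ ^ n

open Classical in
noncomputable def rou (N : ℕ) (T : Finset ℂ) (c : ℂ → ℂ) (n : ℕ) : ℂ :=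
  ∑ μ ∈ T with μ ^ N = 1, c μ * μ ^ n

lemma bdd_tr (hT : ∀ μ ∈ T, ‖μ‖ = 1) : Bdd (tr T c) :=
  Bdd.sum T (fun μ hμ => (Bdd.pow (hT μ hμ)).cmul (c μ))

lemma rou_periodic (n : ℕ) : rou N T c (n + N) = rou N T c n := by
  unfold rou
  refine Finset.sum_congr rfl (fun μ hμ => ?_)
  rw [Finset.mem_filter] at hμ
  rw [pow_add, hμ.2, mul_one]

lemma rou_mod (n k : ℕ) : rou N T c (n + N * k) = rou N T c n := by
  induction k with
  | zero => simp
  | succ k ih => rw [← ih, mul_add, mul_one, ← add_assoc, rou_periodic]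

lemma rou_congr {n n' : ℕ} (h : n ≡ n' [MOD N]) : rou N T c n = rou N T c n' := by
  wlog hle : n ≤ n' with H
  · exact (H h.symm (le_of_not_ge hle)).symm
  obtain ⟨k, hk⟩ := (Nat.modEq_iff_dvd' hle).1 h
  have : n' = n + N * k := by omega
  rw [this, rou_mod]

lemma bdd_rou (hT : ∀ μ ∈ T, ‖μ‖ = 1) : Bdd (rou N T c) := by
  classical
  exact Bdd.sum _ (fun μ hμ => (Bdd.pow (hT μ (Finset.mem_filter.1 hμ).1)).cmul (c μ))

lemma m_tr_periodic (hT : ∀ μ ∈ T, ‖μ‖ = 1)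
    (hrou : ∀ μ ∈ T, ∀ P, 0 < P → μ ^ P = 1 → μ ^ N = 1) {b : ℕ → ℂ} {P : ℕ} (hP : 0 < P)
    (hb : ∀ n, b (n + P) = b n) : m (fun n => tr T c n * b n) = m (fun n => rou N T c n * b n) := by
  classical
  have hB := bdd_periodic hP hb
  have h1 : ∀ S : Finset ℂ, S ⊆ T → m (fun n => (∑ μ ∈ S, c μ * μ ^ n) * b n)
      = ∑ μ ∈ S, c μ * m (fun n => μ ^ n * b n) := by
    intro S hS
    have : (fun n => (∑ μ ∈ S, c μ * μ ^ n) * b n)
        = fun n => ∑ μ ∈ S, c μ * (μ ^ n * b n) := by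
      ext n
      rw [Finset.sum_mul]
      exact Finset.sum_congr rfl (fun μ _ => by ring)
    rw [this, m_sum S (a := fun μ n => c μ * (μ ^ n * b n)) (fun μ hμ =>
      (((Bdd.pow (hT μ (hS hμ))).mul hB).cmul (c μ)))]
    exact Finset.sum_congr rfl (fun μ hμ => m_cmul _ ((Bdd.pow (hT μ (hS hμ))).mul hB))
  unfold tr rou
  rw [h1 T subset_rfl, h1 _ (Finset.filter_subset _ _), Finset.sum_filter]
  refine Finset.sum_congr rfl (fun μ hμ => ?_)
  by_cases hN : μ ^ N = 1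
  · rw [if_pos hN]
  · rw [if_neg hN, m_twist_zero hP hb (hT μ hμ) (fun h => hN (hrou μ hμ P hP h)), mul_zero]

lemma m_tr_LP (hT : ∀ μ ∈ T, ‖μ‖ = 1)
    (hrou : ∀ μ ∈ T, ∀ P, 0 < P → μ ^ P = 1 → μ ^ N = 1) {b : ℕ → ℂ} (hb : LP b) (hB : Bdd b) :
    m (fun n => tr T c n * b n) = m (fun n => rou N T c n * b n) := by
  obtain ⟨C, hC⟩ := bdd_tr (c := c) hT
  obtain ⟨D, hD⟩ := bdd_rou (N := N) (c := c) hT
  have hCD : 0 ≤ C + D := add_nonneg ((norm_nonneg _).trans (hC 0)) ((norm_nonneg _).trans (hD 0))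
  rw [← sub_eq_zero, ← norm_le_zero_iff]
  refine le_of_forall_pos_le_add (fun ε hε => ?_)
  rw [zero_add]
  obtain ⟨P, b', hP, hb', hbb⟩ := hb (ε / (C + D + 1)) (by positivity)
  have hB' := bdd_periodic hP hb'
  have h1 := m_tr_periodic (N := N) (c := c) hT hrou hP hb'
  have hu := bdd_tr (c := c) hT
  have hr := bdd_rou (N := N) (c := c) hT
  have h2 : m (fun n => tr T c n * b n) - m (fun n => rou N T c n * b n)
      = m (fun n => (tr T c n - rou N T c n) * (b n - b' n)) := by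
    have e : (fun n => (tr T c n - rou N T c n) * (b n - b' n)) = fun n =>
        (tr T c n * b n - rou N T c n * b n) - (tr T c n * b' n - rou N T c n * b' n) := by
      ext n; ring
    rw [e, m_sub ((hu.mul hB).sub (hr.mul hB)) ((hu.mul hB').sub (hr.mul hB')),
      m_sub (hu.mul hB) (hr.mul hB), m_sub (hu.mul hB') (hr.mul hB'), h1, sub_self, sub_zero]
  rw [h2]
  refine m_norm_le 1 ((hu.sub hr).mul (hB.sub hB')) (fun n hn => ?_)
  rw [norm_mul]
  calc ‖tr T c n - rou N T c n‖ * ‖b n - b' n‖ ≤ (C + D) * (ε / (C + D + 1)) :=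
        mul_le_mul ((norm_sub_le _ _).trans (add_le_add (hC n) (hD n))) (hbb n hn)
          (norm_nonneg _) hCD
    _ ≤ ε := by
        rw [mul_div_assoc', div_le_iff₀ (by positivity)]
        nlinarith

/-- Claim A -/
lemma tr_zero_of_m (hN : 0 < N) (hT : ∀ μ ∈ T, ‖μ‖ = 1) {D' : ℕ → ℝ} (hD0 : ∀ n, 0 ≤ D' n)
    (hD : Tendsto (fun n => (D' n : ℂ) - tr T c n) atTop (𝓝 0)) {y : ℕ}
    (hm : m (fun n => (D' n : ℂ) * (if N ∣ n + y then (1 : ℂ) else 0)) = 0) {n : ℕ}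
    (hn : N ∣ n + y) : tr T c n = 0 := by
  classical
  set I : ℕ → ℂ := fun n => if N ∣ n + y then (1 : ℂ) else 0 with hI
  have hIp : ∀ n, I (n + N) = I n := fun n => ind_periodic N y n
  have hIb : Bdd I := bdd_periodic hN hIp
  have hu := bdd_tr (c := c) hT
  have hDb : Bdd (fun n => (D' n : ℂ)) := by
    have h := (bdd_of_tendsto hD).add hu
    refine Eq.mp ?_ h
    congr 1; ext n; ring
  -- first n0
  obtain ⟨n0, hn0, hn0y⟩ : ∃ n0, n0 < N ∧ N ∣ n0 + y := by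
    refine ⟨n % N, Nat.mod_lt _ hN, ?_⟩
    have h1 : n % N ≡ n [MOD N] := Nat.mod_modEq _ _
    have h2 : n % N + y ≡ n + y [MOD N] := h1.add_right y
    exact (Nat.modEq_zero_iff_dvd.1 (h2.trans (Nat.modEq_zero_iff_dvd.2 hn)))
  have key : ∀ μ0 ∈ T, ∑ μ ∈ T with μ ^ N = μ0 ^ N, c μ * μ ^ n0 = 0 := by
    intro μ0 hμ0
    have h01 : ‖μ0‖ = 1 := hT μ0 hμ0
    have h00 : μ0 ≠ 0 := by rintro rfl; simp at h01
    have hi1 : ‖μ0⁻¹‖ = 1 := by rw [norm_inv, h01, inv_one]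
    have e1 : m (fun n => (D' n : ℂ) * I n * μ0⁻¹ ^ n) = 0 := by
      have hb1 : Bdd (fun n => ((D' n * (if N ∣ n + y then (1 : ℝ) else 0) : ℝ) : ℂ)) := by
        refine Eq.mp ?_ (hDb.mul hIb)
        congr 1
        ext n
        simp only [hI]
        split_ifs <;> simp
      have h := m_norm_le' (a := fun n => (D' n : ℂ) * I n * μ0⁻¹ ^ n)
        (b := fun n => D' n * (if N ∣ n + y then (1 : ℝ) else 0)) (fun n => by
          rw [norm_mul, norm_mul, norm_pow, hi1, one_pow, mul_one, Complex.norm_real,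
            Real.norm_of_nonneg (hD0 n)]
          refine mul_le_mul_of_nonneg_left ?_ (hD0 n)
          simp only [hI]
          split_ifs <;> simp) hb1
      have e : (fun n => ((D' n * (if N ∣ n + y then (1 : ℝ) else 0) : ℝ) : ℂ))
          = fun n => (D' n : ℂ) * I n := by
        ext n
        simp only [hI]
        split_ifs <;> simp
      rw [e] at h
      rw [hm, norm_zero] at h
      exact norm_le_zero_iff.1 h
    have e2 : m (fun n => tr T c n * (μ0⁻¹ ^ n * I n)) = 0 := by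
      rw [← e1]
      refine m_congr (hu.mul ((Bdd.pow hi1).mul hIb)) ((hDb.mul hIb).mul (Bdd.pow hi1)) ?_
      obtain ⟨C, hC⟩ := hIb
      have hn : Tendsto (fun n => tr T c n - (D' n : ℂ)) atTop (𝓝 0) := by
        have := hD.neg
        simpa using this
      refine squeeze_zero_norm (a := fun n => ‖tr T c n - (D' n : ℂ)‖ * C) (fun n => ?_) ?_
      · have : tr T c n * (μ0⁻¹ ^ n * I n) - (D' n : ℂ) * I n * μ0⁻¹ ^ n
            = (tr T c n - (D' n : ℂ)) * (I n) * μ0⁻¹ ^ n := by ring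
        rw [this, norm_mul, norm_mul, norm_pow, hi1, one_pow, mul_one]
        exact mul_le_mul_of_nonneg_left (hC n) (norm_nonneg _)
      · have := (hn.norm).mul_const C
        simpa using this
    have e3 : m (fun n => tr T c n * (μ0⁻¹ ^ n * I n))
        = ∑ μ ∈ T, c μ * m (fun n => (μ * μ0⁻¹) ^ n * I n) := by
      have hb : ∀ μ ∈ T, Bdd (fun n => (μ * μ0⁻¹) ^ n * I n) := fun μ hμ =>
        (Bdd.pow (by rw [norm_mul, hT μ hμ, hi1, one_mul])).mul hIb
      have : (fun n => tr T c n * (μ0⁻¹ ^ n * I n))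
          = fun n => ∑ μ ∈ T, c μ * ((μ * μ0⁻¹) ^ n * I n) := by
        ext n
        unfold tr
        rw [Finset.sum_mul]
        exact Finset.sum_congr rfl (fun μ _ => by rw [mul_pow]; ring)
      rw [this, m_sum T (a := fun μ n => c μ * ((μ * μ0⁻¹) ^ n * I n))
        (fun μ hμ => (hb μ hμ).cmul (c μ))]
      exact Finset.sum_congr rfl (fun μ hμ => m_cmul _ (hb μ hμ))
    have e4 : ∀ μ ∈ T, m (fun n => (μ * μ0⁻¹) ^ n * I n)
        = if μ ^ N = μ0 ^ N then (μ * μ0⁻¹) ^ n0 / N else 0 := by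
      intro μ hμ
      have hnm : ‖μ * μ0⁻¹‖ = 1 := by rw [norm_mul, hT μ hμ, hi1, one_mul]
      have hiff : (μ * μ0⁻¹) ^ N = 1 ↔ μ ^ N = μ0 ^ N := by
        rw [mul_pow, inv_pow]
        constructor
        · intro h
          have := pow_ne_zero N h00
          field_simp at h
          exact h
        · intro h
          rw [h]
          exact mul_inv_cancel₀ (pow_ne_zero N h00)
      split_ifs with h
      · have hp : ∀ n, (μ * μ0⁻¹) ^ (n + N) * I (n + N) = (μ * μ0⁻¹) ^ n * I n := by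
          intro n
          rw [hIp, pow_add, hiff.2 h, mul_one]
        rw [m_periodic hN hp]
        congr 1
        rw [Finset.sum_eq_single n0]
        · simp only [hI, if_pos hn0y, mul_one]
        · intro i hi hin
          simp only [hI]
          rw [if_neg, mul_zero]
          intro hdi
          apply hin
          have hi' := Finset.mem_range.1 hi
          have h3 : i + y ≡ n0 + y [MOD N] :=
            (Nat.modEq_zero_iff_dvd.2 hdi).trans (Nat.modEq_zero_iff_dvd.2 hn0y).symm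
          have h4 : i ≡ n0 [MOD N] := Nat.ModEq.add_right_cancel' y h3
          rwa [Nat.ModEq, Nat.mod_eq_of_lt hi', Nat.mod_eq_of_lt hn0] at h4
        · intro h'
          exact absurd (Finset.mem_range.2 hn0) h'
      · exact m_twist_zero hN hIp hnm (fun h' => h (hiff.1 h'))
    rw [e3] at e2
    rw [Finset.sum_congr rfl (fun μ hμ => by rw [e4 μ hμ])] at e2
    rw [Finset.sum_filter]
    have hN0 : (N : ℂ) ≠ 0 := by exact_mod_cast hN.ne'
    have e5 : (μ0 ^ n0) * N * (∑ μ ∈ T, c μ * (if μ ^ N = μ0 ^ N then (μ * μ0⁻¹) ^ n0 / N else 0))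
        = ∑ μ ∈ T, if μ ^ N = μ0 ^ N then c μ * μ ^ n0 else 0 := by
      rw [Finset.mul_sum]
      refine Finset.sum_congr rfl (fun μ _ => ?_)
      split_ifs with h
      · rw [mul_pow, inv_pow]
        have := pow_ne_zero n0 h00
        field_simp
      · ring
    rw [← e5, e2, mul_zero]
  -- conclusion
  obtain ⟨k, hk⟩ : ∃ k, n = n0 + N * k := by
    have h3 : n0 + y ≡ n + y [MOD N] :=
      (Nat.modEq_zero_iff_dvd.2 hn0y).trans (Nat.modEq_zero_iff_dvd.2 hn).symm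
    have h4 : n0 ≡ n [MOD N] := Nat.ModEq.add_right_cancel' y h3
    have h5 : n0 = n % N := by
      rwa [Nat.ModEq, Nat.mod_eq_of_lt hn0] at h4
    refine ⟨n / N, ?_⟩
    rw [h5]
    exact (Nat.mod_add_div n N).symm
  unfold tr
  rw [← Finset.sum_fiberwise_of_maps_to (s := T) (t := T.image (fun μ => μ ^ N))
    (g := fun μ => μ ^ N) (fun μ hμ => Finset.mem_image_of_mem _ hμ)]
  refine Finset.sum_eq_zero (fun κ hκ => ?_)
  obtain ⟨μ0, hμ0, rfl⟩ := Finset.mem_image.1 hκ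
  have : ∑ μ ∈ T with μ ^ N = μ0 ^ N, c μ * μ ^ n
      = (μ0 ^ N) ^ k * ∑ μ ∈ T with μ ^ N = μ0 ^ N, c μ * μ ^ n0 := by
    rw [Finset.mul_sum]
    refine Finset.sum_congr rfl (fun μ hμ => ?_)
    rw [Finset.mem_filter] at hμ
    rw [hk, pow_add, pow_mul, hμ.2]
    ring
  rw [this, key μ0 hμ0, mul_zero]

end Pool.Agent.V11319.FAD
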